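import Mathlib

/-!
Closed subsets of a well-ordered family of subgroups (Hill's method).
-/

namespace Pool.Agent.MP_d611d8_al

open Set

section Filt

variable {A : Type*} [AddCommGroup A] {I : Type*}

/-- sum of the `B i`, `i ∈ S` -/
def gen (B : I → AddSubgroup A) (S : Set I) : AddSubgroup A := ⨆ i ∈ S, B i

variable {B : I → AddSubgroup A} {S S' : Set I}

lemma gen_mono (h : S ⊆ S') : gen B S ≤ gen B S' := biSup_mono h

lemma le_gen {i : I} (hi : i ∈ S) : B i ≤ gen B S := le_biSup B hi

lemma gen_le {K : AddSubgroup A} (h : ∀ i ∈ S, B i ≤ K) : gen B S ≤ K := iSup₂_le h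

lemma gen_union : gen B (S ∪ S') = gen B S ⊔ gen B S' := iSup_union

lemma gen_insert {i : I} : gen B (insert i S) = B i ⊔ gen B S := iSup_insert

lemma gen_iUnion {κ : Sort*} (T : κ → Set I) : gen B (⋃ k, T k) = ⨆ k, gen B (T k) := by
  unfold gen
  rw [iSup_iUnion]

lemma gen_empty : gen B (∅ : Set I) = ⊥ := by
  unfold gen
  simp

lemma mem_gen_finset {x : A} (hx : x ∈ gen B S) :
    ∃ F : Finset I, (F : Set I) ⊆ S ∧ x ∈ gen B (F : Set I) := by
  classical
  let K : AddSubgroup A :=
    { carrier := {x | ∃ F : Finset I, (F : Set I) ⊆ S ∧ x ∈ gen B (F : Set I)}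
      zero_mem' := ⟨∅, by simp, zero_mem _⟩
      add_mem' := by
        rintro a b ⟨F, hF, ha⟩ ⟨F', hF', hb⟩
        refine ⟨F ∪ F', by simp [hF, hF'], add_mem ?_ ?_⟩
        · exact gen_mono (by simp) ha
        · exact gen_mono (by simp) hb
      neg_mem' := by
        rintro a ⟨F, hF, ha⟩
        exact ⟨F, hF, neg_mem ha⟩ }
  have : gen B S ≤ K := gen_le fun i hi y hy =>
    ⟨{i}, by simpa using hi, le_gen (by simp) hy⟩
  exact this hx

variable [LinearOrder I]

lemma exists_max_of_mem_gen {x : A} (hx : x ∈ gen B S) :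
    x = 0 ∨ ∃ m ∈ S, x ∈ gen B (S ∩ Iic m) := by
  obtain ⟨F, hF, hxF⟩ := mem_gen_finset hx
  rcases F.eq_empty_or_nonempty with rfl | hne
  · left
    rw [Finset.coe_empty, gen_empty] at hxF
    simpa using hxF
  · right
    refine ⟨F.max' hne, hF (F.max'_mem hne), gen_mono ?_ hxF⟩
    intro i hi
    exact ⟨hF hi, F.le_max' i hi⟩

lemma inter_Iic_of_mem {m : I} (hm : m ∈ S) : S ∩ Iic m = insert m (S ∩ Iio m) := by
  ext i
  simp only [mem_inter_iff, mem_Iic, mem_insert_iff, mem_Iio]
  constructor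
  · rintro ⟨h1, h2⟩
    rcases eq_or_lt_of_le h2 with h | h
    · exact Or.inl h
    · exact Or.inr ⟨h1, h⟩
  · rintro (rfl | ⟨h1, h2⟩)
    · exact ⟨hm, le_rfl⟩
    · exact ⟨h1, h2.le⟩

lemma inter_Iic_of_notMem {m : I} (hm : m ∉ S) : S ∩ Iic m = S ∩ Iio m := by
  ext i
  simp only [mem_inter_iff, mem_Iic, mem_Iio]
  constructor
  · rintro ⟨h1, h2⟩
    exact ⟨h1, lt_of_le_of_ne h2 fun h => hm (h ▸ h1)⟩
  · rintro ⟨h1, h2⟩
    exact ⟨h1, h2.le⟩

lemma split_Iic {m : I} (hm : m ∈ S) {x : A} (hx : x ∈ gen B (S ∩ Iic m)) :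
    ∃ y ∈ gen B (S ∩ Iio m), ∃ b ∈ B m, y + b = x := by
  rw [inter_Iic_of_mem hm, gen_insert, sup_comm] at hx
  exact AddSubgroup.mem_sup.1 hx

variable (B) in
/-- closed subsets -/
def ClosedSet (S : Set I) : Prop := ∀ i ∈ S, B i ⊓ gen B (Iio i) ≤ gen B (S ∩ Iio i)

lemma closedSet_iUnion {κ : Sort*} {T : κ → Set I} (h : ∀ k, ClosedSet B (T k)) :
    ClosedSet B (⋃ k, T k) := by
  intro i hi
  obtain ⟨k, hk⟩ := mem_iUnion.1 hi
  exact (h k i hk).trans (gen_mono (inter_subset_inter_left _ (subset_iUnion T k)))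

lemma closedSet_biUnion {κ : Type*} {T : κ → Set I} {s : Set κ} (h : ∀ k ∈ s, ClosedSet B (T k)) :
    ClosedSet B (⋃ k ∈ s, T k) := by
  refine closedSet_iUnion fun k => ?_
  by_cases hk : k ∈ s
  · simpa [hk] using h k hk
  · simp only [hk, iUnion_of_empty]
    intro i hi
    exact absurd hi (notMem_empty i)

lemma ClosedSet.union (h : ClosedSet B S) (h' : ClosedSet B S') : ClosedSet B (S ∪ S') := by
  intro i hi
  rcases hi with hi | hi
  · exact (h i hi).trans (gen_mono (inter_subset_inter_left _ subset_union_left))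
  · exact (h' i hi).trans (gen_mono (inter_subset_inter_left _ subset_union_right))

lemma ClosedSet.inter_lower (h : ClosedSet B S) {L : Set I} (hL : IsLowerSet L) :
    ClosedSet B (S ∩ L) := by
  intro i hi
  refine (h i hi.1).trans (gen_mono ?_)
  intro j hj
  exact ⟨⟨hj.1, hL (le_of_lt hj.2) hi.2⟩, hj.2⟩

variable [WellFoundedLT I]

lemma cut_aux (h : ClosedSet B S) {L : Set I} (hL : IsLowerSet L) (m : I) :
    ∀ x, m ∈ S → x ∈ gen B (S ∩ Iic m) → x ∈ gen B L → x ∈ gen B (S ∩ L) := by
  induction m using WellFoundedLT.induction with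
  | ind m ih =>
    intro x hm hx hxL
    by_cases hmL : m ∈ L
    · exact gen_mono (inter_subset_inter_right _ fun i hi => hL hi hmL) hx
    · obtain ⟨y, hy, b, hb, rfl⟩ := split_Iic hm hx
      have hLm : L ⊆ Iio m := fun i hi => by
        by_contra hcon
        exact hmL (hL (not_lt.1 hcon) hi)
      have hbm : b ∈ gen B (Iio m) := by
        have h1 : y + b ∈ gen B (Iio m) := gen_mono hLm hxL
        have h2 : y ∈ gen B (Iio m) := gen_mono inter_subset_right hy
        have := sub_mem h1 h2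
        rwa [add_sub_cancel_left] at this
      have hb' : b ∈ gen B (S ∩ Iio m) := h m hm ⟨hb, hbm⟩
      have hx' : y + b ∈ gen B (S ∩ Iio m) := add_mem hy hb'
      rcases exists_max_of_mem_gen hx' with h0 | ⟨m', hm', hx''⟩
      · rw [h0]
        exact zero_mem _
      · refine ih m' hm'.2 _ hm'.1 (gen_mono ?_ hx'') hxL
        intro i hi
        exact ⟨hi.1.1, hi.2⟩

/-- cutting a closed subgroup with an initial segment -/
lemma ClosedSet.cut (h : ClosedSet B S) {L : Set I} (hL : IsLowerSet L) :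
    gen B S ⊓ gen B L ≤ gen B (S ∩ L) := by
  rintro x ⟨hx, hxL⟩
  rcases exists_max_of_mem_gen hx with h0 | ⟨m, hm, hx'⟩
  · rw [h0]
    exact zero_mem _
  · exact cut_aux h hL m x hm hx' hxL

lemma inter_aux (h : ClosedSet B S) (h' : ClosedSet B S') (m : I) :
    ∀ x, m ∈ S → x ∈ gen B (S ∩ Iic m) → x ∈ gen B S' → x ∈ gen B (S ∩ S') := by
  induction m using WellFoundedLT.induction with
  | ind m ih =>
    -- version of the induction hypothesis for `S ∩ Iio m`
    have ih' : ∀ x, x ∈ gen B (S ∩ Iio m) → x ∈ gen B S' → x ∈ gen B (S ∩ S') := by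
      intro x hx hxS'
      rcases exists_max_of_mem_gen hx with h0 | ⟨m', hm', hx''⟩
      · rw [h0]
        exact zero_mem _
      · refine ih m' hm'.2 _ hm'.1 (gen_mono ?_ hx'') hxS'
        intro i hi
        exact ⟨hi.1.1, hi.2⟩
    intro x hm hx hxS'
    obtain ⟨y, hy, b, hb, rfl⟩ := split_Iic hm hx
    have hx2 : y + b ∈ gen B (S' ∩ Iic m) :=
      h'.cut (isLowerSet_Iic m) ⟨hxS', gen_mono inter_subset_right hx⟩
    have hy2 : y ∈ gen B (Iio m) := gen_mono inter_subset_right hy
    by_cases hmS' : m ∈ S'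
    · obtain ⟨y', hy', b', hb', he⟩ := split_Iic hmS' hx2
      have hy2' : y' ∈ gen B (Iio m) := gen_mono inter_subset_right hy'
      have hd : y - y' = b' - b := by
        have : y + b = y' + b' := he.symm
        rw [sub_eq_sub_iff_add_eq_add, this, add_comm]
      have hdm : y - y' ∈ B m := by
        rw [hd]
        exact sub_mem hb' hb
      have hdI : y - y' ∈ gen B (Iio m) := sub_mem hy2 hy2'
      have hdS : y - y' ∈ gen B (S ∩ Iio m) := h m hm ⟨hdm, hdI⟩
      have hy'S : y' ∈ gen B (S ∩ Iio m) := by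
        have := sub_mem hy hdS
        rwa [sub_sub_cancel] at this
      have h1 : y' ∈ gen B (S ∩ S') := ih' y' hy'S (gen_mono inter_subset_left hy')
      rw [← he]
      have hmm : m ∈ S ∩ S' := ⟨hm, hmS'⟩
      exact add_mem h1 (le_gen hmm hb')
    · rw [inter_Iic_of_notMem hmS'] at hx2
      have hb2 : b ∈ gen B (Iio m) := by
        have := sub_mem (gen_mono inter_subset_right hx2) hy2
        rwa [add_sub_cancel_left] at this
      have hbS : b ∈ gen B (S ∩ Iio m) := h m hm ⟨hb, hb2⟩
      exact ih' _ (add_mem hy hbS) hxS'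

/-- intersections of closed subgroups -/
lemma ClosedSet.inter (h : ClosedSet B S) (h' : ClosedSet B S') :
    gen B S ⊓ gen B S' ≤ gen B (S ∩ S') := by
  rintro x ⟨hx, hxS'⟩
  rcases exists_max_of_mem_gen hx with h0 | ⟨m, hm, hx'⟩
  · rw [h0]
    exact zero_mem _
  · exact inter_aux h h' m x hm hx' hxS'

/-- closed subgroups are pure if the initial ones are -/
lemma ClosedSet.pure (htop : gen B univ = ⊤)
    (hpure : ∀ i, ∀ (n : ℕ) (x : A), n ≠ 0 → n • x ∈ gen B (Iio i) → x ∈ gen B (Iio i))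
    (h : ClosedSet B S) {n : ℕ} (hn : n ≠ 0) {x : A} (hx : n • x ∈ gen B S) : x ∈ gen B S := by
  have key : ∀ m : I, ∀ x : A, x ∈ gen B (Iic m) → n • x ∈ gen B S → x ∈ gen B S := by
    intro m
    induction m using WellFoundedLT.induction with
    | ind m ih =>
      have ih' : ∀ x, x ∈ gen B (Iio m) → n • x ∈ gen B S → x ∈ gen B S := by
        intro x hx hxS
        rcases exists_max_of_mem_gen hx with h0 | ⟨m', hm', hx''⟩
        · rw [h0]
          exact zero_mem _
        · exact ih m' hm' _ (gen_mono inter_subset_right hx'') hxS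
      intro x hx hxS
      have hcut : n • x ∈ gen B (S ∩ Iic m) := h.cut (isLowerSet_Iic m) ⟨hxS, nsmul_mem hx n⟩
      by_cases hmS : m ∈ S
      · obtain ⟨y, hy, b, hb, he⟩ := split_Iic hmS hcut
        have hx' : x ∈ gen B (univ ∩ Iic m) := by rwa [univ_inter]
        obtain ⟨z, hz, b', hb', rfl⟩ := split_Iic (mem_univ m) hx'
        rw [univ_inter] at hz
        have hd : n • z - y = b - n • b' := by
          rw [sub_eq_sub_iff_add_eq_add, ← nsmul_add, ← he, add_comm]
        have hdB : n • z - y ∈ B m := by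
          rw [hd]
          exact sub_mem hb (nsmul_mem hb' n)
        have hdI : n • z - y ∈ gen B (Iio m) :=
          sub_mem (nsmul_mem hz n) (gen_mono inter_subset_right hy)
        have hdS : n • z - y ∈ gen B (S ∩ Iio m) := h m hmS ⟨hdB, hdI⟩
        have hnz : n • z ∈ gen B (S ∩ Iio m) := by
          have := add_mem hdS hy
          rwa [sub_add_cancel] at this
        exact add_mem (ih' z hz (gen_mono inter_subset_left hnz)) (le_gen hmS hb')
      · rw [inter_Iic_of_notMem hmS] at hcut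
        exact ih' x (hpure m n x hn (gen_mono inter_subset_right hcut)) hxS
  have hxtop : x ∈ gen B univ := by
    rw [htop]
    exact AddSubgroup.mem_top x
  rcases exists_max_of_mem_gen hxtop with h0 | ⟨m, -, hx'⟩
  · rw [h0]
    exact zero_mem _
  · exact key m x (gen_mono inter_subset_right hx') hx

/-- Finite closures: if every `B i ⊓ gen (Iio i)` is controlled by finitely many elements, then
every index lies in a finite closed set. -/
lemma exists_finite_closed
    (hfin : ∀ i, ∃ a : Set A, a.Finite ∧ a ⊆ (gen B (Iio i) : Set A) ∧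
      ∀ T : Set I, T ⊆ Iio i → ClosedSet B T → a ⊆ (gen B T : Set A) →
        B i ⊓ gen B (Iio i) ≤ gen B T) (i : I) :
    ∃ T : Set I, T.Finite ∧ ClosedSet B T ∧ i ∈ T ∧ T ⊆ Iic i := by
  induction i using WellFoundedLT.induction with
  | ind i ih =>
    choose! c hc1 hc2 hc3 hc4 using ih
    obtain ⟨a, ha, hai, hT⟩ := hfin i
    have hF : ∀ x ∈ a, ∃ F : Finset I, (F : Set I) ⊆ Iio i ∧ x ∈ gen B (F : Set I) :=
      fun x hx => mem_gen_finset (hai hx)
    choose! F hF1 hF2 using hF
    set T : Set I := ⋃ x ∈ a, ⋃ j ∈ (F x : Set I), c j with hTdef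
    have hTlt : T ⊆ Iio i := by
      intro k hk
      simp only [hTdef, mem_iUnion] at hk
      obtain ⟨x, hx, j, hj, hk⟩ := hk
      exact lt_of_le_of_lt (hc4 j (hF1 x hx hj) hk) (hF1 x hx hj)
    have hTfin : T.Finite := by
      refine ha.biUnion fun x hx => ?_
      refine (F x).finite_toSet.biUnion fun j hj => ?_
      exact hc1 j (hF1 x hx hj)
    have hTcl : ClosedSet B T := by
      refine closedSet_biUnion fun x hx => ?_
      exact closedSet_biUnion fun j hj => hc2 j (hF1 x hx hj)
    have haT : a ⊆ (gen B T : Set A) := by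
      intro x hx
      refine gen_mono ?_ (hF2 x hx)
      intro j hj
      simp only [hTdef, mem_iUnion]
      exact ⟨x, hx, j, hj, hc3 j (hF1 x hx hj)⟩
    refine ⟨insert i T, hTfin.insert i, ?_, mem_insert _ _, ?_⟩
    · intro j hj
      rcases hj with rfl | hj
      · refine (hT T hTlt hTcl haT).trans (gen_mono ?_)
        intro k hk
        exact ⟨mem_insert_of_mem _ hk, hTlt hk⟩
      · refine (hTcl j hj).trans (gen_mono ?_)
        exact inter_subset_inter_left _ (subset_insert _ _)
    · intro j hj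
      rcases hj with rfl | hj
      · exact le_rfl
      · exact (hTlt hj).le

omit [WellFoundedLT I] in
/-- every element lies in `gen T` for a finite closed set `T` -/
lemma exists_finite_closed_mem (htop : gen B univ = ⊤)
    (hfin : ∀ i, ∃ T : Set I, T.Finite ∧ ClosedSet B T ∧ i ∈ T)
    (x : A) : ∃ T : Set I, T.Finite ∧ ClosedSet B T ∧ x ∈ gen B T := by
  have hx : x ∈ gen B univ := by
    rw [htop]
    exact AddSubgroup.mem_top x
  obtain ⟨F, -, hF⟩ := mem_gen_finset hx
  choose c h1 h2 h3 using hfin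
  refine ⟨⋃ i ∈ (F : Set I), c i, F.finite_toSet.biUnion fun i _ => h1 i,
    closedSet_biUnion fun i _ => h2 i, gen_mono ?_ hF⟩
  intro i hi
  simp only [mem_iUnion]
  exact ⟨i, hi, h3 i⟩

end Filt

end Pool.Agent.MP_d611d8_al
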