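import Mathlib
import Pool.Agent.MP_d611d8_al.Filtered

/-!
A distributive law for subgroups closed under finitely many operations, in arbitrary abelian
groups.
-/

namespace Pool.Agent.MP_d611d8_al

open Set

section

variable {A : Type*} [AddCommGroup A]

/-- In every abelian group there is a finite-set-valued function such that subgroups closed under
it satisfy the distributive law. -/
lemma exists_finite_support (A : Type*) [AddCommGroup A] :
    ∃ F : A → Set A, (∀ a, (F a).Finite) ∧ (∀ a, a ∈ F a) ∧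
      ∀ (M : AddSubgroup A) (𝒩 : Set (AddSubgroup A)), (∀ a ∈ M, F a ⊆ M) →
        (∀ N ∈ 𝒩, ∀ a ∈ N, F a ⊆ N) → M ⊓ sSup 𝒩 ≤ ⨆ N ∈ 𝒩, M ⊓ N := by
  classical
  obtain ⟨_, _⟩ := exists_wellFoundedLT A
  let B : A → AddSubgroup A := fun a => AddSubgroup.zmultiples a
  have hfin : ∀ i : A, ∃ T : Set A, T.Finite ∧ ClosedSet B T ∧ i ∈ T ∧ T ⊆ Iic i := by
    intro i
    refine exists_finite_closed (B := B) ?_ i
    intro i
    -- the subgroup of `ℤ`
    obtain ⟨n₀, hn₀⟩ := Int.subgroup_cyclic ((gen B (Iio i)).comap (zmultiplesHom A i))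
    refine ⟨{n₀ • i}, Set.finite_singleton _, ?_, ?_⟩
    · rintro x rfl
      have : n₀ ∈ (gen B (Iio i)).comap (zmultiplesHom A i) := by
        rw [hn₀]
        exact AddSubgroup.subset_closure rfl
      simpa using this
    · rintro T - - hT x ⟨hx1, hx2⟩
      obtain ⟨k, rfl⟩ := AddSubgroup.mem_zmultiples_iff.1 hx1
      have hk : k ∈ (gen B (Iio i)).comap (zmultiplesHom A i) := by simpa using hx2
      rw [hn₀, AddSubgroup.mem_closure_singleton] at hk
      obtain ⟨c, rfl⟩ := hk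
      have : n₀ • i ∈ gen B T := hT rfl
      rw [smul_assoc]
      exact zsmul_mem this c
  choose F hF1 hF2 hF3 _ using hfin
  refine ⟨F, hF1, hF3, ?_⟩
  intro M 𝒩 hM hN
  have hclosed : ∀ M : AddSubgroup A, (∀ a ∈ M, F a ⊆ M) → ClosedSet B (M : Set A) := by
    intro M hM
    have : (M : Set A) = ⋃ a ∈ (M : Set A), F a := by
      apply subset_antisymm
      · intro a ha
        simp only [mem_iUnion]
        exact ⟨a, ha, hF3 a⟩
      · exact iUnion₂_subset hM
    rw [this]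
    exact closedSet_biUnion fun a _ => hF2 a
  have hgen : ∀ M : AddSubgroup A, gen B (M : Set A) = M := by
    intro M
    apply le_antisymm
    · refine gen_le fun a ha => ?_
      exact AddSubgroup.zmultiples_le_of_mem ha
    · intro a ha
      exact le_gen (B := B) (S := (M : Set A)) ha (AddSubgroup.mem_zmultiples a)
  have hU : ClosedSet B (⋃ N ∈ 𝒩, (N : Set A)) :=
    closedSet_biUnion fun N hN' => hclosed N (hN N hN')
  have h1 : M ⊓ sSup 𝒩 ≤ gen B (M : Set A) ⊓ gen B (⋃ N ∈ 𝒩, (N : Set A)) := by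
    refine inf_le_inf (hgen M).ge ?_
    refine sSup_le fun N hN' => ?_
    conv_lhs => rw [← hgen N]
    exact gen_mono (subset_biUnion_of_mem (u := fun N : AddSubgroup A => (N : Set A)) hN')
  refine h1.trans (((hclosed M hM).inter hU).trans ?_)
  refine gen_le fun a ha => ?_
  obtain ⟨haM, haN⟩ := ha
  simp only [mem_iUnion] at haN
  obtain ⟨N, hN', haN⟩ := haN
  have : AddSubgroup.zmultiples a ≤ M ⊓ N :=
    AddSubgroup.zmultiples_le_of_mem ⟨haM, haN⟩
  exact this.trans (le_iSup₂_of_le N hN' le_rfl)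

/-- The version for a subgroup `Γ` of an abelian group. -/
lemma exists_closure_distrib {F : Type*} [AddCommGroup F] (Γ : AddSubgroup F) :
    ∃ clo : F → Set F, (∀ f, (clo f).Finite) ∧
      ∀ 𝒩 : Set (AddSubgroup F), (∀ N ∈ 𝒩, ∀ f ∈ N, clo f ⊆ N) →
        Γ ⊓ sSup 𝒩 ≤ ⨆ N ∈ 𝒩, Γ ⊓ N := by
  classical
  obtain ⟨S, hSfin, hSmem, hS⟩ := exists_finite_support (F ⧸ Γ)
  let rep : F ⧸ Γ → F := Quotient.out
  have hrep : ∀ a : F ⧸ Γ, (QuotientAddGroup.mk (rep a) : F ⧸ Γ) = a := fun a =>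
    Quotient.out_eq' a
  refine ⟨fun f => rep '' (S (QuotientAddGroup.mk f)), fun f => (hSfin _).image _, ?_⟩
  -- finite version
  have key : ∀ 𝒩 : Finset (AddSubgroup F),
      (∀ N ∈ 𝒩, ∀ f ∈ N, rep '' (S (QuotientAddGroup.mk f)) ⊆ N) →
        Γ ⊓ sSup (𝒩 : Set (AddSubgroup F)) ≤ ⨆ N ∈ 𝒩, Γ ⊓ N := by
    intro 𝒩
    induction 𝒩 using Finset.induction_on with
    | empty =>
      intro _
      simp
    | insert M 𝒩 hM ih =>
      intro hcl
      have hcl' : ∀ N ∈ 𝒩, ∀ f ∈ N, rep '' (S (QuotientAddGroup.mk f)) ⊆ N := fun N hN =>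
        hcl N (Finset.mem_insert_of_mem hN)
      have hclM := hcl M (Finset.mem_insert_self M 𝒩)
      rw [Finset.coe_insert, sSup_insert, Finset.iSup_insert]
      rintro c ⟨hcΓ, hc⟩
      obtain ⟨a, ha, b, hb, rfl⟩ := AddSubgroup.mem_sup.1 hc
      -- images in the quotient
      let π : F →+ F ⧸ Γ := QuotientAddGroup.mk' Γ
      have hπ : ∀ f, π f = QuotientAddGroup.mk f := fun f => rfl
      have hker : ∀ f, π f = 0 ↔ f ∈ Γ := fun f => QuotientAddGroup.eq_zero_iff f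
      have himg : ∀ N : AddSubgroup F, (∀ f ∈ N, rep '' (S (QuotientAddGroup.mk f)) ⊆ N) →
          ∀ q ∈ N.map π, S q ⊆ (N.map π : Set (F ⧸ Γ)) := by
        rintro N hN q ⟨f, hf, rfl⟩ r hr
        have : rep r ∈ N := hN f hf ⟨r, hr, rfl⟩
        exact ⟨rep r, this, hrep r⟩
      have hπa : π a ∈ M.map π := ⟨a, ha, rfl⟩
      have hπab : π a = - π b := by
        have : π (a + b) = 0 := (hker _).2 hcΓ
        rw [map_add] at this
        exact eq_neg_of_add_eq_zero_left this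
      have hπa' : π a ∈ sSup ((fun N : AddSubgroup F => N.map π) '' (𝒩 : Set (AddSubgroup F))) := by
        rw [hπab]
        apply neg_mem
        rw [sSup_image]
        have : (sSup (𝒩 : Set (AddSubgroup F))).map π = ⨆ N ∈ (𝒩 : Set (AddSubgroup F)),
            N.map π := by
          rw [sSup_eq_iSup, AddSubgroup.map_iSup]
          refine iSup_congr fun N => ?_
          rw [AddSubgroup.map_iSup]
        rw [← this]
        exact ⟨b, hb, rfl⟩
      have h2 := hS (M.map π) ((fun N : AddSubgroup F => N.map π) '' (𝒩 : Set (AddSubgroup F)))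
        (himg M hclM) (by
          rintro _ ⟨N, hN, rfl⟩
          exact himg N (hcl' N hN)) ⟨hπa, hπa'⟩
      have h3 : (⨆ N ∈ (fun N : AddSubgroup F => N.map π) '' (𝒩 : Set (AddSubgroup F)),
          M.map π ⊓ N) ≤ (⨆ N ∈ 𝒩, M ⊓ N).map π := by
        refine iSup₂_le ?_
        rintro _ ⟨N, hN, rfl⟩
        rintro q ⟨⟨f, hf, hfq⟩, ⟨f', hf', hfq'⟩⟩
        have e1 : rep q ∈ M := by
          rw [← hfq]
          exact hclM f hf ⟨_, hSmem _, rfl⟩
        have e2 : rep q ∈ N := by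
          rw [← hfq']
          exact hcl' N hN f' hf' ⟨_, hSmem _, rfl⟩
        refine ⟨rep q, ?_, hrep q⟩
        exact (le_iSup₂_of_le (f := fun (N : AddSubgroup F) (_ : N ∈ 𝒩) => M ⊓ N) N hN le_rfl)
          ⟨e1, e2⟩
      obtain ⟨e, he, hea⟩ := h3 h2
      have heM : e ∈ M := (iSup₂_le fun N _ => inf_le_left : (⨆ N ∈ 𝒩, M ⊓ N) ≤ M) he
      have heN : e ∈ sSup (𝒩 : Set (AddSubgroup F)) :=
        (iSup₂_le fun N hN => inf_le_right.trans (le_sSup hN) :
          (⨆ N ∈ 𝒩, M ⊓ N) ≤ sSup (𝒩 : Set (AddSubgroup F))) he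
      have h4 : a - e ∈ Γ := by
        rw [← hker, map_sub, hea, sub_self]
      have h5 : b + e ∈ Γ := by
        have : b + e = (a + b) - (a - e) := by abel
        rw [this]
        exact sub_mem hcΓ h4
      have h6 : b + e ∈ ⨆ N ∈ 𝒩, Γ ⊓ N := ih hcl' ⟨h5, add_mem hb heN⟩
      have h7' : a - e ∈ M := sub_mem ha heM
      have h7 : a - e ∈ Γ ⊓ M := ⟨h4, h7'⟩
      have : a + b = (a - e) + (b + e) := by abel
      rw [this]
      exact AddSubgroup.add_mem_sup h7 h6
  intro 𝒩 hcl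
  rintro c ⟨hcΓ, hc⟩
  rw [sSup_eq_iSup] at hc
  obtain ⟨T, hT, hcT⟩ := mem_gen_finset (B := fun N : AddSubgroup F => N) (S := 𝒩) hc
  have hcT' : c ∈ sSup (T : Set (AddSubgroup F)) := by
    rw [sSup_eq_iSup]
    exact hcT
  have := key T (fun N hN => hcl N (hT hN)) ⟨hcΓ, hcT'⟩
  refine (iSup₂_le fun N hN => ?_ : (⨆ N ∈ T, Γ ⊓ N) ≤ ⨆ N ∈ 𝒩, Γ ⊓ N) this
  exact le_iSup₂_of_le (f := fun (N : AddSubgroup F) (_ : N ∈ 𝒩) => Γ ⊓ N) N (hT hN) le_rfl

end

end Pool.Agent.MP_d611d8_al
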