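import Mathlib

/-!
Heights, separable subgroups, Axiom 3 and Butler groups of type 2.
-/

namespace Pool.Agent.MP_d611d8_al

universe u

/-- The `p`-height `|x|_p` : the largest `n` with `x ∈ p^n G`, and `∞` if there is none. -/
noncomputable def pHeight {G : Type*} [AddCommGroup G] (p : ℕ) (x : G) : ℕ∞ :=
  ⨆ n ∈ {n : ℕ | ∃ y : G, p ^ n • y = x}, (n : ℕ∞)

/-- The height sequence `|x| = (|x|_p)_p`, ordered coordinatewise. -/
noncomputable def heightSeq {G : Type*} [AddCommGroup G] (x : G) : Nat.Primes → ℕ∞ :=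
  fun p => pHeight (p : ℕ) x

/-- Separable subgroups (in the sense of Hill): for each `g` there are countably many `h n` in `H`
such that `|g + x| ≤ |g + h n|` for some `n`, for every `x` in `H`. -/
def IsSeparableSubgroup {G : Type*} [AddCommGroup G] (H : AddSubgroup G) : Prop :=
  ∀ g : G, ∃ h : ℕ → G, (∀ n, h n ∈ H) ∧ ∀ x ∈ H, ∃ n, heightSeq (g + x) ≤ heightSeq (g + h n)

/-- `G` satisfies Axiom 3 with respect to the subgroups having the property `P`. -/
def SatisfiesAxiom3 (G : Type*) [AddCommGroup G] (P : AddSubgroup G → Prop) : Prop :=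
  ∃ C : Set (AddSubgroup G), (∀ H ∈ C, P H) ∧ (⊥ : AddSubgroup G) ∈ C ∧
    (∀ F : Set (AddSubgroup G), F ⊆ C → sSup F ∈ C) ∧
    ∀ K : AddSubgroup G, (K : Set G).Countable → ∃ H ∈ C, (H : Set G).Countable ∧ K ≤ H

/-- torsion-free abelian groups -/
def IsTorsionFreeGroup (G : Type*) [AddCommGroup G] : Prop :=
  ∀ (n : ℕ) (x : G), n ≠ 0 → n • x = 0 → x = 0

/-- pure subgroups: `A ∩ nG = nA` for all `n` -/
def IsPureSubgroup {G : Type*} [AddCommGroup G] (A : AddSubgroup G) : Prop :=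
  ∀ (n : ℕ) (x : G), n • x ∈ A → ∃ a ∈ A, n • a = n • x

/-- Butler groups of finite rank: groups isomorphic to a pure subgroup of a finite direct sum of
subgroups of `ℚ`. -/
def IsFiniteRankButler (B : Type*) [AddCommGroup B] : Prop :=
  ∃ (n : ℕ) (R : Fin n → AddSubgroup ℚ) (f : B →+ ((i : Fin n) → R i)),
    Function.Injective f ∧ IsPureSubgroup f.range

/-- Butler groups of type 2: torsion-free groups that are the union of a smooth ascending chain
`(A α)_{α ≤ κ}` of pure subgroups with `A 0 = 0` and `A (α + 1) = A α + B`, `B` a Butler group of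
finite rank. -/
def IsButlerType2 (G : Type u) [AddCommGroup G] : Prop :=
  IsTorsionFreeGroup G ∧
  ∃ (κ : Ordinal.{u}) (A : Ordinal.{u} → AddSubgroup G),
    A 0 = ⊥ ∧ A κ = ⊤ ∧
    (∀ α β, α ≤ β → β ≤ κ → A α ≤ A β) ∧
    (∀ α ≤ κ, IsPureSubgroup (A α)) ∧
    (∀ α < κ, ∃ B : AddSubgroup G, IsFiniteRankButler B ∧ A (Order.succ α) = A α ⊔ B) ∧
    (∀ α ≤ κ, Order.IsSuccLimit α → A α = ⨆ β ∈ Set.Iio α, A β)

end Pool.Agent.MP_d611d8_al
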