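import Mathlib
import Pool.Agent.MP_d611d8_al.Defs

/-!
Basic facts about heights and divisibility.
-/

namespace Pool.Agent.MP_d611d8_al

open Set

section

variable {G : Type*} [AddCommGroup G]

/-- `k` divides `x` in `G` -/
def PDiv (k : ℕ) (x : G) : Prop := ∃ y : G, k • y = x

lemma PDiv.add {k : ℕ} {x y : G} (hx : PDiv k x) (hy : PDiv k y) : PDiv k (x + y) := by
  obtain ⟨a, rfl⟩ := hx
  obtain ⟨b, rfl⟩ := hy
  exact ⟨a + b, nsmul_add a b k⟩

lemma PDiv.neg {k : ℕ} {x : G} (hx : PDiv k x) : PDiv k (-x) := by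
  obtain ⟨a, rfl⟩ := hx
  exact ⟨-a, smul_neg k a⟩

lemma PDiv.sub {k : ℕ} {x y : G} (hx : PDiv k x) (hy : PDiv k y) : PDiv k (x - y) := by
  rw [sub_eq_add_neg]
  exact hx.add hy.neg

lemma PDiv.neg_iff {k : ℕ} {x : G} : PDiv k (-x) ↔ PDiv k x :=
  ⟨fun h => by simpa using h.neg, fun h => h.neg⟩

lemma PDiv.nsmul {k : ℕ} {x : G} (hx : PDiv k x) (m : ℕ) : PDiv k (m • x) := by
  obtain ⟨a, rfl⟩ := hx
  exact ⟨m • a, by rw [smul_smul, smul_smul, mul_comm]⟩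

lemma PDiv.zsmul {k : ℕ} {x : G} (hx : PDiv k x) (m : ℤ) : PDiv k (m • x) := by
  obtain ⟨a, rfl⟩ := hx
  refine ⟨m • a, ?_⟩
  rw [smul_comm]

lemma PDiv.zero (k : ℕ) : PDiv k (0 : G) := ⟨0, smul_zero k⟩

lemma PDiv.of_dvd {k l : ℕ} (h : k ∣ l) {x : G} (hx : PDiv l x) : PDiv k x := by
  obtain ⟨c, rfl⟩ := h
  obtain ⟨a, rfl⟩ := hx
  exact ⟨c • a, by rw [smul_smul]⟩

lemma PDiv.of_pow_le {p n m : ℕ} (h : n ≤ m) {x : G} (hx : PDiv (p ^ m) x) : PDiv (p ^ n) x :=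
  hx.of_dvd (pow_dvd_pow p h)

lemma PDiv.pow_zero (p : ℕ) (x : G) : PDiv (p ^ 0) x := ⟨x, by simp⟩

/-- if `m` and `k` are coprime and `k ∣ m x` then `k ∣ x` -/
lemma PDiv.of_coprime {k m : ℕ} (h : Nat.Coprime m k) {x : G} (hx : PDiv k (m • x)) :
    PDiv k x := by
  obtain ⟨y, hy⟩ := hx
  have hb := Nat.gcd_eq_gcd_ab m k
  rw [h] at hb
  have : x = ((m : ℤ) * Nat.gcdA m k + (k : ℤ) * Nat.gcdB m k) • x := by
    rw [← hb]
    simp
  refine ⟨Nat.gcdA m k • y + Nat.gcdB m k • x, ?_⟩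
  rw [nsmul_add]
  conv_rhs => rw [this, add_smul]
  congr 1
  · rw [smul_comm, hy, mul_comm, mul_smul, natCast_zsmul]
  · rw [mul_smul, natCast_zsmul]

lemma PDiv.of_not_dvd {p : ℕ} (hp : p.Prime) {n m : ℕ} (hm : ¬ p ∣ m) {x : G}
    (hx : PDiv (p ^ n) (m • x)) : PDiv (p ^ n) x := by
  refine hx.of_coprime (Nat.Coprime.pow_right n ?_)
  rw [Nat.coprime_comm]
  exact (Nat.Prime.coprime_iff_not_dvd hp).2 hm

lemma le_pHeight_iff {p n : ℕ} {x : G} : (n : ℕ∞) ≤ pHeight p x ↔ PDiv (p ^ n) x := by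
  constructor
  · intro h
    by_contra hcon
    have hn : n ≠ 0 := by
      rintro rfl
      exact hcon (PDiv.pow_zero p x)
    have hle : pHeight p x ≤ ((n - 1 : ℕ) : ℕ∞) := by
      unfold pHeight
      refine iSup₂_le fun m hm => ?_
      have hlt : m < n := by
        by_contra hge
        exact hcon (PDiv.of_pow_le (not_lt.1 hge) hm)
      exact_mod_cast (by omega : m ≤ n - 1)
    have h2 := h.trans hle
    have h3 : n ≤ n - 1 := by exact_mod_cast h2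
    omega
  · intro h
    unfold pHeight
    exact le_iSup₂_of_le n h le_rfl

lemma le_heightSeq_iff {χ : Nat.Primes → ℕ∞} {x : G} :
    χ ≤ heightSeq x ↔ ∀ (p : Nat.Primes) (n : ℕ), (n : ℕ∞) ≤ χ p → PDiv ((p : ℕ) ^ n) x := by
  constructor
  · intro h p n hn
    exact le_pHeight_iff.1 (hn.trans (h p))
  · intro h p
    change χ p ≤ pHeight (p : ℕ) x
    refine ENat.forall_natCast_le_iff_le.1 fun n hn => ?_
    exact le_pHeight_iff.2 (h p n hn)

lemma heightSeq_le_iff {x : G} {χ : Nat.Primes → ℕ∞} :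
    heightSeq x ≤ χ ↔ ∀ (p : Nat.Primes) (n : ℕ), PDiv ((p : ℕ) ^ n) x → (n : ℕ∞) ≤ χ p := by
  constructor
  · intro h p n hn
    exact (le_pHeight_iff.2 hn).trans (h p)
  · intro h p
    change pHeight (p : ℕ) x ≤ χ p
    refine ENat.forall_natCast_le_iff_le.1 fun n hn => ?_
    exact h p n (le_pHeight_iff.1 hn)

lemma heightSeq_le_heightSeq_iff {H : Type*} [AddCommGroup H] {x : G} {y : H} :
    heightSeq x ≤ heightSeq y ↔
      ∀ (p : Nat.Primes) (n : ℕ), PDiv ((p : ℕ) ^ n) x → PDiv ((p : ℕ) ^ n) y := by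
  rw [heightSeq_le_iff]
  exact forall_congr' fun p => forall_congr' fun n => imp_congr_right fun _ => le_pHeight_iff

lemma inf_le_heightSeq_add {x y : G} : heightSeq x ⊓ heightSeq y ≤ heightSeq (x + y) := by
  rw [le_heightSeq_iff]
  intro p n hn
  have h1 : (n : ℕ∞) ≤ pHeight (p : ℕ) x := hn.trans inf_le_left
  have h2 : (n : ℕ∞) ≤ pHeight (p : ℕ) y := hn.trans inf_le_right
  exact (le_pHeight_iff.1 h1).add (le_pHeight_iff.1 h2)

lemma heightSeq_neg (x : G) : heightSeq (-x) = heightSeq x := by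
  apply le_antisymm
  · rw [heightSeq_le_heightSeq_iff]
    intro p n h
    exact PDiv.neg_iff.1 h
  · rw [heightSeq_le_heightSeq_iff]
    intro p n h
    exact h.neg

lemma heightSeq_le_nsmul (m : ℕ) (x : G) : heightSeq x ≤ heightSeq (m • x) := by
  rw [heightSeq_le_heightSeq_iff]
  intro p n h
  exact h.nsmul m

/-- purity in torsion-free groups -/
lemma IsPureSubgroup.mem (hG : IsTorsionFreeGroup G) {A : AddSubgroup G} (hA : IsPureSubgroup A)
    {n : ℕ} (hn : n ≠ 0) {x : G} (hx : n • x ∈ A) : x ∈ A := by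
  obtain ⟨a, ha, he⟩ := hA n x hx
  have : n • (a - x) = 0 := by rw [nsmul_sub, he, sub_self]
  have h0 := hG n (a - x) hn this
  rw [sub_eq_zero] at h0
  exact h0 ▸ ha

lemma isPureSubgroup_of_mem {A : AddSubgroup G}
    (h : ∀ (n : ℕ) (x : G), n ≠ 0 → n • x ∈ A → x ∈ A) : IsPureSubgroup A := by
  intro n x hx
  rcases eq_or_ne n 0 with rfl | hn
  · exact ⟨0, zero_mem _, by simp⟩
  · exact ⟨x, h n x hn hx, rfl⟩

lemma PDiv.of_pure (hG : IsTorsionFreeGroup G) {A : AddSubgroup G} (hA : IsPureSubgroup A)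
    {k : ℕ} (hk : k ≠ 0) {x : G} (hx : x ∈ A) (h : PDiv k x) : ∃ y ∈ A, k • y = x := by
  obtain ⟨y, rfl⟩ := h
  exact ⟨y, hA.mem hG hk hx, rfl⟩

end

end Pool.Agent.MP_d611d8_al
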