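import Mathlib
import Pool.Agent.MP_d611d8_al.Heights

/-!
The finite witness lemma for finite direct sums of rank one groups.
-/

namespace Pool.Agent.MP_d611d8_al

open Set

section RankOne

/-- divisibility in a subgroup of `ℚ` is governed by the `p`-adic norm -/
lemma pdiv_of_padicNorm_le {R : AddSubgroup ℚ} {p : ℕ} [hp : Fact p.Prime] {n : ℕ} {r s : R}
    (hrs : padicNorm p (r : ℚ) ≤ padicNorm p (s : ℚ)) (hs : PDiv (p ^ n) s) : PDiv (p ^ n) r := by
  by_cases hs0 : (s : ℚ) = 0
  · have hr0 : (r : ℚ) = 0 := by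
      rw [hs0, padicNorm.zero] at hrs
      exact padicNorm.zero_of_padicNorm_eq_zero (le_antisymm hrs (padicNorm.nonneg _))
    have : r = 0 := Subtype.ext hr0
    rw [this]
    exact PDiv.zero _
  -- write r = (a / b) s
  set q : ℚ := (r : ℚ) / s with hq
  have hqr : (r : ℚ) = q * s := by
    rw [hq]
    field_simp
  have hqn : padicNorm p q ≤ 1 := by
    have hspos : 0 < padicNorm p (s : ℚ) :=
      lt_of_le_of_ne (padicNorm.nonneg _) (Ne.symm (padicNorm.nonzero hs0))
    rw [hqr, padicNorm.mul] at hrs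
    exact le_of_mul_le_mul_right (by simpa using hrs) hspos
  have hden : ¬ p ∣ q.den := by
    intro hd
    have hnum : ¬ (p : ℤ) ∣ q.num := by
      intro hn
      have h1 : p ∣ q.num.natAbs := Int.natCast_dvd.1 hn
      have := Nat.dvd_gcd h1 hd
      rw [q.reduced] at this
      exact hp.out.one_lt.ne' (Nat.dvd_one.1 this)
    have h1 : padicNorm p (q.num : ℚ) = 1 := (padicNorm.int_eq_one_iff _).2 hnum
    have h2 : padicNorm p (q.den : ℚ) < 1 := by
      rw [padicNorm.nat_lt_one_iff]
      exact hd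
    have h3 : (q.num : ℚ) = q * q.den := (Rat.mul_den_eq_num q).symm
    rw [h3, padicNorm.mul] at h1
    have h4 : padicNorm p q * padicNorm p (q.den : ℚ) < 1 := by
      calc padicNorm p q * padicNorm p (q.den : ℚ) ≤ 1 * padicNorm p (q.den : ℚ) :=
            mul_le_mul_of_nonneg_right hqn (padicNorm.nonneg _)
        _ < 1 := by simpa using h2
    exact absurd h1 h4.ne
  have hmul : q.den • r = q.num • s := by
    apply Subtype.ext
    push_cast
    rw [hqr]
    have h3 : (q.num : ℚ) = q * q.den := (Rat.mul_den_eq_num q).symm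
    rw [nsmul_eq_mul, zsmul_eq_mul, h3]
    ring
  apply PDiv.of_not_dvd hp.out hden
  rw [hmul]
  exact hs.zsmul _

lemma padicNorm_lt_of_pdiv {R : AddSubgroup ℚ} {p : ℕ} [hp : Fact p.Prime] {n : ℕ} {r s : R}
    (hs : ¬ PDiv (p ^ n) s) (hr : PDiv (p ^ n) r) :
    padicNorm p (r : ℚ) < padicNorm p (s : ℚ) := by
  by_contra hcon
  exact hs (pdiv_of_padicNorm_le (not_lt.1 hcon) hr)

lemma padicNorm_prime_pow {p : ℕ} [hp : Fact p.Prime] (N : ℕ) :
    padicNorm p ((p ^ N : ℕ) : ℚ) = ((p : ℚ) ^ N)⁻¹ := by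
  induction N with
  | zero => simp
  | succ N ih =>
    rw [pow_succ, Nat.cast_mul, padicNorm.mul, ih, padicNorm.padicNorm_p_of_prime, pow_succ,
      mul_inv]

/-- a nonzero rational has norm one at almost all primes -/
lemma finite_padicNorm_ne_one {q : ℚ} (hq : q ≠ 0) :
    {p : ℕ | p.Prime ∧ padicNorm p q ≠ 1}.Finite := by
  have hnum : q.num.natAbs ≠ 0 := by
    rw [Int.natAbs_ne_zero]
    exact Rat.num_ne_zero.2 hq
  refine ((Nat.primeFactors q.num.natAbs ∪ Nat.primeFactors q.den).finite_toSet).subset ?_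
  rintro p ⟨hp, hne⟩
  have : Fact p.Prime := ⟨hp⟩
  by_contra hcon
  simp only [Finset.coe_union, mem_union, Finset.mem_coe, Nat.mem_primeFactors, not_or,
    not_and_or] at hcon
  obtain ⟨h1, h2⟩ := hcon
  have h1' : ¬ p ∣ q.num.natAbs := by
    rcases h1 with h | h | h
    · exact absurd hp h
    · exact h
    · exact absurd hnum h
  have h2' : ¬ p ∣ q.den := by
    rcases h2 with h | h | h
    · exact absurd hp h
    · exact h
    · exact absurd q.den_nz h
  apply hne
  have e1 : padicNorm p (q.num : ℚ) = 1 := by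
    rw [padicNorm.int_eq_one_iff]
    intro h
    exact h1' (Int.natCast_dvd.1 h)
  have e2 : padicNorm p (q.den : ℚ) = 1 := (padicNorm.nat_eq_one_iff _).2 h2'
  have h3 : (q.num : ℚ) = q * q.den := (Rat.mul_den_eq_num q).symm
  rw [h3, padicNorm.mul, e2, mul_one] at e1
  exact e1

end RankOne

section CD

variable {ι : Type*} {R : ι → AddSubgroup ℚ}

lemma pdiv_pi_iff {k : ℕ} {x : (i : ι) → R i} : PDiv k x ↔ ∀ i, PDiv k (x i) := by
  constructor
  · rintro ⟨y, rfl⟩ i
    exact ⟨y i, rfl⟩
  · intro h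
    choose y hy using h
    exact ⟨y, funext hy⟩

/-- coordinates -/
def coe' (x : (i : ι) → R i) : ι → ℚ := fun i => (x i : ℚ)

/-- `W` is a finite set of witnesses for `g` over `E`. -/
def IsWitness {G : Type*} [AddCommGroup G] (W : Set (ℕ × G)) (g : G) (E : AddSubgroup G) : Prop :=
  W.Finite ∧ (∀ w ∈ W, w.2 ∈ E) ∧
    ∀ p : ℕ, p.Prime → ∀ n : ℕ, (∃ y ∈ E, PDiv (p ^ n) (g - y)) →
      ∃ w ∈ W, ¬ p ∣ w.1 ∧ PDiv (p ^ n) (w.1 • g - w.2)

/-- the index set `I` is solvable: some multiple of `g` agrees on `I` with an element of `E` -/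
def Solvable (E : AddSubgroup ((i : ι) → R i)) (g : (i : ι) → R i) (I : Set ι) : Prop :=
  ∃ m : ℕ, m ≠ 0 ∧ ∃ y ∈ E, ∀ i ∈ I, m • g i = y i

lemma exists_multiple (E : AddSubgroup ((i : ι) → R i)) {u : ι → ℚ}
    (hu : u ∈ Submodule.span ℚ (coe' '' (E : Set ((i : ι) → R i)))) :
    ∃ m : ℕ, m ≠ 0 ∧ ∃ y ∈ E, m • u = coe' y := by
  induction hu using Submodule.span_induction with
  | mem x h =>
    obtain ⟨y, hy, rfl⟩ := h
    exact ⟨1, one_ne_zero, y, hy, one_smul _ _⟩
  | zero => exact ⟨1, one_ne_zero, 0, zero_mem _, by ext i; simp [coe']⟩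
  | add x y _ _ hx hy =>
    obtain ⟨m, hm, a, ha, hma⟩ := hx
    obtain ⟨n, hn, b, hb, hnb⟩ := hy
    refine ⟨m * n, mul_ne_zero hm hn, n • a + m • b, add_mem (nsmul_mem ha n) (nsmul_mem hb m), ?_⟩
    have e1 : (m * n) • x = n • coe' a := by rw [mul_comm, mul_smul, hma]
    have e2 : (m * n) • y = m • coe' b := by rw [mul_smul, hnb]
    rw [smul_add, e1, e2]
    ext i
    simp [coe']
  | smul q x _ hx =>
    obtain ⟨m, hm, a, ha, hma⟩ := hx
    refine ⟨q.den * m, mul_ne_zero q.den_nz hm, q.num • a, zsmul_mem ha _, ?_⟩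
    have h3 : (q.num : ℚ) = q * q.den := (Rat.mul_den_eq_num q).symm
    have hma' : ∀ i, (m : ℚ) * x i = (a i : ℚ) := fun i => by
      have := congrFun hma i
      simpa [coe'] using this
    ext i
    have := hma' i
    simp only [coe', Pi.smul_apply, AddSubgroup.coe_zsmul, nsmul_eq_mul, zsmul_eq_mul, h3,
      smul_eq_mul, ← this]
    push_cast
    ring

lemma solvable_or_certificate [Fintype ι] (E : AddSubgroup ((i : ι) → R i))
    (g : (i : ι) → R i) (I : Set ι) :
    Solvable E g I ∨ ∃ l : ι → ℚ, (∀ i ∉ I, l i = 0) ∧ ∃ L : ℚ, L ≠ 0 ∧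
      ∀ y ∈ E, ∑ i, l i * ((g - y) i : ℚ) = L := by
  classical
  set U : Submodule ℚ (ι → ℚ) := Submodule.span ℚ (coe' '' (E : Set ((i : ι) → R i))) with hU
  set Z : Submodule ℚ (ι → ℚ) :=
    { carrier := {x | ∀ i ∈ I, x i = 0}
      zero_mem' := fun i _ => rfl
      add_mem' := fun {a b} ha hb i hi => by simp [ha i hi, hb i hi]
      smul_mem' := fun c x hx i hi => by simp [hx i hi] } with hZ
  by_cases hg : coe' g ∈ U ⊔ Z
  · left
    obtain ⟨u, hu, z, hz, huz⟩ := Submodule.mem_sup.1 hg
    obtain ⟨m, hm, y, hy, hmy⟩ := exists_multiple E hu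
    refine ⟨m, hm, y, hy, fun i hi => ?_⟩
    apply Subtype.ext
    have h1 := congrFun huz i
    have h2 := congrFun hmy i
    have h3 : z i = 0 := hz i hi
    simp only [Pi.add_apply, h3, add_zero, coe'] at h1
    simp only [Pi.smul_apply, coe'] at h2
    rw [AddSubgroup.coe_nsmul, ← h1, h2]
  · right
    obtain ⟨f, hf, hker⟩ := Submodule.exists_le_ker_of_notMem hg
    have hfsum : ∀ x : ι → ℚ, f x = ∑ i, f (Pi.single i 1) * x i := by
      intro x
      have hx : x = ∑ i, x i • (Pi.single i (1 : ℚ) : ι → ℚ) := by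
        ext j
        simp [Finset.sum_apply, Pi.single_apply]
      conv_lhs => rw [hx]
      rw [map_sum]
      refine Finset.sum_congr rfl fun i _ => ?_
      rw [map_smul, smul_eq_mul, mul_comm]
    refine ⟨fun i => f (Pi.single i 1), ?_, f (coe' g), hf, ?_⟩
    · intro i hi
      have : (Pi.single i (1 : ℚ) : ι → ℚ) ∈ Z := by
        intro j hj
        have : j ≠ i := fun h => hi (h ▸ hj)
        simp [this]
      exact hker (Submodule.mem_sup_right this)
    · intro y hy
      have hy0 : f (coe' y) = 0 := by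
        have : coe' y ∈ U := Submodule.subset_span ⟨y, hy, rfl⟩
        exact hker (Submodule.mem_sup_left this)
      have hgy : f (coe' (g - y)) = f (coe' g) := by
        have : coe' (g - y) = coe' g - coe' y := by
          ext i
          simp [coe']
        rw [this, map_sub, hy0, sub_zero]
      rw [← hgy, hfsum]
      rfl

lemma torsionFree_pi (R : ι → AddSubgroup ℚ) {n : ℕ} (hn : n ≠ 0) {x : (i : ι) → R i}
    (h : n • x = 0) : x = 0 := by
  funext i
  have h1 := congrFun h i
  have h2 : (n : ℚ) * (x i : ℚ) = 0 := by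
    have := congrArg Subtype.val h1
    simpa using this
  rcases mul_eq_zero.1 h2 with h3 | h3
  · exact absurd (by exact_mod_cast h3) hn
  · exact Subtype.ext h3

/-- the case of one prime -/
lemma exists_witness_prime [Fintype ι] (E : AddSubgroup ((i : ι) → R i))
    (hE : ∀ (n : ℕ) (x : (i : ι) → R i), n ≠ 0 → n • x ∈ E → x ∈ E) (g : (i : ι) → R i)
    {p : ℕ} (hp : p.Prime) :
    ∃ W : Set (ℕ × ((i : ι) → R i)), W.Finite ∧ (∀ w ∈ W, w.2 ∈ E) ∧
      ∀ n : ℕ, (∃ y ∈ E, PDiv (p ^ n) (g - y)) →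
        ∃ w ∈ W, ¬ p ∣ w.1 ∧ PDiv (p ^ n) (w.1 • g - w.2) := by
  classical
  have hfact : Fact p.Prime := ⟨hp⟩
  by_cases hall : ∀ n : ℕ, ∃ y ∈ E, PDiv (p ^ n) (g - y)
  swap
  · -- bounded case
    push Not at hall
    obtain ⟨K, hK⟩ := hall
    choose! y hy using fun (n : ℕ) (h : ∃ y ∈ E, PDiv (p ^ n) (g - y)) => h
    refine ⟨(fun k => ((1 : ℕ), y k)) '' {k | k < K ∧ ∃ y ∈ E, PDiv (p ^ k) (g - y)}, ?_, ?_, ?_⟩
    · exact ((Set.finite_lt_nat K).subset fun k hk => hk.1).image _
    · rintro w ⟨k, ⟨-, hk⟩, rfl⟩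
      exact (hy k hk).1
    · intro n hn
      have hnK : n < K := by
        by_contra hcon
        obtain ⟨z, hz, hz'⟩ := hn
        exact hK z hz (PDiv.of_pow_le (not_lt.1 hcon) hz')
      refine ⟨(1, y n), ⟨n, ⟨hnK, hn⟩, rfl⟩, ?_, ?_⟩
      · simpa using hp.one_lt.ne'
      · simpa using (hy n hn).2
  · -- unbounded case
    -- reference elements
    have hρ : ∀ i, ∃ ρ : R i, R i ≠ ⊥ → ρ ≠ 0 := by
      intro i
      by_cases h : R i = ⊥
      · exact ⟨0, fun h' => absurd h h'⟩
      · obtain ⟨x, hx⟩ := AddSubgroup.ne_bot_iff_exists_ne_zero.1 h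
        exact ⟨x, fun _ => hx⟩
    choose ρ hρ using hρ
    set I : Set ι := {i | ∃ k : ℕ, ¬ PDiv (p ^ k) (ρ i)} with hI
    -- coordinates outside `I` are infinitely divisible
    have hout : ∀ i ∉ I, ∀ (x : R i) (k : ℕ), PDiv (p ^ k) x := by
      intro i hi x k
      have hi' : ∀ k : ℕ, PDiv (p ^ k) (ρ i) := by
        intro k
        by_contra hcon
        exact hi ⟨k, hcon⟩
      by_cases hb : R i = ⊥
      · have : x = 0 := Subtype.ext (by simpa [hb] using x.2)
        rw [this]
        exact PDiv.zero _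
      · have hρ0 : ((ρ i : R i) : ℚ) ≠ 0 := fun h0 => hρ i hb (Subtype.ext h0)
        have hpos : 0 < padicNorm p ((ρ i : R i) : ℚ) :=
          lt_of_le_of_ne (padicNorm.nonneg _) (Ne.symm (padicNorm.nonzero hρ0))
        obtain ⟨N, hN⟩ := exists_nat_gt (padicNorm p (x : ℚ) / padicNorm p ((ρ i : R i) : ℚ))
        obtain ⟨s, hs⟩ := hi' N
        have e1 : ((p ^ N : ℕ) : ℚ) * (s : ℚ) = (ρ i : ℚ) := by
          have := congrArg Subtype.val hs
          simpa using this
        have hpN : ((p ^ N : ℕ) : ℚ) ≠ 0 := by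
          exact_mod_cast (pow_pos hp.pos N).ne'
        have hsdiv : PDiv (p ^ k) s := by
          obtain ⟨t, ht⟩ := hi' (k + N)
          refine ⟨t, ?_⟩
          apply Subtype.ext
          have e2 : ((p ^ (k + N) : ℕ) : ℚ) * (t : ℚ) = (ρ i : ℚ) := by
            have := congrArg Subtype.val ht
            simpa using this
          have e3 : ((p ^ N : ℕ) : ℚ) * (((p ^ k : ℕ) : ℚ) * (t : ℚ)) =
              ((p ^ N : ℕ) : ℚ) * (s : ℚ) := by
            rw [e1, ← e2]
            push_cast
            ring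
          have e4 := mul_left_cancel₀ hpN e3
          simpa using e4
        refine pdiv_of_padicNorm_le (s := s) ?_ hsdiv
        have e2 : ((p : ℚ) ^ N)⁻¹ * padicNorm p (s : ℚ) = padicNorm p ((ρ i : R i) : ℚ) := by
          rw [← padicNorm_prime_pow, ← padicNorm.mul, e1]
        have hpN' : (0 : ℚ) < (p : ℚ) ^ N := by
          have : (0 : ℚ) < (p : ℚ) := by exact_mod_cast hp.pos
          positivity
        have e3 : padicNorm p (s : ℚ) = (p : ℚ) ^ N * padicNorm p ((ρ i : R i) : ℚ) := by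
          rw [← e2]
          field_simp
        have e4 : (N : ℚ) ≤ (p : ℚ) ^ N := by
          exact_mod_cast (Nat.lt_pow_self hp.one_lt).le
        rw [e3]
        rw [div_lt_iff₀ hpos] at hN
        exact hN.le.trans (mul_le_mul_of_nonneg_right e4 hpos.le)
    rcases solvable_or_certificate E g I with ⟨m, hm, y, hy, hsol⟩ | ⟨l, hl, L, hL, hcert⟩
    · -- solvable
      obtain ⟨a, m', hm', hmm⟩ := Nat.exists_eq_pow_mul_and_not_dvd hm p hp.one_lt.ne'
      have hdiv : ∀ k, PDiv (p ^ k) (m • g - y) := by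
        intro k
        rw [pdiv_pi_iff]
        intro i
        by_cases hi : i ∈ I
        · have : (m • g - y) i = 0 := by
            rw [Pi.sub_apply, Pi.smul_apply, hsol i hi, sub_self]
          rw [this]
          exact PDiv.zero _
        · exact hout i hi _ k
      obtain ⟨z, hz⟩ := hdiv a
      have hpa : p ^ a ≠ 0 := (pow_pos hp.pos a).ne'
      have hy' : m' • g - z ∈ E := by
        apply hE (p ^ a) _ hpa
        rw [nsmul_sub, hz, smul_smul, ← hmm, sub_sub_cancel]
        exact hy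
      refine ⟨{(m', m' • g - z)}, Set.finite_singleton _, ?_, ?_⟩
      · rintro w rfl
        exact hy'
      · intro n _
        refine ⟨_, rfl, hm', ?_⟩
        rw [sub_sub_cancel]
        obtain ⟨t, ht⟩ := hdiv (a + n)
        refine ⟨t, ?_⟩
        have h0 : p ^ a • (p ^ n • t - z) = 0 := by
          rw [nsmul_sub, hz, smul_smul, ← pow_add, ht, sub_self]
        exact sub_eq_zero.1 (torsionFree_pi R hpa h0)
    · -- certificate
      exfalso
      have he : ∀ i, ∃ e : ℕ, i ∈ I → ¬ PDiv (p ^ e) (ρ i) := by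
        intro i
        by_cases hi : i ∈ I
        · obtain ⟨e, he⟩ := hi
          exact ⟨e, fun _ => he⟩
        · exact ⟨0, fun h => absurd h hi⟩
      choose e he using he
      have hLpos : 0 < padicNorm p L :=
        lt_of_le_of_ne (padicNorm.nonneg _) (Ne.symm (padicNorm.nonzero hL))
      set T : ℚ := ∑ i, padicNorm p (l i) * padicNorm p ((ρ i : R i) : ℚ) * (p : ℚ) ^ (e i) /
        padicNorm p L with hT
      have hterm : ∀ i, 0 ≤ padicNorm p (l i) * padicNorm p ((ρ i : R i) : ℚ) * (p : ℚ) ^ (e i) /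
          padicNorm p L := by
        intro i
        have h1 : 0 ≤ padicNorm p (l i) := padicNorm.nonneg _
        have h2 : 0 ≤ padicNorm p ((ρ i : R i) : ℚ) := padicNorm.nonneg _
        positivity
      obtain ⟨K, hK⟩ := exists_nat_gt T
      obtain ⟨y, hy, hyd⟩ := hall (K + ∑ i, e i)
      have hsum := hcert y hy
      have hlt : padicNorm p (∑ i, l i * ((g - y) i : ℚ)) < padicNorm p L := by
        refine padicNorm.sum_lt' (fun i _ => ?_) hLpos
        by_cases hi : i ∈ I
        · rw [pdiv_pi_iff] at hyd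
          obtain ⟨r, hr⟩ := hyd i
          have hei : e i ≤ K + ∑ i, e i :=
            (Finset.single_le_sum (f := e) (fun i _ => Nat.zero_le _) (Finset.mem_univ i)).trans
              (Nat.le_add_left _ _)
          set M := K + ∑ i, e i with hM
          have hKM : K ≤ M - e i + e i := by omega
          have h1 : padicNorm p ((p ^ (e i) • r : R i) : ℚ) < padicNorm p ((ρ i : R i) : ℚ) :=
            padicNorm_lt_of_pdiv (he i hi) ⟨r, rfl⟩
          have h2 : ((g - y) i : ℚ) = ((p ^ (M - e i) : ℕ) : ℚ) * ((p ^ (e i) • r : R i) : ℚ) := by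
            rw [← hr]
            simp only [AddSubgroup.coe_nsmul, nsmul_eq_mul]
            rw [← mul_assoc]
            congr 1
            rw [← Nat.cast_mul, ← pow_add]
            congr 2
            omega
          have h3 : padicNorm p ((g - y) i : ℚ) =
              ((p : ℚ) ^ (M - e i))⁻¹ * padicNorm p ((p ^ (e i) • r : R i) : ℚ) := by
            rw [h2, padicNorm.mul, padicNorm_prime_pow]
          have hppos : (0 : ℚ) < (p : ℚ) := by exact_mod_cast hp.pos
          have h4 : padicNorm p (l i) * padicNorm p ((ρ i : R i) : ℚ) * (p : ℚ) ^ (e i) <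
              (p : ℚ) ^ M * padicNorm p L := by
            have h5 : padicNorm p (l i) * padicNorm p ((ρ i : R i) : ℚ) * (p : ℚ) ^ (e i) /
                padicNorm p L ≤ T :=
              Finset.single_le_sum (f := fun i => padicNorm p (l i) *
                padicNorm p ((ρ i : R i) : ℚ) * (p : ℚ) ^ (e i) / padicNorm p L)
                (fun i _ => hterm i) (Finset.mem_univ i)
            have h6 : padicNorm p (l i) * padicNorm p ((ρ i : R i) : ℚ) * (p : ℚ) ^ (e i) /
                padicNorm p L < (p : ℚ) ^ M := by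
              refine lt_of_le_of_lt h5 (hK.trans_le ?_)
              have h7 : K ≤ p ^ M := (le_trans (by omega : K ≤ M) (Nat.lt_pow_self hp.one_lt).le)
              exact_mod_cast h7
            rwa [div_lt_iff₀ hLpos] at h6
          rw [padicNorm.mul, h3]
          have hpM : (p : ℚ) ^ M = (p : ℚ) ^ (M - e i) * (p : ℚ) ^ (e i) := by
            rw [← pow_add]
            congr 1
            omega
          have h8 : padicNorm p (l i) * padicNorm p ((ρ i : R i) : ℚ) <
              (p : ℚ) ^ (M - e i) * padicNorm p L := by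
            rw [hpM] at h4
            have h9 : (0 : ℚ) < (p : ℚ) ^ (e i) := by positivity
            nlinarith
          have h10 : (0 : ℚ) < (p : ℚ) ^ (M - e i) := by positivity
          rw [← mul_assoc, mul_comm (padicNorm p (l i)), mul_assoc, inv_mul_lt_iff₀ h10]
          exact lt_of_le_of_lt (mul_le_mul_of_nonneg_left h1.le (padicNorm.nonneg _)) h8
        · rw [hl i hi, zero_mul, padicNorm.zero]
          exact hLpos
      rw [hsum] at hlt
      exact lt_irrefl _ hlt

/-- primes that are bad for `q` -/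
def badOf (q : ℚ) : Set ℕ := {p | p.Prime ∧ q ≠ 0 ∧ padicNorm p q ≠ 1}

lemma badOf_finite (q : ℚ) : (badOf q).Finite := by
  rcases eq_or_ne q 0 with rfl | hq
  · refine (Set.finite_empty).subset ?_
    rintro p ⟨-, h, -⟩
    exact h rfl
  · exact (finite_padicNorm_ne_one hq).subset fun p hp => ⟨hp.1, hp.2.2⟩

lemma norm_le_of_not_bad {q : ℚ} {p : ℕ} (hp : p.Prime) (h : p ∉ badOf q) :
    padicNorm p q ≤ 1 := by
  rcases eq_or_ne q 0 with rfl | hq
  · rw [padicNorm.zero]
    exact zero_le_one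
  · by_contra hcon
    exact h ⟨hp, hq, fun h1 => hcon h1.le⟩

lemma norm_eq_of_not_bad {q : ℚ} (hq : q ≠ 0) {p : ℕ} (hp : p.Prime) (h : p ∉ badOf q) :
    padicNorm p q = 1 := by
  by_contra hcon
  exact h ⟨hp, hq, hcon⟩

/-- **Finite witness lemma** for finite direct sums of rank one groups. -/
lemma exists_witness_cd [Fintype ι] (E : AddSubgroup ((i : ι) → R i))
    (hE : ∀ (n : ℕ) (x : (i : ι) → R i), n ≠ 0 → n • x ∈ E → x ∈ E) (g : (i : ι) → R i) :
    ∃ W, IsWitness W g E := by
  classical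
  have hρ : ∀ i, ∃ ρ : R i, R i ≠ ⊥ → ρ ≠ 0 := by
    intro i
    by_cases h : R i = ⊥
    · exact ⟨0, fun h' => absurd h h'⟩
    · obtain ⟨x, hx⟩ := AddSubgroup.ne_bot_iff_exists_ne_zero.1 h
      exact ⟨x, fun _ => hx⟩
  choose ρ hρ using hρ
  choose! m hm y hy hsol using fun (I : Set ι) (h : Solvable E g I) => h
  have hcert : ∀ I : Set ι, ∃ (l : ι → ℚ) (L : ℚ), ¬ Solvable E g I →
      (∀ i ∉ I, l i = 0) ∧ L ≠ 0 ∧ ∀ y ∈ E, ∑ i, l i * ((g - y) i : ℚ) = L := by
    intro I
    rcases solvable_or_certificate E g I with h | ⟨l, hl, L, hL, hc⟩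
    · exact ⟨0, 0, fun h' => absurd h h'⟩
    · exact ⟨l, L, fun _ => ⟨hl, hL, hc⟩⟩
  choose l L hlL using hcert
  -- the finite set of bad primes
  set bad : Set ℕ := ⋃ I : Set ι, (badOf (m I : ℚ) ∪ badOf (L I) ∪
    ⋃ i : ι, (badOf (((m I • g - y I) i : ℚ) / (ρ i : ℚ)) ∪ badOf (l I i * (ρ i : ℚ)))) with hbad
  have hbadfin : bad.Finite := by
    refine Set.finite_iUnion fun I => ?_
    refine ((badOf_finite _).union (badOf_finite _)).union ?_
    exact Set.finite_iUnion fun i => (badOf_finite _).union (badOf_finite _)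
  choose! Wp hWfin hWE hWp using fun (p : ℕ) (hp : p.Prime) => exists_witness_prime E hE g hp
  refine ⟨((fun I => (m I, y I)) '' {I : Set ι | Solvable E g I}) ∪
    ⋃ p ∈ {p ∈ bad | p.Prime}, Wp p, ?_, ?_, ?_⟩
  · refine (Set.Finite.image _ (Set.toFinite _)).union ?_
    exact (hbadfin.subset fun p hp => hp.1).biUnion fun p hp => hWfin p hp.2
  · rintro w (⟨I, hI, rfl⟩ | hw)
    · exact hy I hI
    · simp only [mem_iUnion] at hw
      obtain ⟨p, hp, hw⟩ := hw
      exact hWE p hp.2 w hw
  · intro p hp n hn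
    by_cases hpb : p ∈ bad
    · obtain ⟨w, hw, h1, h2⟩ := hWp p hp n hn
      refine ⟨w, Or.inr ?_, h1, h2⟩
      simp only [mem_iUnion]
      exact ⟨p, ⟨hpb, hp⟩, hw⟩
    · have hfact : Fact p.Prime := ⟨hp⟩
      obtain ⟨z, hz, hzd⟩ := hn
      set I : Set ι := {i | ¬ PDiv (p ^ n) (ρ i)} with hI
      have hnb1 : p ∉ badOf (m I : ℚ) := fun h =>
        hpb (mem_iUnion.2 ⟨I, Or.inl (Or.inl h)⟩)
      have hnb2 : p ∉ badOf (L I) := fun h => hpb (mem_iUnion.2 ⟨I, Or.inl (Or.inr h)⟩)
      have hnb3 : ∀ i, p ∉ badOf (((m I • g - y I) i : ℚ) / (ρ i : ℚ)) := fun i h =>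
        hpb (mem_iUnion.2 ⟨I, Or.inr (mem_iUnion.2 ⟨i, Or.inl h⟩)⟩)
      have hnb4 : ∀ i, p ∉ badOf (l I i * (ρ i : ℚ)) := fun i h =>
        hpb (mem_iUnion.2 ⟨I, Or.inr (mem_iUnion.2 ⟨i, Or.inr h⟩)⟩)
      rw [pdiv_pi_iff] at hzd
      by_cases hS : Solvable E g I
      · refine ⟨(m I, y I), Or.inl ⟨I, hS, rfl⟩, ?_, ?_⟩
        · have h1 : padicNorm p (m I : ℚ) = 1 :=
            norm_eq_of_not_bad (by exact_mod_cast hm I hS) hp hnb1
          exact (padicNorm.nat_eq_one_iff _).1 h1
        · rw [pdiv_pi_iff]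
          intro i
          by_cases hi : i ∈ I
          · have : (m I • g - y I) i = 0 := by
              rw [Pi.sub_apply, Pi.smul_apply, hsol I hS i hi, sub_self]
            change PDiv (p ^ n) ((m I • g - y I) i)
            rw [this]
            exact PDiv.zero _
          · have hi' : PDiv (p ^ n) (ρ i) := by
              by_contra hcon
              exact hi hcon
            by_cases hb : R i = ⊥
            · have : (m I • g - y I) i = 0 :=
                Subtype.ext (by simpa [hb] using ((m I • g - y I) i).2)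
              change PDiv (p ^ n) ((m I • g - y I) i)
              rw [this]
              exact PDiv.zero _
            · have hρ0 : ((ρ i : R i) : ℚ) ≠ 0 := fun h0 => hρ i hb (Subtype.ext h0)
              have hρpos : 0 < padicNorm p ((ρ i : R i) : ℚ) :=
                lt_of_le_of_ne (padicNorm.nonneg _) (Ne.symm (padicNorm.nonzero hρ0))
              refine pdiv_of_padicNorm_le (s := ρ i) ?_ hi'
              have h1 := norm_le_of_not_bad hp (hnb3 i)
              rw [padicNorm.div, div_le_one hρpos] at h1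
              exact h1
      · exfalso
        obtain ⟨hl, hL, hc⟩ := hlL I hS
        have hsum := hc z hz
        have hlt : padicNorm p (∑ i, l I i * ((g - z) i : ℚ)) < 1 := by
          refine padicNorm.sum_lt' (fun i _ => ?_) zero_lt_one
          by_cases hi : i ∈ I
          · have h1 : padicNorm p ((g - z) i : ℚ) < padicNorm p ((ρ i : R i) : ℚ) :=
              padicNorm_lt_of_pdiv hi (hzd i)
            have h2 := norm_le_of_not_bad hp (hnb4 i)
            rw [padicNorm.mul] at h2 ⊢
            rcases eq_or_lt_of_le (padicNorm.nonneg (p := p) (l I i)) with h3 | h3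
            · rw [← h3, zero_mul]
              exact zero_lt_one
            · exact lt_of_lt_of_le (mul_lt_mul_of_pos_left h1 h3) h2
          · rw [hl i hi, zero_mul, padicNorm.zero]
            exact zero_lt_one
        rw [hsum, norm_eq_of_not_bad hL hp hnb2] at hlt
        exact lt_irrefl _ hlt

end CD

end Pool.Agent.MP_d611d8_al
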