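import Mathlib
import Pool.Agent.MP_d611d8_al.Filtered
import Pool.Agent.MP_d611d8_al.RankOne

/-!
The finite witness lemma for finite sums of Butler groups.
-/

namespace Pool.Agent.MP_d611d8_al

open Set

section

variable {G : Type*} [AddCommGroup G] {I : Type*} {B : I → AddSubgroup G}

lemma mem_gen_finset_iff_sum (T : Finset I) {x : G} (hx : x ∈ gen B (T : Set I)) :
    ∃ b : (t : {t // t ∈ T}) → B t.1, ∑ t, (b t : G) = x := by
  classical
  induction T using Finset.induction_on generalizing x with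
  | empty =>
    rw [Finset.coe_empty, gen_empty] at hx
    refine ⟨fun t => absurd t.2 (Finset.notMem_empty _), ?_⟩
    have : x = 0 := by simpa using hx
    rw [this]
    exact Finset.sum_eq_zero fun t _ => absurd t.2 (Finset.notMem_empty _)
  | insert a s ha ih =>
    rw [Finset.coe_insert, gen_insert] at hx
    obtain ⟨y, hy, z, hz, rfl⟩ := AddSubgroup.mem_sup.1 hx
    obtain ⟨b, rfl⟩ := ih hz
    let b' : (t : {t // t ∈ insert a s}) → B t.1 := fun t =>
      if h : t.1 = a then ⟨y, by rw [h]; exact hy⟩ else b ⟨t.1, Finset.mem_of_mem_insert_of_ne t.2 h⟩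
    refine ⟨b', ?_⟩
    have h1 : ∑ t : {t // t ∈ insert a s}, (b' t : G) =
        ∑ t ∈ insert a s, if h : t ∈ insert a s then (b' ⟨t, h⟩ : G) else 0 := by
      rw [← Finset.sum_coe_sort (insert a s)
        (fun t => if h : t ∈ insert a s then (b' ⟨t, h⟩ : G) else 0)]
      refine Finset.sum_congr rfl fun t _ => ?_
      rw [dif_pos t.2]
    rw [h1, Finset.sum_insert ha]
    congr 1
    · rw [dif_pos (Finset.mem_insert_self a s)]
      simp [b']
    · rw [← Finset.sum_coe_sort s
        (fun t => if h : t ∈ insert a s then (b' ⟨t, h⟩ : G) else 0)]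
      refine Finset.sum_congr rfl fun t _ => ?_
      rw [dif_pos (Finset.mem_insert_of_mem t.2)]
      have hne : t.1 ≠ a := fun h => ha (h ▸ t.2)
      simp [b', hne]

lemma exists_witness_gen (hB : ∀ i, IsFiniteRankButler (B i))
    (T : Finset I) (hT : ∀ (n : ℕ) (x : G), n ≠ 0 → n • x ∈ gen B (T : Set I) →
      x ∈ gen B (T : Set I))
    (E : AddSubgroup G) (hE : ∀ (n : ℕ) (x : G), n ≠ 0 → n • x ∈ E → x ∈ E)
    {g : G} (hg : g ∈ gen B (T : Set I)) :
    ∃ W, IsWitness W g (E ⊓ gen B (T : Set I)) := by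
  classical
  choose n R f hinj hpure using hB
  have htfpi : ∀ i, IsTorsionFreeGroup ((j : Fin (n i)) → R i j) := fun i k x hk hx =>
    torsionFree_pi (R i) hk hx
  -- the big completely decomposable group
  let ι : Type _ := Σ t : {t // t ∈ T}, Fin (n t.1)
  let RR : ι → AddSubgroup ℚ := fun x => R x.1.1 x.2
  let F : ((t : {t // t ∈ T}) → B t.1) →+ ((x : ι) → RR x) :=
    { toFun := fun b x => f x.1.1 (b x.1) x.2
      map_zero' := by
        funext x
        simp
      map_add' := by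
        intro a b
        funext x
        simp }
  let Sg : ((t : {t // t ∈ T}) → B t.1) →+ G :=
    { toFun := fun b => ∑ t, (b t : G)
      map_zero' := by simp
      map_add' := by
        intro a b
        simp [Finset.sum_add_distrib] }
  have hSg : ∀ b, Sg b ∈ gen B (T : Set I) := fun b =>
    sum_mem fun t _ => le_gen (S := (T : Set I)) t.2 (b t).2
  have hFinj : Function.Injective F := by
    intro a b hab
    funext t
    apply hinj t.1
    funext j
    exact congrFun hab ⟨t, j⟩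
  -- purity of the range of `F`
  have hFpure : ∀ (k : ℕ) (d : (x : ι) → RR x), k ≠ 0 → ∀ b, F b = k • d → ∃ b', F b' = d ∧
      k • b' = b := by
    intro k d hk b hb
    have h1 : ∀ t : {t // t ∈ T}, ∃ b' : B t.1, f t.1 b' = fun j => d ⟨t, j⟩ := by
      intro t
      have h2 : k • (fun j => d ⟨t, j⟩ : (j : Fin (n t.1)) → R t.1 j) ∈ (f t.1).range := by
        refine ⟨b t, ?_⟩
        funext j
        exact congrFun hb ⟨t, j⟩
      exact IsPureSubgroup.mem (htfpi t.1) (hpure t.1) hk h2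
    choose b' hb' using h1
    have hFb' : F b' = d := by
      funext x
      obtain ⟨t, j⟩ := x
      exact congrFun (hb' t) j
    refine ⟨b', hFb', ?_⟩
    apply hFinj
    rw [map_nsmul, hFb', hb]
  let EE : AddSubgroup ((x : ι) → RR x) := (E.comap Sg).map F
  have hEE : ∀ (k : ℕ) (d : (x : ι) → RR x), k ≠ 0 → k • d ∈ EE → d ∈ EE := by
    intro k d hk hd
    obtain ⟨b, hbE, hb⟩ := hd
    obtain ⟨b', hb'd, hb'⟩ := hFpure k d hk b hb
    refine ⟨b', ?_, hb'd⟩
    change Sg b' ∈ E
    apply hE k _ hk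
    rw [← map_nsmul, hb']
    exact hbE
  obtain ⟨gg, hgg⟩ := mem_gen_finset_iff_sum T hg
  have hSgg : Sg gg = g := hgg
  obtain ⟨W, hWfin, hWE, hW⟩ := exists_witness_cd EE hEE (F gg)
  choose! pre hpreE hpreF using fun (d : (x : ι) → RR x) (hd : d ∈ EE) => hd
  refine ⟨(fun w => (w.1, Sg (pre w.2))) '' W, hWfin.image _, ?_, ?_⟩
  · rintro w ⟨w', hw', rfl⟩
    exact ⟨hpreE w'.2 (hWE w' hw'), hSg _⟩
  · intro p hp k hk
    obtain ⟨y, ⟨hyE, hyT⟩, z, hz⟩ := hk
    have hpk : p ^ k ≠ 0 := (pow_pos hp.pos k).ne'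
    have hzT : z ∈ gen B (T : Set I) := by
      apply hT (p ^ k) z hpk
      rw [hz]
      exact sub_mem hg hyT
    obtain ⟨zz, hzz⟩ := mem_gen_finset_iff_sum T hzT
    have hSzz : Sg zz = z := hzz
    have hd : F (gg - p ^ k • zz) ∈ EE := by
      refine ⟨_, ?_, rfl⟩
      change Sg (gg - p ^ k • zz) ∈ E
      rw [map_sub, map_nsmul, hSgg, hSzz, hz, sub_sub_cancel]
      exact hyE
    obtain ⟨w, hw, hpw, e, he⟩ := hW p hp k ⟨_, hd, F zz, by
      rw [map_sub, map_nsmul, sub_sub_cancel]⟩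
    refine ⟨_, ⟨w, hw, rfl⟩, hpw, ?_⟩
    have h1 : F (w.1 • gg - pre w.2) = p ^ k • e := by
      rw [map_sub, map_nsmul, hpreF w.2 (hWE w hw), he]
    obtain ⟨b', hb', hb''⟩ := hFpure (p ^ k) e hpk _ h1
    refine ⟨Sg b', ?_⟩
    rw [← map_nsmul, hb'', map_sub, map_nsmul, hSgg]

end

end Pool.Agent.MP_d611d8_al
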