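import Mathlib
import Pool.Agent.MP_d611d8_al.Distrib
import Pool.Agent.MP_d611d8_al.Witness

/-!
Systems of height conditions and witnesses over closed subgroups.
-/

namespace Pool.Agent.MP_d611d8_al

open Set

/-- height functions -/
abbrev HF : Type := Nat.Primes → ℕ∞

section Gam

variable {G : Type*} [AddCommGroup G]

lemma heightSeq_zero : heightSeq (0 : G) = ⊤ := by
  rw [eq_top_iff, le_heightSeq_iff]
  intro p n _
  exact PDiv.zero _

/-- right-hand sides for which a system of height conditions is solvable -/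
def Gam (G : Type*) [AddCommGroup G] {k : ℕ} (π : Fin k → ℕ × HF) : AddSubgroup (Fin k → G) where
  carrier := {c | ∃ v : G, ∀ j, (π j).2 ≤ heightSeq ((π j).1 • v + c j)}
  zero_mem' := ⟨0, fun j => by simp [heightSeq_zero]⟩
  add_mem' := by
    rintro a b ⟨v, hv⟩ ⟨w, hw⟩
    refine ⟨v + w, fun j => ?_⟩
    have : (π j).1 • (v + w) + (a + b) j = ((π j).1 • v + a j) + ((π j).1 • w + b j) := by
      rw [nsmul_add, Pi.add_apply]
      abel
    rw [this]
    exact (le_inf (hv j) (hw j)).trans inf_le_heightSeq_add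
  neg_mem' := by
    rintro a ⟨v, hv⟩
    refine ⟨-v, fun j => ?_⟩
    have : (π j).1 • (-v) + (-a) j = -((π j).1 • v + a j) := by
      rw [smul_neg, Pi.neg_apply]
      abel
    rw [this, heightSeq_neg]
    exact hv j

lemma mem_sSup_pi {k : ℕ} {𝒩 : Set (AddSubgroup G)} {c : Fin k → G} (hc : ∀ j, c j ∈ sSup 𝒩) :
    c ∈ sSup ((fun N : AddSubgroup G => AddSubgroup.pi Set.univ fun _ : Fin k => N) '' 𝒩) := by
  classical
  have hsingle : ∀ (j : Fin k) (x : G), x ∈ sSup 𝒩 → Pi.single j x ∈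
      sSup ((fun N : AddSubgroup G => AddSubgroup.pi Set.univ fun _ : Fin k => N) '' 𝒩) := by
    intro j x hx
    have hle : sSup 𝒩 ≤
        (sSup ((fun N : AddSubgroup G => AddSubgroup.pi Set.univ fun _ : Fin k => N) '' 𝒩)).comap
          (AddMonoidHom.single (fun _ : Fin k => G) j) := by
      refine sSup_le fun N hN y hy => ?_
      have h1 : (Pi.single j y : Fin k → G) ∈ AddSubgroup.pi Set.univ fun _ : Fin k => N := by
        intro i _
        by_cases hij : i = j
        · subst hij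
          simpa using hy
        · simp [hij]
      exact (le_sSup ⟨N, hN, rfl⟩ : _ ≤ sSup ((fun N : AddSubgroup G =>
        AddSubgroup.pi Set.univ fun _ : Fin k => N) '' 𝒩)) h1
    exact hle hx
  have hsum : c = ∑ j, Pi.single j (c j) := by
    funext i
    simp [Finset.sum_apply]
  rw [hsum]
  exact sum_mem fun j _ => hsingle j _ (hc j)

/-- solvability of a system inside a sum of closed subgroups -/
lemma gam_solve {k : ℕ} {π : Fin k → ℕ × HF} {clo : (Fin k → G) → Set (Fin k → G)}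
    (hclo : ∀ 𝒩 : Set (AddSubgroup (Fin k → G)), (∀ N ∈ 𝒩, ∀ f ∈ N, clo f ⊆ N) →
        Gam G π ⊓ sSup 𝒩 ≤ ⨆ N ∈ 𝒩, Gam G π ⊓ N)
    {wit : (Fin k → G) → G}
    (hwit : ∀ c ∈ Gam G π, ∀ j, (π j).2 ≤ heightSeq ((π j).1 • wit c + c j))
    {𝒩 : Set (AddSubgroup G)}
    (h1 : ∀ N ∈ 𝒩, ∀ c : Fin k → G, (∀ j, c j ∈ N) → ∀ c' ∈ clo c, ∀ j, c' j ∈ N)
    (h2 : ∀ N ∈ 𝒩, ∀ c : Fin k → G, (∀ j, c j ∈ N) → wit c ∈ N)
    {c : Fin k → G} (hc : c ∈ Gam G π) (hcN : ∀ j, c j ∈ sSup 𝒩) :
    ∃ v ∈ sSup 𝒩, ∀ j, (π j).2 ≤ heightSeq ((π j).1 • v + c j) := by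
  classical
  set pw : AddSubgroup G → AddSubgroup (Fin k → G) :=
    fun N => AddSubgroup.pi Set.univ fun _ : Fin k => N with hpw
  have hmem : ∀ (N : AddSubgroup G) (c : Fin k → G), c ∈ pw N ↔ ∀ j, c j ∈ N := by
    intro N c
    simp [hpw, AddSubgroup.mem_pi]
  have h3 := hclo (pw '' 𝒩) (by
    rintro _ ⟨N, hN, rfl⟩ f hf c' hc'
    exact (hmem N c').2 (h1 N hN f ((hmem N f).1 hf) c' hc')) ⟨hc, mem_sSup_pi hcN⟩
  let K : AddSubgroup (Fin k → G) :=
    { carrier := {c | ∃ v ∈ sSup 𝒩, ∀ j, (π j).2 ≤ heightSeq ((π j).1 • v + c j)}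
      zero_mem' := ⟨0, zero_mem _, fun j => by simp [heightSeq_zero]⟩
      add_mem' := by
        rintro a b ⟨v, hv', hv⟩ ⟨w, hw', hw⟩
        refine ⟨v + w, add_mem hv' hw', fun j => ?_⟩
        have : (π j).1 • (v + w) + (a + b) j = ((π j).1 • v + a j) + ((π j).1 • w + b j) := by
          rw [nsmul_add, Pi.add_apply]
          abel
        rw [this]
        exact (le_inf (hv j) (hw j)).trans inf_le_heightSeq_add
      neg_mem' := by
        rintro a ⟨v, hv', hv⟩
        refine ⟨-v, neg_mem hv', fun j => ?_⟩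
        have : (π j).1 • (-v) + (-a) j = -((π j).1 • v + a j) := by
          rw [smul_neg, Pi.neg_apply]
          abel
        rw [this, heightSeq_neg]
        exact hv j }
  have h4 : (⨆ N ∈ pw '' 𝒩, Gam G π ⊓ N) ≤ K := by
    refine iSup₂_le ?_
    rintro _ ⟨N, hN, rfl⟩ c' ⟨hc'1, hc'2⟩
    exact ⟨wit c', le_sSup hN (h2 N hN c' ((hmem N c').1 hc'2)), hwit c' hc'1⟩
  exact h4 h3

end Gam

section Closed

variable {G : Type*} [AddCommGroup G] {I : Type*} [LinearOrder I] [WellFoundedLT I]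
  {B : I → AddSubgroup G} {S S' : Set I}

lemma ClosedSet.inter_closed (h : ClosedSet B S) (h' : ClosedSet B S') :
    ClosedSet B (S ∩ S') := by
  intro i hi
  have h1 := (h.inter_lower (isLowerSet_Iio i)).inter (h'.inter_lower (isLowerSet_Iio i))
  refine (le_inf (h i hi.1) (h' i hi.2)).trans (h1.trans (gen_mono ?_))
  intro j hj
  exact ⟨⟨hj.1.1, hj.2.1⟩, hj.1.2⟩

/-- elements of closed subgroups lie in finite closed pieces -/
lemma ClosedSet.exists_finite_mem (hfin : ∀ i, ∃ T : Set I, T.Finite ∧ ClosedSet B T ∧ i ∈ T)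
    (h : ClosedSet B S) {x : G} (hx : x ∈ gen B S) :
    ∃ T : Finset I, ClosedSet B (T : Set I) ∧ (T : Set I) ⊆ S ∧ x ∈ gen B (T : Set I) := by
  classical
  obtain ⟨F, hF, hxF⟩ := mem_gen_finset hx
  choose c h1 h2 h3 using hfin
  have hfinU : (⋃ i ∈ (F : Set I), (c i ∩ S)).Finite :=
    F.finite_toSet.biUnion fun i _ => (h1 i).inter_of_left S
  refine ⟨hfinU.toFinset, ?_, ?_, ?_⟩
  · rw [Set.Finite.coe_toFinset]
    exact closedSet_biUnion fun i _ => (h2 i).inter_closed h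
  · rw [Set.Finite.coe_toFinset]
    exact iUnion₂_subset fun i _ => inter_subset_right
  · rw [Set.Finite.coe_toFinset]
    refine gen_mono ?_ hxF
    intro i hi
    simp only [mem_iUnion]
    exact ⟨i, hi, h3 i, hF hi⟩

/-- finite witnesses over closed subgroups -/
lemma exists_witness_closed (hB : ∀ i, IsFiniteRankButler (B i)) (htop : gen B univ = ⊤)
    (hpure : ∀ i, ∀ (n : ℕ) (x : G), n ≠ 0 → n • x ∈ gen B (Iio i) → x ∈ gen B (Iio i))
    (hS : ClosedSet B S) (T : Finset I) (hT : ClosedSet B (T : Set I)) {g : G}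
    (hg : g ∈ gen B (T : Set I)) :
    ∃ W : Set (ℕ × G), W.Finite ∧ (∀ w ∈ W, w.2 ∈ gen B S ∧ w.2 ∈ gen B (T : Set I)) ∧
      ∀ x ∈ gen B S, ∀ p : ℕ, p.Prime → ∀ n : ℕ, PDiv (p ^ n) (g - x) →
        ∃ w ∈ W, ¬ p ∣ w.1 ∧ PDiv (p ^ n) (w.1 • g - w.2) ∧ PDiv (p ^ n) (w.1 • x - w.2) := by
  obtain ⟨W, hW1, hW2, hW3⟩ := exists_witness_gen hB T
    (fun n x hn hx => hT.pure htop hpure hn hx) (gen B S)
    (fun n x hn hx => hS.pure htop hpure hn hx) hg
  refine ⟨W, hW1, hW2, ?_⟩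
  intro x hx p hp n hd
  obtain ⟨z, hz⟩ := hd
  have hpn : p ^ n ≠ 0 := (pow_pos hp.pos n).ne'
  have hz' : z ∈ gen B (S ∪ (T : Set I)) := by
    apply (hS.union hT).pure htop hpure hpn
    rw [hz, gen_union]
    exact sub_mem (AddSubgroup.mem_sup_right hg) (AddSubgroup.mem_sup_left hx)
  rw [gen_union] at hz'
  obtain ⟨a, ha, b, hb, rfl⟩ := AddSubgroup.mem_sup.1 hz'
  -- y = g - p^n b = x + p^n a
  have hy : g - p ^ n • b = x + p ^ n • a := by
    rw [nsmul_add] at hz
    have : g = x + (p ^ n • a + p ^ n • b) := by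
      rw [hz]
      abel
    rw [this]
    abel
  have hyT : g - p ^ n • b ∈ gen B (T : Set I) := sub_mem hg (nsmul_mem hb _)
  have hyS : g - p ^ n • b ∈ gen B S := by
    rw [hy]
    exact add_mem hx (nsmul_mem ha _)
  obtain ⟨w, hw, h1, h2⟩ := hW3 p hp n ⟨g - p ^ n • b, ⟨hyS, hyT⟩, b, by rw [sub_sub_cancel]⟩
  refine ⟨w, hw, h1, h2, ?_⟩
  have h3 : PDiv (p ^ n) (w.1 • (g - x)) := PDiv.nsmul ⟨a + b, hz⟩ w.1
  have : w.1 • x - w.2 = (w.1 • g - w.2) - w.1 • (g - x) := by
    rw [nsmul_sub]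
    abel
  rw [this]
  exact h2.sub h3

/-- masked height function -/
def mask (m : ℕ) (χ : HF) : HF := fun p => if (p : ℕ) ∣ m then 0 else χ p

/-- sets of height functions closed under the lattice operations and masks -/
structure OpClosed (D : Set HF) : Prop where
  bot : ⊥ ∈ D
  inf : ∀ a ∈ D, ∀ b ∈ D, a ⊓ b ∈ D
  sup : ∀ a ∈ D, ∀ b ∈ D, a ⊔ b ∈ D
  mask : ∀ a ∈ D, ∀ m, mask m a ∈ D

/-- heights in sums of closed subgroups -/
lemma heightSeq_mem_of_sSup (hB : ∀ i, IsFiniteRankButler (B i)) (htop : gen B univ = ⊤)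
    (hpure : ∀ i, ∀ (n : ℕ) (x : G), n ≠ 0 → n • x ∈ gen B (Iio i) → x ∈ gen B (Iio i))
    (hfin : ∀ i, ∃ T : Set I, T.Finite ∧ ClosedSet B T ∧ i ∈ T)
    {D : Set HF} (hD : OpClosed D) {𝒩 : Set (AddSubgroup G)}
    (hcl : ∀ N ∈ 𝒩, ∃ S, ClosedSet B S ∧ gen B S = N)
    (hht : ∀ N ∈ 𝒩, ∀ x ∈ N, heightSeq x ∈ D) (htopD : (⊤ : HF) ∈ D) {x : G}
    (hx : x ∈ sSup 𝒩) : heightSeq x ∈ D := by
  classical
  have key : ∀ 𝒯 : Finset (AddSubgroup G), (𝒯 : Set (AddSubgroup G)) ⊆ 𝒩 →
      ∀ x ∈ sSup (𝒯 : Set (AddSubgroup G)), heightSeq x ∈ D := by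
    intro 𝒯
    induction 𝒯 using Finset.induction_on with
    | empty =>
      intro _ x hx
      have : x = 0 := by simpa using hx
      rw [this, heightSeq_zero]
      exact htopD
    | insert N 𝒯 hN ih =>
      intro hsub x hx
      have hsub' : (𝒯 : Set (AddSubgroup G)) ⊆ 𝒩 := fun M hM =>
        hsub (by simp only [Finset.coe_insert]; exact mem_insert_of_mem _ hM)
      have hN𝒩 : N ∈ 𝒩 := hsub (by simp)
      rw [Finset.coe_insert, sSup_insert] at hx
      obtain ⟨a, ha, b, hb, rfl⟩ := AddSubgroup.mem_sup.1 hx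
      obtain ⟨S, hS, rfl⟩ := hcl N hN𝒩
      -- a closed set for the rest
      choose! c hc1 hc2 using hcl
      have hS' : ClosedSet B (⋃ M ∈ (𝒯 : Set (AddSubgroup G)), c M) :=
        closedSet_biUnion fun M hM => hc1 M (hsub' hM)
      have hgen' : gen B (⋃ M ∈ (𝒯 : Set (AddSubgroup G)), c M) =
          sSup (𝒯 : Set (AddSubgroup G)) := by
        rw [gen_iUnion, sSup_eq_iSup]
        refine iSup_congr fun M => ?_
        rw [gen_iUnion]
        refine iSup_congr fun hM => ?_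
        exact hc2 M (hsub' hM)
      rw [← hgen'] at hb
      obtain ⟨T, hT, hTS, hbT⟩ := hS'.exists_finite_mem hfin hb
      obtain ⟨W, hW1, hW2, hW3⟩ := exists_witness_closed hB htop hpure hS T hT hbT
      have hna : -a ∈ gen B S := neg_mem ha
      have heq : heightSeq (a + b) = hW1.toFinset.sup
          (fun w => mask w.1 (heightSeq (w.1 • b - w.2) ⊓ heightSeq (w.1 • (-a) - w.2))) := by
        have hab : a + b = b - (-a) := by abel
        apply le_antisymm
        · rw [heightSeq_le_iff]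
          intro p n hd
          rw [hab] at hd
          obtain ⟨w, hw, h1, h2, h3⟩ := hW3 (-a) hna p p.2 n hd
          have h4 : (n : ℕ∞) ≤ mask w.1 (heightSeq (w.1 • b - w.2) ⊓
              heightSeq (w.1 • (-a) - w.2)) p := by
            unfold mask
            rw [if_neg h1]
            exact le_inf (le_pHeight_iff.2 h2) (le_pHeight_iff.2 h3)
          have h5 : mask w.1 (heightSeq (w.1 • b - w.2) ⊓ heightSeq (w.1 • (-a) - w.2)) ≤
              hW1.toFinset.sup (fun w => mask w.1 (heightSeq (w.1 • b - w.2) ⊓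
                heightSeq (w.1 • (-a) - w.2))) :=
            Finset.le_sup (f := fun w : ℕ × G => mask w.1 (heightSeq (w.1 • b - w.2) ⊓
              heightSeq (w.1 • (-a) - w.2))) (hW1.mem_toFinset.2 hw)
          exact h4.trans (h5 p)
        · refine Finset.sup_le fun w hw => ?_
          intro p
          unfold mask
          split_ifs with hpw
          · exact zero_le
          · refine ENat.forall_natCast_le_iff_le.1 fun n hn => ?_
            have h1 : PDiv ((p : ℕ) ^ n) (w.1 • b - w.2) :=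
              le_pHeight_iff.1 (hn.trans inf_le_left)
            have h2 : PDiv ((p : ℕ) ^ n) (w.1 • (-a) - w.2) :=
              le_pHeight_iff.1 (hn.trans inf_le_right)
            have h3 : PDiv ((p : ℕ) ^ n) (w.1 • (a + b)) := by
              have : w.1 • (a + b) = (w.1 • b - w.2) - (w.1 • (-a) - w.2) := by
                rw [hab, nsmul_sub]
                abel
              rw [this]
              exact h1.sub h2
            exact le_pHeight_iff.2 (h3.of_not_dvd p.2 hpw)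
      rw [heq]
      refine Finset.sup_mem D hD.bot (fun a ha b hb => hD.sup a ha b hb) _ _ fun w hw => ?_
      rw [Set.Finite.mem_toFinset] at hw
      apply hD.mask
      apply hD.inf
      · apply ih hsub'
        rw [← hgen']
        refine sub_mem (nsmul_mem hb _) ?_
        exact gen_mono hTS (hW2 w hw).2
      · exact hht _ hN𝒩 _ (sub_mem (nsmul_mem hna _) (hW2 w hw).1)
  rw [sSup_eq_iSup] at hx
  obtain ⟨T, hT, hcT⟩ := mem_gen_finset (B := fun N : AddSubgroup G => N) (S := 𝒩) hx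
  refine key T hT x ?_
  rw [sSup_eq_iSup]
  exact hcT

end Closed

end Pool.Agent.MP_d611d8_al
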