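import Mathlib
import Pool.Agent.MP_d611d8_al.Solve

/-!
Sums of countable models are separable subgroups.
-/

namespace Pool.Agent.MP_d611d8_al

open Set

/-- choice functions for the systems of height conditions -/
structure ModelData (G : Type*) [AddCommGroup G] where
  clo : ∀ k : ℕ, (Fin k → ℕ × HF) → (Fin k → G) → Set (Fin k → G)
  wit : ∀ k : ℕ, (Fin k → ℕ × HF) → (Fin k → G) → G
  clo_fin : ∀ k π f, (clo k π f).Finite
  clo_distrib : ∀ k π (𝒩 : Set (AddSubgroup (Fin k → G))),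
    (∀ N ∈ 𝒩, ∀ f ∈ N, clo k π f ⊆ N) → Gam G π ⊓ sSup 𝒩 ≤ ⨆ N ∈ 𝒩, Gam G π ⊓ N
  wit_spec : ∀ k π, ∀ c ∈ Gam G π, ∀ j, (π j).2 ≤ heightSeq ((π j).1 • wit k π c + c j)

lemma exists_modelData (G : Type*) [AddCommGroup G] : Nonempty (ModelData G) := by
  classical
  choose clo h1 h2 using fun (k : ℕ) (π : Fin k → ℕ × HF) => exists_closure_distrib (Gam G π)
  have hw : ∀ (k : ℕ) (π : Fin k → ℕ × HF) (c : Fin k → G), ∃ v : G, c ∈ Gam G π →
      ∀ j, (π j).2 ≤ heightSeq ((π j).1 • v + c j) := by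
    intro k π c
    by_cases hc : c ∈ Gam G π
    · obtain ⟨v, hv⟩ := id hc
      exact ⟨v, fun _ => hv⟩
    · exact ⟨0, fun h => absurd h hc⟩
  choose wit hwit using hw
  exact ⟨⟨clo, wit, h1, h2, fun k π c hc => hwit k π c hc⟩⟩

section

variable {G : Type*} [AddCommGroup G] {I : Type*} [LinearOrder I] [WellFoundedLT I]
  {B : I → AddSubgroup G}

/-- models -/
structure IsModel (𝔡 : ModelData G) (B : I → AddSubgroup G) (N : AddSubgroup G) (D : Set HF) :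
    Prop where
  closed : ∃ S, ClosedSet B S ∧ gen B S = N
  height : ∀ x ∈ N, heightSeq x ∈ D
  clo_mem : ∀ (k : ℕ) (π : Fin k → ℕ × HF), (∀ j, (π j).2 ∈ D) → ∀ c : Fin k → G,
    (∀ j, c j ∈ N) → ∀ c' ∈ 𝔡.clo k π c, ∀ j, c' j ∈ N
  wit_mem : ∀ (k : ℕ) (π : Fin k → ℕ × HF), (∀ j, (π j).2 ∈ D) → ∀ c : Fin k → G,
    (∀ j, c j ∈ N) → 𝔡.wit k π c ∈ N

omit [WellFoundedLT I] in
lemma exists_closed_sSup {𝒩 : Set (AddSubgroup G)}
    (h : ∀ N ∈ 𝒩, ∃ S, ClosedSet B S ∧ gen B S = N) : ∃ S, ClosedSet B S ∧ gen B S = sSup 𝒩 := by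
  choose! c hc1 hc2 using h
  refine ⟨⋃ M ∈ 𝒩, c M, closedSet_biUnion fun M hM => hc1 M hM, ?_⟩
  rw [gen_iUnion, sSup_eq_iSup]
  refine iSup_congr fun M => ?_
  rw [gen_iUnion]
  exact iSup_congr fun hM => hc2 M hM

omit [WellFoundedLT I] in
lemma countable_gen (hBc : ∀ i, (B i : Set G).Countable) (T : Finset I) :
    (gen B (T : Set I) : Set G).Countable := by
  classical
  induction T using Finset.induction_on with
  | empty =>
    rw [Finset.coe_empty, gen_empty]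
    exact (Set.finite_singleton (0 : G)).countable
  | insert a s ha ih =>
    rw [Finset.coe_insert, gen_insert]
    refine (((hBc a).prod ih).image (fun q : G × G => q.1 + q.2)).mono ?_
    intro x hx
    obtain ⟨y, hy, z, hz, rfl⟩ := AddSubgroup.mem_sup.1 hx
    exact ⟨(y, z), ⟨hy, hz⟩, rfl⟩

/-- the main claim: a countable set of parameters controls the heights `|g - x|` -/
lemma main_claim (𝔡 : ModelData G) (hB : ∀ i, IsFiniteRankButler (B i)) (htop : gen B univ = ⊤)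
    (hpure : ∀ i, ∀ (n : ℕ) (x : G), n ≠ 0 → n • x ∈ gen B (Iio i) → x ∈ gen B (Iio i))
    (hfin : ∀ i, ∃ T : Set I, T.Finite ∧ ClosedSet B T ∧ i ∈ T)
    {𝒟 : Set (Set HF)} (hchain : ∀ D ∈ 𝒟, ∀ D' ∈ 𝒟, D ⊆ D' ∨ D' ⊆ D)
    {𝒩 : Set (AddSubgroup G)} (h𝒩 : ∀ N ∈ 𝒩, ∃ D ∈ 𝒟, IsModel 𝔡 B N D)
    {g : G} {T : Finset I} (hT : ClosedSet B (T : Set I)) (hgT : g ∈ gen B (T : Set I))
    {D : Set HF} (hD : D ∈ 𝒟) (hDop : OpClosed D) (htopD : (⊤ : HF) ∈ D)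
    (hDg : ∀ m : ℕ, ∀ y ∈ gen B (T : Set I), heightSeq (m • g - y) ∈ D)
    {x : G} (hx : x ∈ sSup 𝒩) :
    ∃ P : List (ℕ × G × HF), (∀ t ∈ P, t.2.1 ∈ gen B (T : Set I) ∧ t.2.2 ∈ D) ∧
      (∃ x' ∈ sSup 𝒩, ∀ t ∈ P,
        heightSeq (t.1 • g - t.2.1) ⊓ t.2.2 ≤ heightSeq (t.1 • x' - t.2.1)) ∧
      ∀ x', (∀ t ∈ P, heightSeq (t.1 • g - t.2.1) ⊓ t.2.2 ≤ heightSeq (t.1 • x' - t.2.1)) →
        heightSeq (g - x) ≤ heightSeq (g - x') := by
  classical
  -- small and large models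
  set 𝒩m : Set (AddSubgroup G) := {N ∈ 𝒩 | ∃ D' ∈ 𝒟, IsModel 𝔡 B N D' ∧ D' ⊆ D} with h𝒩m
  set 𝒩p : Set (AddSubgroup G) := {N ∈ 𝒩 | ∃ D' ∈ 𝒟, IsModel 𝔡 B N D' ∧ D ⊆ D'} with h𝒩p
  have hle : sSup 𝒩 ≤ sSup 𝒩m ⊔ sSup 𝒩p := by
    refine sSup_le fun N hN => ?_
    obtain ⟨D', hD', hM⟩ := h𝒩 N hN
    rcases hchain D' hD' D hD with h | h
    · exact le_sup_of_le_left (le_sSup ⟨hN, D', hD', hM, h⟩)
    · exact le_sup_of_le_right (le_sSup ⟨hN, D', hD', hM, h⟩)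
  have hmle : sSup 𝒩m ≤ sSup 𝒩 := sSup_le_sSup fun N hN => hN.1
  have hple : sSup 𝒩p ≤ sSup 𝒩 := sSup_le_sSup fun N hN => hN.1
  have hclm : ∀ N ∈ 𝒩m, ∃ S, ClosedSet B S ∧ gen B S = N := fun N hN => by
    obtain ⟨D', -, hM⟩ := h𝒩 N hN.1
    exact hM.closed
  have hclp : ∀ N ∈ 𝒩p, ∃ S, ClosedSet B S ∧ gen B S = N := fun N hN => by
    obtain ⟨D', -, hM⟩ := h𝒩 N hN.1
    exact hM.closed
  obtain ⟨Sm, hSm, hgm⟩ := exists_closed_sSup hclm
  obtain ⟨Sp, hSp, hgp⟩ := exists_closed_sSup hclp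
  obtain ⟨xm, hxm, xp, hxp, rfl⟩ := AddSubgroup.mem_sup.1 (hle hx)
  -- heights of elements of the small part
  have hhm : ∀ z ∈ sSup 𝒩m, heightSeq z ∈ D := fun z hz =>
    heightSeq_mem_of_sSup hB htop hpure hfin hDop hclm (by
      rintro N ⟨-, D', -, hM, hsub⟩ y hy
      exact hsub (hM.height y hy)) htopD hz
  -- witnesses for `g`
  obtain ⟨W, hW1, hW2, hW3⟩ := exists_witness_closed hB htop hpure (hSm.union hSp) T hT hgT
  have hsplit : ∀ w : ℕ × G, w ∈ W → ∃ ym ∈ sSup 𝒩m, ∃ yp ∈ sSup 𝒩p, ym + yp = w.2 := by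
    intro w hw
    have h1 := (hW2 w hw).1
    rw [gen_union, hgm, hgp] at h1
    exact AddSubgroup.mem_sup.1 h1
  choose! ym hym yp hyp hyy using hsplit
  -- second level witnesses
  have hV : ∀ w : ℕ × G, w ∈ W → ∃ V : Finset (ℕ × G),
      (∀ w' ∈ V, w'.2 ∈ sSup 𝒩m ∧ w'.2 ∈ sSup 𝒩p) ∧
      ∀ z ∈ sSup 𝒩p, ∀ p : ℕ, p.Prime → ∀ n : ℕ, PDiv (p ^ n) ((w.1 • xm - ym w) - z) →
        ∃ w' ∈ V, ¬ p ∣ w'.1 ∧ PDiv (p ^ n) (w'.1 • (w.1 • xm - ym w) - w'.2) := by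
    intro w hw
    have hu : w.1 • xm - ym w ∈ gen B Sm := by
      rw [hgm]
      exact sub_mem (nsmul_mem hxm _) (hym w hw)
    obtain ⟨Tw, hTw, hTwS, huT⟩ := hSm.exists_finite_mem hfin hu
    obtain ⟨V, hV1, hV2, hV3⟩ := exists_witness_closed hB htop hpure hSp Tw hTw huT
    refine ⟨hV1.toFinset, ?_, ?_⟩
    · intro w' hw'
      rw [Set.Finite.mem_toFinset] at hw'
      obtain ⟨h1, h2⟩ := hV2 w' hw'
      rw [hgp] at h1
      exact ⟨hgm ▸ gen_mono hTwS h2, h1⟩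
    · intro z hz p hp n hd
      rw [← hgp] at hz
      obtain ⟨w', hw', h1, h2, -⟩ := hV3 z hz p hp n hd
      exact ⟨w', hV1.mem_toFinset.2 hw', h1, h2⟩
  choose! V hV1 hV2 using hV
  set u : ℕ × G → G := fun w => w.1 • xm - ym w with hudef
  have hu : ∀ w ∈ W, u w ∈ sSup 𝒩m := fun w hw => sub_mem (nsmul_mem hxm _) (hym w hw)
  set σ : ℕ × G → HF := fun w => (V w).sup fun w' => mask w'.1 (heightSeq (w'.1 • u w - w'.2))
    with hσdef
  have hσD : ∀ w ∈ W, σ w ∈ D := by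
    intro w hw
    refine Finset.sup_mem D hDop.bot (fun a ha b hb => hDop.sup a ha b hb) _ _ fun w' hw' => ?_
    apply hDop.mask
    exact hhm _ (sub_mem (nsmul_mem (hu w hw) _) (hV1 w hw w' hw').1)
  -- the system to be solved in the large part
  let J : Type _ := {q : (ℕ × G) × (ℕ × G) // q.1 ∈ W ∧ q.2 ∈ V q.1}
  have hJ : Finite J := by
    have h1 : {q : (ℕ × G) × (ℕ × G) | q.1 ∈ W ∧ q.2 ∈ V q.1}.Finite := by
      refine (hW1.biUnion fun w _ => ((V w).finite_toSet.image fun w' => (w, w'))).subset ?_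
      rintro ⟨w, w'⟩ ⟨h1, h2⟩
      simp only [mem_iUnion]
      exact ⟨w, h1, w', h2, rfl⟩
    exact h1.to_subtype
  obtain ⟨k, ⟨e⟩⟩ := Finite.exists_equiv_fin J
  let π : Fin k → ℕ × HF := fun j =>
    ((e.symm j).1.2.1 * (e.symm j).1.1.1,
      heightSeq ((e.symm j).1.1.1 • g - (e.symm j).1.1.2) ⊓
        heightSeq ((e.symm j).1.2.1 • u (e.symm j).1.1 - (e.symm j).1.2.2))
  let c : Fin k → G := fun j =>
    -((e.symm j).1.2.1 • yp (e.symm j).1.1) + (e.symm j).1.2.2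
  have hπD : ∀ j, (π j).2 ∈ D := by
    intro j
    obtain ⟨hq1, hq2⟩ := (e.symm j).2
    apply hDop.inf
    · exact hDg _ _ (hW2 _ hq1).2
    · exact hhm _ (sub_mem (nsmul_mem (hu _ hq1) _) (hV1 _ hq1 _ hq2).1)
  have hcG : c ∈ Gam G π := by
    refine ⟨g - xm, fun j => ?_⟩
    obtain ⟨hq1, hq2⟩ := (e.symm j).2
    have hyq := hyy _ hq1
    have heq : (π j).1 • (g - xm) + c j =
        (e.symm j).1.2.1 • ((e.symm j).1.1.1 • g - (e.symm j).1.1.2) -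
          ((e.symm j).1.2.1 • u (e.symm j).1.1 - (e.symm j).1.2.2) := by
      simp only [π, c, hudef]
      rw [← hyq]
      simp only [nsmul_sub, nsmul_add, mul_smul]
      abel
    rw [heq, sub_eq_add_neg]
    refine le_trans (inf_le_inf (heightSeq_le_nsmul _ _) ?_) inf_le_heightSeq_add
    rw [heightSeq_neg]
  have hcp : ∀ j, c j ∈ sSup 𝒩p := by
    intro j
    obtain ⟨hq1, hq2⟩ := (e.symm j).2
    exact add_mem (neg_mem (nsmul_mem (hyp _ hq1) _)) (hV1 _ hq1 _ hq2).2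
  obtain ⟨v', hv', hv⟩ := gam_solve (𝔡.clo_distrib k π) (𝔡.wit_spec k π) (𝒩 := 𝒩p)
    (by
      rintro N ⟨-, D', -, hM, hsub⟩ c hc c' hc' j
      exact hM.clo_mem k π (fun j => hsub (hπD j)) c hc c' hc' j)
    (by
      rintro N ⟨-, D', -, hM, hsub⟩ c hc
      exact hM.wit_mem k π (fun j => hsub (hπD j)) c hc) hcG hcp
  -- the parameter list
  refine ⟨hW1.toFinset.toList.map fun w => (w.1, w.2, σ w), ?_, ⟨xm + v', ?_, ?_⟩, ?_⟩
  · intro t ht
    obtain ⟨w, hw, rfl⟩ := List.mem_map.1 ht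
    rw [Finset.mem_toList, Set.Finite.mem_toFinset] at hw
    exact ⟨(hW2 w hw).2, hσD w hw⟩
  · exact add_mem (hmle hxm) (hple hv')
  · intro t ht
    obtain ⟨w, hw, rfl⟩ := List.mem_map.1 ht
    rw [Finset.mem_toList, Set.Finite.mem_toFinset] at hw
    rw [le_heightSeq_iff]
    intro p n hn
    have hn1 : PDiv ((p : ℕ) ^ n) (w.1 • g - w.2) := le_pHeight_iff.1 (hn.trans inf_le_left)
    have hn2 : (n : ℕ∞) ≤ σ w p := hn.trans inf_le_right
    rcases Nat.eq_zero_or_pos n with rfl | hnpos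
    · exact PDiv.pow_zero _ _
    · -- find the witness realizing the supremum
      have hex : ∃ w' ∈ V w, (n : ℕ∞) ≤ mask w'.1 (heightSeq (w'.1 • u w - w'.2)) p := by
        by_contra hcon
        push Not at hcon
        have hlt : σ w p < n := by
          simp only [hσdef]
          rw [Finset.sup_apply]
          rw [Finset.sup_lt_iff]
          · exact hcon
          · change (0 : ℕ∞) < n
            exact_mod_cast hnpos
        exact absurd hn2 (not_le.2 hlt)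
      obtain ⟨w', hw', hn3⟩ := hex
      unfold mask at hn3
      split_ifs at hn3 with hpw
      · exfalso
        have : n ≤ 0 := by exact_mod_cast hn3
        omega
      · have hn4 : PDiv ((p : ℕ) ^ n) (w'.1 • u w - w'.2) := le_pHeight_iff.1 hn3
        let j : Fin k := e ⟨(w, w'), hw, hw'⟩
        have hj : (e.symm j) = ⟨(w, w'), hw, hw'⟩ := e.symm_apply_apply _
        have hvj := hv j
        have hπ1 : (π j).1 = w'.1 * w.1 := by simp only [π, hj]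
        have hπ2 : (π j).2 = heightSeq (w.1 • g - w.2) ⊓ heightSeq (w'.1 • u w - w'.2) := by
          simp only [π, hj]
        have hcj : c j = -(w'.1 • yp w) + w'.2 := by simp only [c, hj]
        rw [hπ1, hπ2, hcj] at hvj
        have hn5 : PDiv ((p : ℕ) ^ n) ((w'.1 * w.1) • v' + (-(w'.1 • yp w) + w'.2)) := by
          rw [le_heightSeq_iff] at hvj
          exact hvj p n (le_inf (le_pHeight_iff.2 hn1) (le_pHeight_iff.2 hn4))
        have heq : w'.1 • (w.1 • (xm + v') - w.2) =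
            (w'.1 • u w - w'.2) + ((w'.1 * w.1) • v' + (-(w'.1 • yp w) + w'.2)) := by
          simp only [hudef]
          rw [← hyy w hw]
          simp only [nsmul_sub, nsmul_add, mul_smul]
          abel
        have hn6 : PDiv ((p : ℕ) ^ n) (w'.1 • (w.1 • (xm + v') - w.2)) := by
          rw [heq]
          exact hn4.add hn5
        exact hn6.of_not_dvd p.2 hpw
  · intro x' hx'
    rw [heightSeq_le_heightSeq_iff]
    intro p n hd
    have hxS : xm + xp ∈ gen B (Sm ∪ Sp) := by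
      rw [gen_union, hgm, hgp]
      exact AddSubgroup.add_mem_sup hxm hxp
    obtain ⟨w, hw, h1, h2, h3⟩ := hW3 _ hxS p p.2 n hd
    have ht := hx' (w.1, w.2, σ w) (List.mem_map.2 ⟨w, by
      rw [Finset.mem_toList, Set.Finite.mem_toFinset]
      exact hw, rfl⟩)
    rw [le_heightSeq_iff] at ht
    -- `n ≤ σ w p`
    have hnσ : (n : ℕ∞) ≤ σ w p := by
      have hz : yp w - w.1 • xp ∈ sSup 𝒩p := sub_mem (hyp w hw) (nsmul_mem hxp _)
      have hd' : PDiv ((p : ℕ) ^ n) ((w.1 • xm - ym w) - (yp w - w.1 • xp)) := by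
        have : (w.1 • xm - ym w) - (yp w - w.1 • xp) = w.1 • (xm + xp) - w.2 := by
          rw [← hyy w hw, nsmul_add]
          abel
        rw [this]
        exact h3
      obtain ⟨w', hw', h4, h5⟩ := hV2 w hw _ hz p p.2 n hd'
      have h6 : mask w'.1 (heightSeq (w'.1 • u w - w'.2)) ≤ σ w :=
        Finset.le_sup (f := fun w' : ℕ × G => mask w'.1 (heightSeq (w'.1 • u w - w'.2))) hw'
      refine le_trans ?_ (h6 p)
      unfold mask
      rw [if_neg h4]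
      exact le_pHeight_iff.2 h5
    have h7 : PDiv ((p : ℕ) ^ n) (w.1 • x' - w.2) :=
      ht p n (le_inf (le_pHeight_iff.2 h2) hnσ)
    have h8 : PDiv ((p : ℕ) ^ n) (w.1 • (g - x')) := by
      have : w.1 • (g - x') = (w.1 • g - w.2) - (w.1 • x' - w.2) := by
        rw [nsmul_sub]
        abel
      rw [this]
      exact h2.sub h7
    exact h8.of_not_dvd p.2 h1

/-- sums of models are separable -/
theorem separable_of_models (𝔡 : ModelData G) (hB : ∀ i, IsFiniteRankButler (B i))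
    (hBc : ∀ i, (B i : Set G).Countable) (htop : gen B univ = ⊤)
    (hpure : ∀ i, ∀ (n : ℕ) (x : G), n ≠ 0 → n • x ∈ gen B (Iio i) → x ∈ gen B (Iio i))
    (hfin : ∀ i, ∃ T : Set I, T.Finite ∧ ClosedSet B T ∧ i ∈ T)
    {𝒟 : Set (Set HF)} (hchain : ∀ D ∈ 𝒟, ∀ D' ∈ 𝒟, D ⊆ D' ∨ D' ⊆ D)
    (hcount : ∀ D ∈ 𝒟, D.Countable)
    (hop : ∀ C : Set HF, C.Countable → ∃ D ∈ 𝒟, C ⊆ D ∧ OpClosed D)
    {𝒩 : Set (AddSubgroup G)} (h𝒩 : ∀ N ∈ 𝒩, ∃ D ∈ 𝒟, IsModel 𝔡 B N D) :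
    IsSeparableSubgroup (sSup 𝒩) := by
  classical
  intro g
  have huniv : ClosedSet B (univ : Set I) := by
    intro i _
    rw [univ_inter]
    exact inf_le_right
  obtain ⟨T, hT, -, hgT⟩ := huniv.exists_finite_mem hfin (x := g) (by
    rw [htop]
    exact AddSubgroup.mem_top g)
  have hTc := countable_gen hBc T
  obtain ⟨D, hD, hCD, hDop⟩ := hop
    (insert ⊤ ((fun q : ℕ × G => heightSeq (q.1 • g - q.2)) ''
      (univ ×ˢ (gen B (T : Set I) : Set G))))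
    (((Set.countable_univ.prod hTc).image _).insert _)
  have htopD : (⊤ : HF) ∈ D := hCD (mem_insert _ _)
  have hDg : ∀ m : ℕ, ∀ y ∈ gen B (T : Set I), heightSeq (m • g - y) ∈ D := fun m y hy =>
    hCD (mem_insert_of_mem _ ⟨(m, y), ⟨mem_univ _, hy⟩, rfl⟩)
  -- the countable set of parameters
  set PP : Set (List (ℕ × G × HF)) := {P | ∀ t ∈ P, t ∈ {t : ℕ × G × HF |
    t.2.1 ∈ gen B (T : Set I) ∧ t.2.2 ∈ D}} with hPP
  have hPPc : PP.Countable := by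
    have hs : {t : ℕ × G × HF | t.2.1 ∈ gen B (T : Set I) ∧ t.2.2 ∈ D}.Countable := by
      refine (Set.countable_univ.prod (hTc.prod (hcount D hD))).mono ?_
      rintro ⟨m, y, χ⟩ ⟨h1, h2⟩
      exact ⟨mem_univ _, h1, h2⟩
    have hct : Countable {t : ℕ × G × HF | t.2.1 ∈ gen B (T : Set I) ∧ t.2.2 ∈ D} :=
      hs.to_subtype
    rw [hPP, ← Set.range_list_map_coe]
    exact Set.countable_range _
  have hch : ∀ P : List (ℕ × G × HF), ∃ x' ∈ sSup 𝒩, (∃ x' ∈ sSup 𝒩, ∀ t ∈ P,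
        heightSeq (t.1 • g - t.2.1) ⊓ t.2.2 ≤ heightSeq (t.1 • x' - t.2.1)) → ∀ t ∈ P,
        heightSeq (t.1 • g - t.2.1) ⊓ t.2.2 ≤ heightSeq (t.1 • x' - t.2.1) := by
    intro P
    by_cases h : ∃ x' ∈ sSup 𝒩, ∀ t ∈ P,
        heightSeq (t.1 • g - t.2.1) ⊓ t.2.2 ≤ heightSeq (t.1 • x' - t.2.1)
    · obtain ⟨x', h1, h2⟩ := h
      exact ⟨x', h1, fun _ => h2⟩
    · exact ⟨0, zero_mem _, fun h' => absurd h' h⟩
  choose sel hsel1 hsel2 using hch
  have hne : PP.Nonempty := ⟨[], by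
    intro t ht
    simp at ht⟩
  obtain ⟨f, hf⟩ := hPPc.exists_eq_range hne
  refine ⟨fun n => -sel (f n), fun n => neg_mem (hsel1 _), ?_⟩
  intro x hx
  obtain ⟨P, hP1, hP2, hP3⟩ := main_claim 𝔡 hB htop hpure hfin hchain h𝒩 hT hgT hD hDop htopD hDg
    (neg_mem hx)
  have hPm : P ∈ PP := hP1
  rw [hf] at hPm
  obtain ⟨n, rfl⟩ := hPm
  refine ⟨n, ?_⟩
  have h1 := hP3 (sel (f n)) (hsel2 (f n) hP2)
  have e1 : g - -x = g + x := by abel
  have e2 : g - sel (f n) = g + -sel (f n) := by abel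
  rw [e1, e2] at h1
  exact h1

end

end Pool.Agent.MP_d611d8_al
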