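import Mathlib
import Pool.Agent.MP_d611d8_al.Separable

/-!
Existence of countable models.
-/

namespace Pool.Agent.MP_d611d8_al

open Set

section Countable

variable {G : Type*} [AddCommGroup G]

lemma countable_closure {s : Set G} (hs : s.Countable) :
    (AddSubgroup.closure s : Set G).Countable := by
  classical
  have hc : Countable s := hs.to_subtype
  let φ : (s →₀ ℤ) →+ G := Finsupp.liftAddHom fun x : s => zmultiplesHom G (x : G)
  have hle : AddSubgroup.closure s ≤ φ.range := by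
    rw [AddSubgroup.closure_le]
    intro x hx
    refine ⟨Finsupp.single ⟨x, hx⟩ 1, ?_⟩
    simp [φ]
  refine (Set.countable_range φ).mono ?_
  intro x hx
  exact hle hx

end Countable

/-- a chain of countable sets of height functions -/
structure GoodChain (𝒟 : Set (Set HF)) : Prop where
  chain : ∀ D ∈ 𝒟, ∀ D' ∈ 𝒟, D ⊆ D' ∨ D' ⊆ D
  countable : ∀ D ∈ 𝒟, D.Countable
  cofinal : ∀ C : Set HF, C.Countable → ∃ D ∈ 𝒟, C ⊆ D
  union : ∀ s : ℕ → Set HF, (∀ n, s n ∈ 𝒟) → (⋃ n, s n) ∈ 𝒟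

lemma GoodChain.exists_opClosed {𝒟 : Set (Set HF)} (h : GoodChain 𝒟) (C : Set HF)
    (hC : C.Countable) : ∃ D ∈ 𝒟, C ⊆ D ∧ OpClosed D := by
  classical
  let Φ : Set HF → Set HF := fun D => D ∪ ({⊥} ∪ (((fun q : HF × HF => q.1 ⊓ q.2) '' (D ×ˢ D)) ∪
    (((fun q : HF × HF => q.1 ⊔ q.2) '' (D ×ˢ D)) ∪
      ((fun q : ℕ × HF => mask q.1 q.2) '' (univ ×ˢ D)))))
  have hΦ : ∀ D : Set HF, D.Countable → (Φ D).Countable := by
    intro D hD
    refine hD.union ((Set.countable_singleton _).union ?_)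
    refine ((hD.prod hD).image _).union (((hD.prod hD).image _).union ?_)
    exact (Set.countable_univ.prod hD).image _
  choose! ext hext1 hext2 using h.cofinal
  let s : ℕ → Set HF := fun n => Nat.rec (ext C) (fun _ D => ext (Φ D)) n
  have hs0 : s 0 = ext C := rfl
  have hs1 : ∀ n, s (n + 1) = ext (Φ (s n)) := fun n => rfl
  have hsD : ∀ n, s n ∈ 𝒟 := by
    intro n
    induction n with
    | zero => exact hext1 C hC
    | succ n ih => exact hext1 _ (hΦ _ (h.countable _ ih))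
  have hstep : ∀ n, Φ (s n) ⊆ s (n + 1) := fun n => hext2 _ (hΦ _ (h.countable _ (hsD n)))
  have hmono : Monotone s := monotone_nat_of_le_succ fun n x hx => hstep n (Or.inl hx)
  refine ⟨⋃ n, s n, h.union s hsD, ?_, ?_⟩
  · exact (hext2 C hC).trans (subset_iUnion s 0)
  · constructor
    · exact mem_iUnion.2 ⟨1, hstep 0 (Or.inr (Or.inl rfl))⟩
    · intro a ha b hb
      obtain ⟨n, hn⟩ := mem_iUnion.1 ha
      obtain ⟨m, hm⟩ := mem_iUnion.1 hb
      refine mem_iUnion.2 ⟨max n m + 1, hstep _ (Or.inr (Or.inr (Or.inl ?_)))⟩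
      exact ⟨(a, b), ⟨hmono (le_max_left _ _) hn, hmono (le_max_right _ _) hm⟩, rfl⟩
    · intro a ha b hb
      obtain ⟨n, hn⟩ := mem_iUnion.1 ha
      obtain ⟨m, hm⟩ := mem_iUnion.1 hb
      refine mem_iUnion.2 ⟨max n m + 1, hstep _ (Or.inr (Or.inr (Or.inr (Or.inl ?_))))⟩
      exact ⟨(a, b), ⟨hmono (le_max_left _ _) hn, hmono (le_max_right _ _) hm⟩, rfl⟩
    · intro a ha m
      obtain ⟨n, hn⟩ := mem_iUnion.1 ha
      refine mem_iUnion.2 ⟨n + 1, hstep _ (Or.inr (Or.inr (Or.inr (Or.inr ?_))))⟩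
      exact ⟨(m, a), ⟨mem_univ _, hn⟩, rfl⟩

section Exists

variable {G : Type*} [AddCommGroup G] {I : Type*} [LinearOrder I] [WellFoundedLT I]
  {B : I → AddSubgroup G}

/-- every countable subgroup lies in a countable model -/
lemma exists_model (𝔡 : ModelData G) (hBc : ∀ i, (B i : Set G).Countable)
    (htop : gen B univ = ⊤)
    (hfin : ∀ i, ∃ T : Set I, T.Finite ∧ ClosedSet B T ∧ i ∈ T)
    {𝒟 : Set (Set HF)} (h𝒟 : GoodChain 𝒟) (K : AddSubgroup G) (hK : (K : Set G).Countable) :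
    ∃ N : AddSubgroup G, K ≤ N ∧ (N : Set G).Countable ∧ ∃ D ∈ 𝒟, IsModel 𝔡 B N D := by
  classical
  -- finite closed supports
  have huniv : ClosedSet B (univ : Set I) := by
    intro i _
    rw [univ_inter]
    exact inf_le_right
  have hTx : ∀ x : G, ∃ T : Finset I, ClosedSet B (T : Set I) ∧ x ∈ gen B (T : Set I) := by
    intro x
    obtain ⟨T, h1, -, h2⟩ := huniv.exists_finite_mem hfin (x := x) (by
      rw [htop]
      exact AddSubgroup.mem_top x)
    exact ⟨T, h1, h2⟩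
  choose T hT1 hT2 using hTx
  -- the closure operations
  let Op : (k : ℕ) → (Fin k → ℕ × HF × G) → Set G := fun k t =>
    {x | ∃ c' ∈ 𝔡.clo k (fun j => ((t j).1, (t j).2.1)) (fun j => (t j).2.2), ∃ j, c' j = x} ∪
      {𝔡.wit k (fun j => ((t j).1, (t j).2.1)) (fun j => (t j).2.2)}
  have hOpc : ∀ k t, (Op k t).Countable := by
    intro k t
    refine Set.Countable.union ?_ (Set.countable_singleton _)
    have : {x | ∃ c' ∈ 𝔡.clo k (fun j => ((t j).1, (t j).2.1)) (fun j => (t j).2.2),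
        ∃ j, c' j = x} = ⋃ c' ∈ 𝔡.clo k (fun j => ((t j).1, (t j).2.1)) (fun j => (t j).2.2),
          Set.range c' := by
      ext x
      simp
    rw [this]
    exact (𝔡.clo_fin _ _ _).countable.biUnion fun c' _ => Set.countable_range c'
  let TT : AddSubgroup G → Set HF → (k : ℕ) → Set (Fin k → ℕ × HF × G) := fun N D k =>
    {t | ∀ j, (t j).2.1 ∈ D ∧ (t j).2.2 ∈ N}
  have hTTc : ∀ (N : AddSubgroup G) (D : Set HF) (k : ℕ), (N : Set G).Countable → D.Countable →
      (TT N D k).Countable := by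
    intro N D k hN hD
    have hs : {t : ℕ × HF × G | t.2.1 ∈ D ∧ t.2.2 ∈ N}.Countable := by
      refine (Set.countable_univ.prod (hD.prod hN)).mono ?_
      rintro ⟨m, y, χ⟩ ⟨h1, h2⟩
      exact ⟨mem_univ _, h1, h2⟩
    have hct : Countable {t : ℕ × HF × G | t.2.1 ∈ D ∧ t.2.2 ∈ N} := hs.to_subtype
    refine (Set.countable_range (fun f : Fin k → {t : ℕ × HF × G | t.2.1 ∈ D ∧ t.2.2 ∈ N} =>
      fun j => (f j : ℕ × HF × G))).mono ?_
    intro t ht
    exact ⟨fun j => ⟨t j, ht j⟩, rfl⟩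
  choose! ext hext1 hext2 using h𝒟.cofinal
  let stepN : AddSubgroup G → Set HF → AddSubgroup G := fun N D =>
    AddSubgroup.closure ((N : Set G) ∪ ((⋃ k, ⋃ t ∈ TT N D k, Op k t) ∪
      ⋃ x ∈ (N : Set G), (gen B (T x : Set I) : Set G)))
  let stepD : AddSubgroup G → Set HF → Set HF := fun N D =>
    ext (D ∪ heightSeq '' (N : Set G))
  let s : ℕ → AddSubgroup G × Set HF := fun n =>
    Nat.rec (K, ext ∅) (fun _ q => (stepN q.1 q.2, stepD q.1 q.2)) n
  have hs1 : ∀ n, s (n + 1) = (stepN (s n).1 (s n).2, stepD (s n).1 (s n).2) := fun n => rfl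
  have hinv : ∀ n, ((s n).1 : Set G).Countable ∧ (s n).2 ∈ 𝒟 := by
    intro n
    induction n with
    | zero => exact ⟨hK, hext1 ∅ Set.countable_empty⟩
    | succ n ih =>
      obtain ⟨h1, h2⟩ := ih
      have h3 := h𝒟.countable _ h2
      rw [hs1]
      refine ⟨?_, ?_⟩
      · refine countable_closure (h1.union (Set.Countable.union ?_ ?_))
        · refine Set.countable_iUnion fun k => ?_
          exact (hTTc _ _ k h1 h3).biUnion fun t _ => hOpc k t
        · exact h1.biUnion fun x _ => countable_gen hBc (T x)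
      · exact hext1 _ (h3.union (h1.image _))
  have hN1 : ∀ n, (s n).1 ≤ (s (n + 1)).1 := fun n x hx =>
    AddSubgroup.subset_closure (Or.inl hx)
  have hD1 : ∀ n, (s n).2 ⊆ (s (n + 1)).2 := by
    intro n
    have h3 := (h𝒟.countable _ (hinv n).2).union ((hinv n).1.image heightSeq)
    exact subset_union_left.trans (hext2 _ h3)
  have hD2 : ∀ n, ∀ x ∈ (s n).1, heightSeq x ∈ (s (n + 1)).2 := by
    intro n x hx
    have h3 := (h𝒟.countable _ (hinv n).2).union ((hinv n).1.image heightSeq)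
    exact hext2 _ h3 (Or.inr ⟨x, hx, rfl⟩)
  have hNmono : Monotone fun n => (s n).1 := monotone_nat_of_le_succ hN1
  have hDmono : Monotone fun n => (s n).2 := monotone_nat_of_le_succ hD1
  have hdir : Directed (· ≤ ·) fun n => (s n).1 := hNmono.directed_le
  have hmemN : ∀ x : G, x ∈ (⨆ n, (s n).1) ↔ ∃ n, x ∈ (s n).1 := fun x =>
    AddSubgroup.mem_iSup_of_directed hdir
  refine ⟨⨆ n, (s n).1, le_iSup (fun n => (s n).1) 0, ?_, ⋃ n, (s n).2,
    h𝒟.union _ fun n => (hinv n).2, ?_⟩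
  · have : ((⨆ n, (s n).1 : AddSubgroup G) : Set G) = ⋃ n, ((s n).1 : Set G) := by
      ext x
      simp only [SetLike.mem_coe, mem_iUnion]
      exact hmemN x
    rw [this]
    exact Set.countable_iUnion fun n => (hinv n).1
  · -- every tuple lies in some stage
    have hstage : ∀ (k : ℕ) (π : Fin k → ℕ × HF), (∀ j, (π j).2 ∈ ⋃ n, (s n).2) →
        ∀ c : Fin k → G, (∀ j, c j ∈ ⨆ n, (s n).1) → ∃ n,
          (fun j => ((π j).1, (π j).2, c j)) ∈ TT (s n).1 (s n).2 k := by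
      intro k π hπ c hc
      choose a ha using fun j => mem_iUnion.1 (hπ j)
      choose b hb using fun j => (hmemN (c j)).1 (hc j)
      refine ⟨Finset.univ.sup a + Finset.univ.sup b, fun j => ⟨?_, ?_⟩⟩
      · exact hDmono ((Finset.le_sup (f := a) (Finset.mem_univ j)).trans (Nat.le_add_right _ _))
          (ha j)
      · exact hNmono ((Finset.le_sup (f := b) (Finset.mem_univ j)).trans (Nat.le_add_left _ _))
          (hb j)
    constructor
    · refine ⟨⋃ x ∈ ((⨆ n, (s n).1 : AddSubgroup G) : Set G), (T x : Set I),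
        closedSet_biUnion fun x _ => hT1 x, ?_⟩
      apply le_antisymm
      · rw [gen_iUnion]
        refine iSup_le fun x => ?_
        rw [gen_iUnion]
        refine iSup_le fun hx => ?_
        obtain ⟨n, hn⟩ := (hmemN x).1 hx
        intro y hy
        refine (hmemN y).2 ⟨n + 1, AddSubgroup.subset_closure (Or.inr (Or.inr ?_))⟩
        simp only [mem_iUnion]
        exact ⟨x, hn, hy⟩
      · intro x hx
        refine gen_mono ?_ (hT2 x)
        exact subset_biUnion_of_mem (u := fun x => (T x : Set I)) hx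
    · intro x hx
      obtain ⟨n, hn⟩ := (hmemN x).1 hx
      exact mem_iUnion.2 ⟨n + 1, hD2 n x hn⟩
    · intro k π hπ c hc c' hc' j
      obtain ⟨n, hn⟩ := hstage k π hπ c hc
      refine (hmemN _).2 ⟨n + 1, AddSubgroup.subset_closure (Or.inr (Or.inl ?_))⟩
      simp only [mem_iUnion]
      exact ⟨k, _, hn, Or.inl ⟨c', hc', j, rfl⟩⟩
    · intro k π hπ c hc
      obtain ⟨n, hn⟩ := hstage k π hπ c hc
      refine (hmemN _).2 ⟨n + 1, AddSubgroup.subset_closure (Or.inr (Or.inl ?_))⟩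
      simp only [mem_iUnion]
      exact ⟨k, _, hn, Or.inr rfl⟩

end Exists

/-- Axiom 3 with respect to separable subgroups, from a good chain -/
theorem axiom3_of_chain {G : Type*} [AddCommGroup G] {I : Type*} [LinearOrder I]
    [WellFoundedLT I] {B : I → AddSubgroup G} (hB : ∀ i, IsFiniteRankButler (B i))
    (hBc : ∀ i, (B i : Set G).Countable) (htop : gen B univ = ⊤)
    (hpure : ∀ i, ∀ (n : ℕ) (x : G), n ≠ 0 → n • x ∈ gen B (Iio i) → x ∈ gen B (Iio i))
    (hfin : ∀ i, ∃ T : Set I, T.Finite ∧ ClosedSet B T ∧ i ∈ T)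
    {𝒟 : Set (Set HF)} (h𝒟 : GoodChain 𝒟) : SatisfiesAxiom3 G IsSeparableSubgroup := by
  classical
  obtain ⟨𝔡⟩ := exists_modelData G
  refine ⟨{H | ∃ 𝒩 : Set (AddSubgroup G), (∀ N ∈ 𝒩, ∃ D ∈ 𝒟, IsModel 𝔡 B N D) ∧ sSup 𝒩 = H},
    ?_, ⟨∅, by simp, by simp⟩, ?_, ?_⟩
  · rintro H ⟨𝒩, h𝒩, rfl⟩
    exact separable_of_models 𝔡 hB hBc htop hpure hfin h𝒟.chain h𝒟.countable
      h𝒟.exists_opClosed h𝒩
  · intro F hF
    have hF' : ∀ H ∈ F, ∃ 𝒩 : Set (AddSubgroup G),
        (∀ N ∈ 𝒩, ∃ D ∈ 𝒟, IsModel 𝔡 B N D) ∧ sSup 𝒩 = H := fun H hH => hF hH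
    choose! c hc1 hc2 using hF'
    refine ⟨⋃ H ∈ F, c H, ?_, ?_⟩
    · intro N hN
      simp only [mem_iUnion] at hN
      obtain ⟨H, hH, hN⟩ := hN
      exact hc1 H hH N hN
    · apply le_antisymm
      · refine sSup_le fun N hN => ?_
        simp only [mem_iUnion] at hN
        obtain ⟨H, hH, hN⟩ := hN
        exact (le_sSup hN).trans ((hc2 H hH).le.trans (le_sSup hH))
      · refine sSup_le fun H hH => ?_
        rw [← hc2 H hH]
        exact sSup_le_sSup (subset_biUnion_of_mem (u := c) hH)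
  · intro K hK
    obtain ⟨N, h1, h2, D, hD, hM⟩ := exists_model 𝔡 hBc htop hfin h𝒟 K hK
    exact ⟨N, ⟨{N}, by
      rintro N' rfl
      exact ⟨D, hD, hM⟩, by simp⟩, h2, h1⟩

end Pool.Agent.MP_d611d8_al
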