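import Mathlib
import Pool.Agent.MP_d611d8_al.Models

/-!
Under the continuum hypothesis there is a good chain of countable sets of height functions.
-/

namespace Pool.Agent.MP_d611d8_al

open Set Cardinal

lemma mk_HF_le : #HF ≤ (Cardinal.continuum : Cardinal.{0}) := by
  have h1 : #HF = #ℕ∞ ^ #Nat.Primes := by
    rw [Cardinal.power_def]
  have h2 : #ℕ∞ ≤ ℵ₀ := Cardinal.mk_le_aleph0
  have h3 : #Nat.Primes ≤ ℵ₀ := Cardinal.mk_le_aleph0
  calc #HF = #ℕ∞ ^ #Nat.Primes := h1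
    _ ≤ ℵ₀ ^ #Nat.Primes := Cardinal.power_le_power_right h2
    _ ≤ ℵ₀ ^ ℵ₀ := Cardinal.power_le_power_left Cardinal.aleph0_ne_zero h3
    _ = continuum := Cardinal.aleph0_power_aleph0

/-- under CH there is a good chain -/
theorem exists_goodChain (hCH : (Cardinal.aleph 1 : Cardinal.{0}) = Cardinal.continuum) :
    ∃ 𝒟 : Set (Set HF), GoodChain 𝒟 := by
  classical
  let T : Type := (Cardinal.aleph 1 : Cardinal.{0}).ord.ToType
  have hT : #T = Cardinal.aleph 1 := Cardinal.mk_ord_toType _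
  have hIio : ∀ t : T, (Iio t).Countable := by
    intro t
    have h : #(Iio t) < Cardinal.aleph 1 := by
      have := Cardinal.mk_Iio_lt t (by rw [hT]; exact (Ordinal.type_toType _).symm)
      rwa [hT] at this
    rw [← Cardinal.le_aleph0_iff_set_countable]
    exact Cardinal.lt_aleph_one_iff.1 h
  have hle : #HF ≤ #T := by
    rw [hT, hCH]
    exact mk_HF_le
  obtain ⟨φ⟩ := (Cardinal.le_def _ _).1 hle
  refine ⟨{D | ∃ L : Set T, L.Countable ∧ IsLowerSet L ∧ φ ⁻¹' L = D}, ?_, ?_, ?_, ?_⟩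
  · rintro _ ⟨L, -, hL, rfl⟩ _ ⟨L', -, hL', rfl⟩
    rcases hL.total hL' with h | h
    · exact Or.inl (preimage_mono h)
    · exact Or.inr (preimage_mono h)
  · rintro _ ⟨L, hL, -, rfl⟩
    exact hL.preimage φ.injective
  · intro C hC
    refine ⟨φ ⁻¹' (⋃ x ∈ C, Iic (φ x)), ⟨_, ?_, ?_, rfl⟩, ?_⟩
    · refine hC.biUnion fun x _ => ?_
      have : Iic (φ x) = insert (φ x) (Iio (φ x)) := Iio_insert.symm
      rw [this]
      exact (hIio _).insert _
    · exact isLowerSet_iUnion₂ fun x _ => isLowerSet_Iic _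
    · intro x hx
      simp only [mem_preimage, mem_iUnion]
      exact ⟨x, hx, mem_Iic.2 le_rfl⟩
  · intro s hs
    choose L h1 h2 h3 using hs
    refine ⟨⋃ n, L n, Set.countable_iUnion h1, isLowerSet_iUnion h2, ?_⟩
    rw [preimage_iUnion]
    exact iUnion_congr h3

end Pool.Agent.MP_d611d8_al
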