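import Mathlib
import Pool.Agent.MP_d611d8_al.Defs

/-!
Butler groups of type 1.
-/

namespace Pool.Agent.MP_d611d8_al

universe u

/-- Butler groups of type 1: torsion-free groups `G` such that every exact sequence
`0 → T → X → G → 0` with `T` torsion which is balanced-exact (every homomorphism from a torsion-free
group of rank one, that is, from a subgroup of `ℚ`, into `G` lifts to `X`) splits. -/
def IsButlerType1 (G : Type u) [AddCommGroup G] : Prop :=
  IsTorsionFreeGroup G ∧
  ∀ (X : Type u) [AddCommGroup X] (f : X →+ G), Function.Surjective f →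
    (∀ x : X, f x = 0 → ∃ n : ℕ, n ≠ 0 ∧ n • x = 0) →
    (∀ (R : AddSubgroup ℚ) (g : R →+ G), ∃ t : R →+ X, f.comp t = g) →
    ∃ s : G →+ X, f.comp s = AddMonoidHom.id G

end Pool.Agent.MP_d611d8_al
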