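import Mathlib

/-!
Localizations of the integers inside the rationals.
-/

namespace Pool.Agent.MP_d611d8_al

/-- the rationals whose denominator is prime to `p` -/
def Loc (p : ℕ) : Subring ℚ where
  carrier := {r | r.den.Coprime p}
  mul_mem' := by
    intro a b ha hb
    exact Nat.Coprime.coprime_dvd_left (Rat.mul_den_dvd a b) (Nat.Coprime.mul_left ha hb)
  one_mem' := by simp
  add_mem' := by
    intro a b ha hb
    exact Nat.Coprime.coprime_dvd_left (Rat.add_den_dvd a b) (Nat.Coprime.mul_left ha hb)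
  zero_mem' := by simp
  neg_mem' := by
    intro a ha
    simpa using ha

lemma mem_Loc {p : ℕ} {r : ℚ} : r ∈ Loc p ↔ r.den.Coprime p := Iff.rfl

lemma inv_mem_Loc {p k : ℕ} (h : k.Coprime p) : ((k : ℚ)⁻¹) ∈ Loc p := by
  rw [mem_Loc, Rat.inv_natCast_den]
  split_ifs with h0
  · exact Nat.coprime_one_left p
  · exact h

lemma inv_pow_mem_Loc {p q : ℕ} (hp : p.Prime) (hq : q.Prime) (h : q ≠ p) (n : ℕ) :
    (((q : ℚ) ^ n)⁻¹) ∈ Loc p := by
  have : ((q : ℚ) ^ n) = ((q ^ n : ℕ) : ℚ) := by push_cast; rfl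
  rw [this]
  refine inv_mem_Loc (Nat.Coprime.pow_left n ?_)
  exact (Nat.coprime_primes hq hp).2 h

/-- an element infinitely divisible in `Loc p` is zero -/
lemma eq_zero_of_forall_Loc {p : ℕ} (hp : p.Prime) {r : ℚ}
    (h : ∀ n : ℕ, ((p : ℚ) ^ n)⁻¹ * r ∈ Loc p) : r = 0 := by
  have hp0 : (p : ℚ) ≠ 0 := Nat.cast_ne_zero.2 hp.ne_zero
  have key : ∀ n : ℕ, ((p ^ n : ℕ) : ℤ) ∣ r.num := by
    intro n
    set s := ((p : ℚ) ^ n)⁻¹ * r with hs
    have hsn := h n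
    rw [← hs, mem_Loc] at hsn
    have h1 : r = (p : ℚ) ^ n * s := by
      rw [hs, ← mul_assoc, mul_inv_cancel₀ (pow_ne_zero n hp0), one_mul]
    have h2 : (r.num : ℚ) * s.den = (p : ℚ) ^ n * s.num * r.den := by
      have e1 : (r.num : ℚ) = r * r.den := (Rat.mul_den_eq_num r).symm
      have e2 : (s.num : ℚ) = s * s.den := (Rat.mul_den_eq_num s).symm
      rw [e1, e2]
      rw [h1]
      ring
    have h3 : r.num * (s.den : ℤ) = (p : ℤ) ^ n * s.num * r.den := by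
      exact_mod_cast h2
    have h4 : ((p ^ n : ℕ) : ℤ) ∣ r.num * (s.den : ℤ) := by
      rw [h3]
      push_cast
      exact Dvd.intro _ (mul_assoc _ _ _).symm
    have h5 : IsCoprime ((p ^ n : ℕ) : ℤ) (s.den : ℤ) := by
      rw [Nat.isCoprime_iff_coprime]
      exact Nat.Coprime.pow_left n (Nat.coprime_comm.1 hsn)
    exact h5.dvd_of_dvd_mul_right h4
  by_contra hr
  have hnum : r.num ≠ 0 := Rat.num_ne_zero.2 hr
  have h6 := key r.num.natAbs
  have h7 : (p ^ r.num.natAbs) ∣ r.num.natAbs := by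
    rw [← Int.natCast_dvd]
    exact h6
  have h8 := Nat.le_of_dvd (Int.natAbs_pos.2 hnum) h7
  exact absurd (Nat.lt_pow_self hp.one_lt : r.num.natAbs < p ^ r.num.natAbs) (not_lt.2 h8)

/-- partial fractions at `2` -/
lemma exists_two_part (r : ℚ) : ∃ b : ℚ, b + r ∈ Loc 2 ∧ ∀ q : ℕ, q.Prime → q ≠ 2 → b ∈ Loc q := by
  obtain ⟨k, m, hm, hkm⟩ := Nat.exists_eq_two_pow_mul_odd r.den_nz
  have hcop : Nat.Coprime m (2 ^ k) := (Nat.Coprime.pow_right k (Nat.coprime_two_right.2 hm))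
  have hb := Nat.gcd_eq_gcd_ab m (2 ^ k)
  rw [hcop] at hb
  set x := Nat.gcdA m (2 ^ k) with hx
  set y := Nat.gcdB m (2 ^ k) with hy
  have hb' : (1 : ℚ) = m * x + (2 : ℚ) ^ k * y := by
    have : ((1 : ℕ) : ℤ) = (m : ℤ) * x + ((2 ^ k : ℕ) : ℤ) * y := hb
    have h2 := congrArg (fun z : ℤ => (z : ℚ)) this
    push_cast at h2
    exact h2
  have hm0 : (m : ℚ) ≠ 0 := by
    rintro h
    have : m = 0 := by exact_mod_cast h
    rw [this] at hm
    exact absurd hm (by decide)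
  have h2k : ((2 : ℚ) ^ k) ≠ 0 := by positivity
  have hr : r = r.num * (((2 : ℚ) ^ k)⁻¹ * (m : ℚ)⁻¹) := by
    have e1 : (r.num : ℚ) = r * r.den := (Rat.mul_den_eq_num r).symm
    have e2 : (r.den : ℚ) = 2 ^ k * m := by
      rw [hkm]
      push_cast
      rfl
    rw [e1, e2]
    field_simp
  refine ⟨-(r.num * x * ((2 : ℚ) ^ k)⁻¹), ?_, ?_⟩
  · have : -((r.num : ℚ) * x * ((2 : ℚ) ^ k)⁻¹) + r = r.num * y * (m : ℚ)⁻¹ := by
      have h3 : r = r.num * (((2 : ℚ) ^ k)⁻¹ * (m : ℚ)⁻¹) * (m * x + (2 : ℚ) ^ k * y) := by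
        rw [← hb', mul_one]
        exact hr
      have h4 : (r.num : ℚ) * (((2 : ℚ) ^ k)⁻¹ * (m : ℚ)⁻¹) * (m * x + (2 : ℚ) ^ k * y) =
          r.num * ((2 : ℚ) ^ k)⁻¹ * x * ((m : ℚ)⁻¹ * m) +
            r.num * (m : ℚ)⁻¹ * y * (((2 : ℚ) ^ k)⁻¹ * (2 : ℚ) ^ k) := by ring
      rw [inv_mul_cancel₀ hm0, inv_mul_cancel₀ h2k] at h4
      rw [h4] at h3
      linear_combination h3
    rw [this]
    refine mul_mem (mul_mem (intCast_mem _ _) (intCast_mem _ _)) (inv_mem_Loc ?_)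
    exact Nat.coprime_two_right.2 hm
  · intro q hq hq2
    refine neg_mem (mul_mem (mul_mem (intCast_mem _ _) (intCast_mem _ _)) ?_)
    have := inv_pow_mem_Loc hq Nat.prime_two (Ne.symm hq2) k
    exact_mod_cast this

end Pool.Agent.MP_d611d8_al
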