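import Mathlib
import Pool.Agent.MP_d611d8_al.Heights
import Pool.Agent.MP_d611d8_al.Loc

/-!
The group `⟨h⟩ + ∑ (ℤ[χ i⁻¹] x i + ℤ[1/2] (x i - h))`.
-/

namespace Pool.Agent.MP_d611d8_al

open Set

universe u

section Ex

variable {I : Type u} (χ : I → Set ℕ)

lemma single_ne' {i j : I} (h : i ≠ j) (r : ℚ) : Finsupp.single i r j = 0 := by
  classical
  rw [Finsupp.single_apply, if_neg h]

/-- the sum of the coefficients -/
noncomputable def tot : (I →₀ ℚ) →ₗ[ℚ] ℚ := Finsupp.linearCombination ℚ (fun _ => (1 : ℚ))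

lemma tot_single (i : I) (r : ℚ) : tot (Finsupp.single i r) = r := by
  rw [tot, Finsupp.linearCombination_single]
  simp

/-- the group of the counterexample -/
noncomputable def exGrp : AddSubgroup (ℚ × (I →₀ ℚ)) where
  carrier := {x | x.1 + tot x.2 ∈ Loc 2 ∧
    ∀ p : ℕ, p.Prime → p ≠ 2 → x.1 ∈ Loc p ∧ ∀ i, p ∉ χ i → x.2 i ∈ Loc p}
  add_mem' := by
    rintro x y ⟨hx1, hx2⟩ ⟨hy1, hy2⟩
    refine ⟨?_, ?_⟩
    · have : (x + y).1 + tot (x + y).2 = (x.1 + tot x.2) + (y.1 + tot y.2) := by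
        rw [Prod.fst_add, Prod.snd_add, map_add]
        ring
      rw [this]
      exact add_mem hx1 hy1
    · intro p hp hp2
      refine ⟨add_mem (hx2 p hp hp2).1 (hy2 p hp hp2).1, fun i hi => ?_⟩
      exact add_mem ((hx2 p hp hp2).2 i hi) ((hy2 p hp hp2).2 i hi)
  zero_mem' := by
    refine ⟨?_, ?_⟩
    · simp [zero_mem]
    · intro p hp hp2
      exact ⟨zero_mem _, fun i _ => zero_mem _⟩
  neg_mem' := by
    rintro x ⟨hx1, hx2⟩
    refine ⟨?_, ?_⟩
    · have : (-x).1 + tot (-x).2 = -(x.1 + tot x.2) := by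
        rw [Prod.fst_neg, Prod.snd_neg, map_neg]
        ring
      rw [this]
      exact neg_mem hx1
    · intro p hp hp2
      refine ⟨neg_mem (hx2 p hp hp2).1, fun i hi => ?_⟩
      exact neg_mem ((hx2 p hp hp2).2 i hi)

variable {χ}

lemma mem_exGrp {x : ℚ × (I →₀ ℚ)} : x ∈ exGrp χ ↔ x.1 + tot x.2 ∈ Loc 2 ∧
    ∀ p : ℕ, p.Prime → p ≠ 2 → x.1 ∈ Loc p ∧ ∀ i, p ∉ χ i → x.2 i ∈ Loc p := Iff.rfl

lemma exGrp_torsionFree : IsTorsionFreeGroup (exGrp χ) := by
  intro n x hn h
  have h1 : n • (x : ℚ × (I →₀ ℚ)) = 0 := by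
    have := congrArg (fun y : exGrp χ => (y : ℚ × (I →₀ ℚ))) h
    simpa using this
  apply Subtype.ext
  exact (smul_eq_zero.1 h1).resolve_left hn

/-- the elements with support in `S` -/
def supp (S : Set I) : AddSubgroup (exGrp χ) where
  carrier := {x | ∀ i ∉ S, (x : ℚ × (I →₀ ℚ)).2 i = 0}
  add_mem' := by
    intro x y hx hy i hi
    have h1 := hx i hi
    have h2 := hy i hi
    simp [h1, h2]
  zero_mem' := by
    intro i _
    simp
  neg_mem' := by
    intro x hx i hi
    have h1 := hx i hi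
    simp [h1]

lemma mem_supp {S : Set I} {x : exGrp χ} :
    x ∈ supp S ↔ ∀ i ∉ S, (x : ℚ × (I →₀ ℚ)).2 i = 0 := Iff.rfl

lemma supp_mono {S S' : Set I} (h : S ⊆ S') : (supp S : AddSubgroup (exGrp χ)) ≤ supp S' :=
  fun _ hx i hi => hx i fun h' => hi (h h')

lemma supp_univ : (supp univ : AddSubgroup (exGrp χ)) = ⊤ := by
  rw [eq_top_iff]
  intro x _ i hi
  exact absurd (mem_univ i) hi

lemma supp_pure (S : Set I) {n : ℕ} (hn : n ≠ 0) {x : exGrp χ} (h : n • x ∈ supp S) :
    x ∈ supp S := by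
  intro i hi
  have h1 := h i hi
  have h2 : (n : ℚ) * (x : ℚ × (I →₀ ℚ)).2 i = 0 := by
    simpa using h1
  exact (mul_eq_zero.1 h2).resolve_left (Nat.cast_ne_zero.2 hn)

lemma supp_insert (S : Set I) (i : I) :
    (supp (insert i S) : AddSubgroup (exGrp χ)) = supp S ⊔ supp {i} := by
  apply le_antisymm
  · intro x hx
    by_cases hiS : i ∈ S
    · rw [insert_eq_of_mem hiS] at hx
      exact AddSubgroup.mem_sup_left hx
    obtain ⟨b, hb1, hb2⟩ := exists_two_part ((x : ℚ × (I →₀ ℚ)).2 i)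
    have hy : (b, Finsupp.single i ((x : ℚ × (I →₀ ℚ)).2 i)) ∈ exGrp χ := by
      rw [mem_exGrp]
      refine ⟨?_, fun p hp hp2 => ⟨hb2 p hp hp2, fun j hj => ?_⟩⟩
      · simp only [tot_single]
        exact hb1
      · rcases eq_or_ne i j with rfl | hij
        · simp only [Finsupp.single_eq_same]
          exact ((mem_exGrp.1 x.2).2 p hp hp2).2 i hj
        · simp only [single_ne' hij]
          exact zero_mem (Loc p)
    rw [AddSubgroup.mem_sup]
    refine ⟨x - ⟨_, hy⟩, ?_, ⟨_, hy⟩, ?_, by abel⟩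
    · intro j hj
      rcases eq_or_ne i j with rfl | hij
      · simp
      · have : (x : ℚ × (I →₀ ℚ)).2 j = 0 := hx j (by
          intro hj'
          rcases hj' with h | h
          · exact hij h.symm
          · exact hj h)
        simp [this, single_ne' hij]
    · intro j hj
      have hij : i ≠ j := fun h => hj h.symm
      simp [single_ne' hij]
  · refine sup_le (supp_mono (subset_insert _ _)) (supp_mono ?_)
    intro j hj
    exact Or.inl hj

/-- the rank one groups `ℤ[χ i⁻¹]` and `ℤ[1/2]` -/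
def exR (X : Set ℕ) : Fin 2 → AddSubgroup ℚ :=
  ![{ carrier := {r | ∀ p : ℕ, p.Prime → p ∉ X → r ∈ Loc p}
      add_mem' := fun ha hb p hp h => add_mem (ha p hp h) (hb p hp h)
      zero_mem' := fun _ _ _ => zero_mem _
      neg_mem' := fun ha p hp h => neg_mem (ha p hp h) },
    { carrier := {r | ∀ p : ℕ, p.Prime → p ≠ 2 → r ∈ Loc p}
      add_mem' := fun ha hb p hp h => add_mem (ha p hp h) (hb p hp h)
      zero_mem' := fun _ _ _ => zero_mem _
      neg_mem' := fun ha p hp h => neg_mem (ha p hp h) }]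

lemma mem_exR_zero {X : Set ℕ} {r : ℚ} : r ∈ exR X 0 ↔ ∀ p : ℕ, p.Prime → p ∉ X → r ∈ Loc p :=
  Iff.rfl

lemma mem_exR_one {X : Set ℕ} {r : ℚ} : r ∈ exR X 1 ↔ ∀ p : ℕ, p.Prime → p ≠ 2 → r ∈ Loc p :=
  Iff.rfl

/-- coordinates of elements supported at `i` -/
noncomputable def exCoord (i : I) : Fin 2 → (ℚ × (I →₀ ℚ) →+ ℚ) :=
  ![AddMonoidHom.fst ℚ (I →₀ ℚ) + (Finsupp.applyAddHom i).comp (AddMonoidHom.snd ℚ (I →₀ ℚ)),
    AddMonoidHom.fst ℚ (I →₀ ℚ)]

lemma exCoord_zero (i : I) (x : ℚ × (I →₀ ℚ)) : exCoord i 0 x = x.1 + x.2 i := rfl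

lemma exCoord_one (i : I) (x : ℚ × (I →₀ ℚ)) : exCoord i 1 x = x.1 := rfl

lemma eq_single_of_mem_supp {i : I} {x : exGrp χ} (hx : x ∈ supp {i}) :
    (x : ℚ × (I →₀ ℚ)).2 = Finsupp.single i ((x : ℚ × (I →₀ ℚ)).2 i) := by
  ext j
  rcases eq_or_ne i j with rfl | hij
  · simp
  · rw [single_ne' hij]
    exact hx j fun h => hij h.symm

lemma exCoord_mem (i : I) (x : (supp {i} : AddSubgroup (exGrp χ))) (k : Fin 2) :
    exCoord i k ((x : exGrp χ) : ℚ × (I →₀ ℚ)) ∈ exR (χ i) k := by
  obtain ⟨h3, h4⟩ := mem_exGrp.1 (x : exGrp χ).2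
  have h5 := eq_single_of_mem_supp x.2
  revert k
  rw [Fin.forall_fin_two]
  constructor
  · rw [mem_exR_zero, exCoord_zero]
    intro p hp hpχ
    rcases eq_or_ne p 2 with rfl | hp2
    · rw [h5, tot_single] at h3
      exact h3
    · exact add_mem (h4 p hp hp2).1 ((h4 p hp hp2).2 i hpχ)
  · rw [mem_exR_one, exCoord_one]
    intro p hp hp2
    exact (h4 p hp hp2).1

/-- the pieces are Butler groups of rank two -/
lemma supp_singleton_butler (h2 : ∀ i, 2 ∉ χ i) (i : I) :
    IsFiniteRankButler (supp {i} : AddSubgroup (exGrp χ)) := by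
  let f : (supp {i} : AddSubgroup (exGrp χ)) →+ ((k : Fin 2) → exR (χ i) k) :=
    { toFun := fun x k => ⟨exCoord i k ((x : exGrp χ) : ℚ × (I →₀ ℚ)), exCoord_mem i x k⟩
      map_zero' := by
        funext k
        apply Subtype.ext
        simp
      map_add' := by
        intro x y
        funext k
        apply Subtype.ext
        simp }
  have hf0 : ∀ x, ((f x 0 : exR (χ i) 0) : ℚ) = ((x : exGrp χ) : ℚ × (I →₀ ℚ)).1 +
      ((x : exGrp χ) : ℚ × (I →₀ ℚ)).2 i := fun x => rfl
  have hf1 : ∀ x, ((f x 1 : exR (χ i) 1) : ℚ) = ((x : exGrp χ) : ℚ × (I →₀ ℚ)).1 := fun x => rfl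
  refine ⟨2, exR (χ i), f, ?_, ?_⟩
  · intro x y hxy
    have e1 : ((x : exGrp χ) : ℚ × (I →₀ ℚ)).1 = ((y : exGrp χ) : ℚ × (I →₀ ℚ)).1 := by
      rw [← hf1, ← hf1, hxy]
    have e0 : ((x : exGrp χ) : ℚ × (I →₀ ℚ)).2 i = ((y : exGrp χ) : ℚ × (I →₀ ℚ)).2 i := by
      have := hf0 x
      rw [hxy, hf0 y, e1] at this
      exact (add_left_cancel this).symm
    apply Subtype.ext
    apply Subtype.ext
    apply Prod.ext e1
    rw [eq_single_of_mem_supp x.2, eq_single_of_mem_supp y.2, e0]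
  · have hsurj : Function.Surjective f := by
      intro y
      have hy0 := mem_exR_zero.1 (y 0).2
      have hy1 := mem_exR_one.1 (y 1).2
      have hmem : ((y 1 : ℚ), Finsupp.single i ((y 0 : ℚ) - (y 1 : ℚ))) ∈ exGrp χ := by
        rw [mem_exGrp]
        refine ⟨?_, fun p hp hp2 => ⟨hy1 p hp hp2, fun j hj => ?_⟩⟩
        · simp only [tot_single, add_sub_cancel]
          exact hy0 2 Nat.prime_two (h2 i)
        · rcases eq_or_ne i j with rfl | hij
          · simp only [Finsupp.single_eq_same]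
            exact sub_mem (hy0 p hp hj) (hy1 p hp hp2)
          · simp only [single_ne' hij]
            exact zero_mem (Loc p)
      refine ⟨⟨⟨_, hmem⟩, ?_⟩, ?_⟩
      · intro j hj
        have hij : i ≠ j := fun h => hj h.symm
        simp [single_ne' hij]
      · funext k
        apply Subtype.ext
        revert k
        rw [Fin.forall_fin_two]
        constructor
        · rw [hf0]
          simp
        · rw [hf1]
    refine isPureSubgroup_of_mem fun n x _ _ => ?_
    exact hsurj x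

/-- the group of the example is a Butler group of type 2 -/
theorem exGrp_type2 [Nonempty I] (h2 : ∀ i, 2 ∉ χ i) : IsButlerType2 (exGrp χ) := by
  classical
  refine ⟨exGrp_torsionFree, ?_⟩
  let r : I → I → Prop := WellOrderingRel
  let rk : I → Ordinal.{u} := fun i => Ordinal.typein r i
  have hrk_lt : ∀ i, rk i < Ordinal.type r := Ordinal.typein_lt_type r
  have hrk_inj : Function.Injective rk := Ordinal.typein_injective r
  have hrk_surj : ∀ α < Ordinal.type r, ∃ i, rk i = α := fun α hα => Ordinal.typein_surj r hα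
  let A : Ordinal.{u} → AddSubgroup (exGrp χ) := fun α =>
    if α = 0 then ⊥ else supp {i | rk i < α}
  have hA0 : A 0 = ⊥ := if_pos rfl
  have hA : ∀ α, α ≠ 0 → A α = supp {i | rk i < α} := fun α hα => if_neg hα
  have hle : ∀ α, A α ≤ supp {i | rk i < α} := by
    intro α
    rcases eq_or_ne α 0 with rfl | hα
    · rw [hA0]
      exact bot_le
    · exact (hA α hα).le
  obtain ⟨i0⟩ := ‹Nonempty I›
  have hκ0 : Ordinal.type r ≠ 0 := (lt_of_le_of_lt zero_le (hrk_lt i0)).ne'
  refine ⟨Ordinal.type r, A, hA0, ?_, ?_, ?_, ?_, ?_⟩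
  · rw [hA _ hκ0]
    have : {i | rk i < Ordinal.type r} = univ := by
      ext i
      exact ⟨fun _ => mem_univ _, fun _ => hrk_lt i⟩
    rw [this, supp_univ]
  · intro α β hαβ _
    rcases eq_or_ne α 0 with rfl | hα
    · rw [hA0]
      exact bot_le
    · have hβ : β ≠ 0 := (lt_of_lt_of_le (pos_iff_ne_zero.2 hα) hαβ).ne'
      rw [hA α hα, hA β hβ]
      exact supp_mono fun i (hi : rk i < α) => (lt_of_lt_of_le hi hαβ : rk i < β)
  · intro α _
    refine isPureSubgroup_of_mem fun n x hn hx => ?_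
    rcases eq_or_ne α 0 with rfl | hα
    · rw [hA0] at hx ⊢
      exact exGrp_torsionFree n x hn hx
    · rw [hA α hα] at hx ⊢
      exact supp_pure _ hn hx
  · intro α hα
    obtain ⟨i, hi⟩ := hrk_surj α hα
    refine ⟨supp {i}, supp_singleton_butler h2 i, ?_⟩
    have hins : {j | rk j < Order.succ α} = insert i {j | rk j < α} := by
      ext j
      simp only [Set.mem_ofPred_eq, mem_insert_iff, Order.lt_succ_iff]
      constructor
      · intro hj
        rcases hj.eq_or_lt with hj | hj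
        · exact Or.inl (hrk_inj (hj.trans hi.symm))
        · exact Or.inr hj
      · rintro (hj | hj)
        · rw [hj, hi]
        · exact hj.le
    rw [hA _ (Order.succ_ne_bot α), hins, supp_insert]
    rcases eq_or_ne α 0 with rfl | hα0
    · rw [hA0, bot_sup_eq]
      refine sup_eq_right.2 (supp_mono ?_)
      intro j (hj : rk j < 0)
      exact absurd hj (not_lt.2 zero_le)
    · rw [hA α hα0]
  · intro α _ hα
    have hα0 : α ≠ 0 := by
      rintro rfl
      exact hα.1 isMin_bot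
    rw [hA α hα0]
    apply le_antisymm
    · intro x hx
      -- the support is bounded
      have hex : ∃ β < α, β ≠ 0 ∧ ∀ j, (x : ℚ × (I →₀ ℚ)).2 j ≠ 0 → rk j < β := by
        have h1 : ∀ j ∈ (x : ℚ × (I →₀ ℚ)).2.support, Order.succ (rk j) < α := by
          intro j hj
          have hj' : rk j < α := by
            by_contra hcon
            exact (Finsupp.mem_support_iff.1 hj) (hx j hcon)
          exact hα.succ_lt hj'
        have h2 : (x : ℚ × (I →₀ ℚ)).2.support.sup (fun j => Order.succ (rk j)) < α :=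
          (Finset.sup_lt_iff (bot_lt_iff_ne_bot.2 hα0)).2 h1
        refine ⟨Order.succ ((x : ℚ × (I →₀ ℚ)).2.support.sup (fun j => Order.succ (rk j))),
          hα.succ_lt h2, Order.succ_ne_bot _, ?_⟩
        intro j hj
        have h3 : Order.succ (rk j) ≤ (x : ℚ × (I →₀ ℚ)).2.support.sup
            (fun j => Order.succ (rk j)) :=
          Finset.le_sup (f := fun j => Order.succ (rk j)) (Finsupp.mem_support_iff.2 hj)
        exact lt_of_lt_of_le (Order.lt_succ (rk j)) (h3.trans (Order.le_succ _))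
      obtain ⟨β, hβ, hβ0, hj⟩ := hex
      have hxβ : x ∈ A β := by
        rw [hA β hβ0]
        intro j hjn
        by_contra hcon
        exact hjn (hj j hcon)
      exact (le_biSup A (i := β) (s := Set.Iio α) hβ) hxβ
    · refine iSup₂_le fun β hβ => ?_
      exact (hle β).trans (supp_mono fun i (hi : rk i < β) => (lt_trans hi hβ : rk i < α))

end Ex

end Pool.Agent.MP_d611d8_al
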