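import Mathlib
import Pool.Agent.MP_d611d8_al.Example

/-!
The group of the example does not satisfy Axiom 3 with respect to separable subgroups if
`I` has more than `ℵ₁` elements.
-/

namespace Pool.Agent.MP_d611d8_al

open Set

universe u

section Ex

variable {I : Type u} {χ : I → Set ℕ}

/-- the element `x i` -/
noncomputable def exX (i : I) : exGrp χ := ⟨((0 : ℚ), Finsupp.single i (1 : ℚ)), by
  rw [mem_exGrp]
  refine ⟨?_, fun p hp hp2 => ⟨zero_mem _, fun j hj => ?_⟩⟩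
  · simp only [tot_single, zero_add]
    exact one_mem _
  · rcases eq_or_ne i j with rfl | hij
    · simp only [Finsupp.single_eq_same]
      exact one_mem _
    · simp only [single_ne' hij]
      exact zero_mem (Loc p)⟩

lemma coe_exX (i : I) : ((exX i : exGrp χ) : ℚ × (I →₀ ℚ)) = (0, Finsupp.single i 1) := rfl

lemma pDiv_exX_sub {μ ν : I} {p : ℕ} (hp : p.Prime) (h : p = 2 ∨ p ∈ χ μ ∩ χ ν) (n : ℕ) :
    PDiv (p ^ n) (exX μ - exX ν : exGrp χ) := by
  have hp0 : ((p : ℚ) ^ n) ≠ 0 := pow_ne_zero n (Nat.cast_ne_zero.2 hp.ne_zero)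
  have hmem : ((0 : ℚ), ((p : ℚ) ^ n)⁻¹ • (Finsupp.single μ (1 : ℚ) - Finsupp.single ν (1 : ℚ))) ∈
      exGrp χ := by
    rw [mem_exGrp]
    refine ⟨?_, fun q hq hq2 => ⟨zero_mem _, fun j hj => ?_⟩⟩
    · simp only [map_smul, map_sub, tot_single, sub_self, smul_zero, zero_add]
      exact zero_mem _
    · simp only [Finsupp.smul_apply, Finsupp.sub_apply, smul_eq_mul]
      by_cases hqp : p = q
      · subst hqp
        rcases h with h | h
        · exact absurd h hq2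
        · have h1 : μ ≠ j := by
            rintro rfl
            exact hj h.1
          have h2 : ν ≠ j := by
            rintro rfl
            exact hj h.2
          rw [single_ne' h1, single_ne' h2, sub_zero, mul_zero]
          exact zero_mem (Loc p)
      · refine mul_mem (inv_pow_mem_Loc hq hp hqp n) (sub_mem ?_ ?_)
        · rcases eq_or_ne μ j with rfl | hij
          · simp only [Finsupp.single_eq_same]
            exact one_mem _
          · simp only [single_ne' hij]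
            exact zero_mem (Loc q)
        · rcases eq_or_ne ν j with rfl | hij
          · simp only [Finsupp.single_eq_same]
            exact one_mem _
          · simp only [single_ne' hij]
            exact zero_mem (Loc q)
  refine ⟨⟨_, hmem⟩, ?_⟩
  apply Subtype.ext
  apply Prod.ext
  · simp [coe_exX]
  · ext j
    simp only [AddSubgroup.coe_nsmul, AddSubgroup.coe_sub, coe_exX, Prod.smul_snd, Prod.snd_sub,
      Finsupp.smul_apply, Finsupp.sub_apply, smul_eq_mul, nsmul_eq_mul, Nat.cast_pow]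
    rw [← mul_assoc, mul_inv_cancel₀ hp0, one_mul]

/-- what infinite height means -/
lemma tot_eq_zero_of_pDiv {y : exGrp χ} (h : ∀ n, PDiv (2 ^ n) y) :
    (y : ℚ × (I →₀ ℚ)).1 + tot (y : ℚ × (I →₀ ℚ)).2 = 0 := by
  refine eq_zero_of_forall_Loc Nat.prime_two fun n => ?_
  obtain ⟨z, rfl⟩ := h n
  have hz := (mem_exGrp.1 z.2).1
  have h2 : ((2 : ℚ) ^ n) ≠ 0 := by positivity
  have : ((2 : ℕ) : ℚ) ^ n = (2 : ℚ) ^ n := by norm_num
  have e : (((2 : ℕ) : ℚ) ^ n)⁻¹ * (((2 ^ n • z : exGrp χ) : ℚ × (I →₀ ℚ)).1 +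
      tot ((2 ^ n • z : exGrp χ) : ℚ × (I →₀ ℚ)).2) =
      (z : ℚ × (I →₀ ℚ)).1 + tot (z : ℚ × (I →₀ ℚ)).2 := by
    rw [this, AddSubgroup.coe_nsmul, Prod.smul_fst, Prod.smul_snd, map_nsmul, nsmul_eq_mul,
      nsmul_eq_mul, ← mul_add, Nat.cast_pow, this, ← mul_assoc, inv_mul_cancel₀ h2, one_mul]
  rw [e]
  exact hz

lemma fst_eq_zero_of_pDiv {y : exGrp χ} {p : ℕ} (hp : p.Prime) (hp2 : p ≠ 2)
    (h : ∀ n, PDiv (p ^ n) y) : (y : ℚ × (I →₀ ℚ)).1 = 0 := by
  refine eq_zero_of_forall_Loc hp fun n => ?_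
  obtain ⟨z, rfl⟩ := h n
  have hz := ((mem_exGrp.1 z.2).2 p hp hp2).1
  have hp0 : ((p : ℚ) ^ n) ≠ 0 := pow_ne_zero n (Nat.cast_ne_zero.2 hp.ne_zero)
  have e : ((p : ℚ) ^ n)⁻¹ * ((p ^ n • z : exGrp χ) : ℚ × (I →₀ ℚ)).1 =
      (z : ℚ × (I →₀ ℚ)).1 := by
    rw [AddSubgroup.coe_nsmul, Prod.smul_fst, nsmul_eq_mul, Nat.cast_pow, ← mul_assoc,
      inv_mul_cancel₀ hp0, one_mul]
  rw [e]
  exact hz

lemma snd_eq_zero_of_pDiv {y : exGrp χ} {p : ℕ} (hp : p.Prime) (hp2 : p ≠ 2)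
    (h : ∀ n, PDiv (p ^ n) y) {i : I} (hi : p ∉ χ i) : (y : ℚ × (I →₀ ℚ)).2 i = 0 := by
  refine eq_zero_of_forall_Loc hp fun n => ?_
  obtain ⟨z, rfl⟩ := h n
  have hz := ((mem_exGrp.1 z.2).2 p hp hp2).2 i hi
  have hp0 : ((p : ℚ) ^ n) ≠ 0 := pow_ne_zero n (Nat.cast_ne_zero.2 hp.ne_zero)
  have e : ((p : ℚ) ^ n)⁻¹ * ((p ^ n • z : exGrp χ) : ℚ × (I →₀ ℚ)).2 i =
      (z : ℚ × (I →₀ ℚ)).2 i := by
    rw [AddSubgroup.coe_nsmul, Prod.smul_snd, Finsupp.smul_apply, nsmul_eq_mul, Nat.cast_pow,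
      ← mul_assoc, inv_mul_cancel₀ hp0, one_mul]
  rw [e]
  exact hz

/-- the hypothesis on the family of sets of primes -/
structure GoodFamily (χ : I → Set ℕ) : Prop where
  prime : ∀ i, ∀ p ∈ χ i, p.Prime
  two : ∀ i, 2 ∉ χ i
  exists_mem : ∀ i j k, k ≠ i → k ≠ j → ∃ p ∈ χ i ∩ χ j, p ∉ χ k

lemma eq_neg_of_heightSeq_le (hχ : GoodFamily χ) {μ ν k : I} (hμν : μ ≠ ν) (hkμ : k ≠ μ)
    (hkν : k ≠ ν) {x : exGrp χ} (hx : (x : ℚ × (I →₀ ℚ)).2 μ = 0)
    (h : heightSeq (exX μ - exX ν : exGrp χ) ≤ heightSeq (exX μ + x)) : x = -exX ν := by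
  have hdiv : ∀ p : ℕ, p.Prime → (p = 2 ∨ p ∈ χ μ ∩ χ ν) → ∀ n, PDiv (p ^ n) (exX μ + x) := by
    intro p hp h' n
    have h1 := h ⟨p, hp⟩
    have h2 : (n : ℕ∞) ≤ pHeight p (exX μ - exX ν : exGrp χ) :=
      le_pHeight_iff.2 (pDiv_exX_sub hp h' n)
    exact le_pHeight_iff.1 (h2.trans h1)
  have htot := tot_eq_zero_of_pDiv (hdiv 2 Nat.prime_two (Or.inl rfl))
  obtain ⟨p, hp, -⟩ := hχ.exists_mem μ ν k hkμ hkν
  have hpp := hχ.prime μ p hp.1
  have hp2 : p ≠ 2 := by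
    rintro rfl
    exact hχ.two μ hp.1
  have hfst := fst_eq_zero_of_pDiv hpp hp2 (hdiv p hpp (Or.inr hp))
  have hx1 : (x : ℚ × (I →₀ ℚ)).1 = 0 := by
    simpa [coe_exX] using hfst
  have hxi : ∀ i, i ≠ ν → (x : ℚ × (I →₀ ℚ)).2 i = 0 := by
    intro i hi
    rcases eq_or_ne i μ with rfl | hiμ
    · exact hx
    · obtain ⟨q, hq, hqi⟩ := hχ.exists_mem μ ν i hiμ hi
      have hqp := hχ.prime μ q hq.1
      have hq2 : q ≠ 2 := by
        rintro rfl
        exact hχ.two μ hq.1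
      have := snd_eq_zero_of_pDiv hqp hq2 (hdiv q hqp (Or.inr hq)) hqi
      simpa [coe_exX, single_ne' hiμ.symm] using this
  have hx2 : (x : ℚ × (I →₀ ℚ)).2 = Finsupp.single ν ((x : ℚ × (I →₀ ℚ)).2 ν) := by
    ext i
    rcases eq_or_ne ν i with rfl | hi
    · simp
    · rw [single_ne' hi]
      exact hxi i hi.symm
  have hxν : (x : ℚ × (I →₀ ℚ)).2 ν = -1 := by
    have h3 : ((exX μ + x : exGrp χ) : ℚ × (I →₀ ℚ)) = ((x : ℚ × (I →₀ ℚ)).1,
        Finsupp.single μ 1 + Finsupp.single ν ((x : ℚ × (I →₀ ℚ)).2 ν)) := by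
      rw [AddSubgroup.coe_add, coe_exX, ← hx2]
      apply Prod.ext
      · simp
      · simp
    rw [h3] at htot
    simp only [hx1, map_add, tot_single, zero_add] at htot
    linarith
  apply Subtype.ext
  apply Prod.ext
  · rw [hx1]
    simp [coe_exX]
  · rw [hx2, hxν]
    simp [coe_exX]

/-- no Axiom 3 -/
theorem exGrp_not_axiom3 (hχ : GoodFamily χ) (hI : Cardinal.aleph 1 < Cardinal.mk I) :
    ¬ SatisfiesAxiom3 (exGrp χ) IsSeparableSubgroup := by
  classical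
  rintro ⟨C, hsep, -, hsum, hcount⟩
  have hH : ∀ i : I, ∃ H ∈ C, (H : Set (exGrp χ)).Countable ∧ exX i ∈ H := by
    intro i
    obtain ⟨H, hHC, hHc, hle⟩ := hcount (AddSubgroup.zmultiples (exX i : exGrp χ)) (by
      have : Countable (AddSubgroup.zmultiples (exX i : exGrp χ)) := by
        infer_instance
      exact Set.countable_coe_iff.1 this)
    exact ⟨H, hHC, hHc, hle (AddSubgroup.mem_zmultiples _)⟩
  choose H hHC hHc hHx using hH
  obtain ⟨Y, hY⟩ := Cardinal.le_mk_iff_exists_set.1 hI.le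
  -- the union of the supports
  let S : Set I := ⋃ i ∈ Y, ⋃ x ∈ (H i : Set (exGrp χ)),
    ((x : ℚ × (I →₀ ℚ)).2.support : Set I)
  have hS : Cardinal.mk S ≤ Cardinal.aleph 1 := by
    have h1 : ∀ i ∈ Y, Cardinal.mk (⋃ x ∈ (H i : Set (exGrp χ)),
        ((x : ℚ × (I →₀ ℚ)).2.support : Set I) : Set I) ≤ Cardinal.aleph0 := by
      intro i _
      rw [Cardinal.le_aleph0_iff_set_countable]
      exact (hHc i).biUnion fun x _ => Finset.countable_toSet _
    refine (Cardinal.mk_biUnion_le _ _).trans ?_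
    have h2 : (⨆ i : Y, Cardinal.mk (⋃ x ∈ (H (i : I) : Set (exGrp χ)),
        ((x : ℚ × (I →₀ ℚ)).2.support : Set I) : Set I)) ≤ Cardinal.aleph0 :=
      ciSup_le' fun i => h1 i i.2
    rw [hY]
    refine (mul_le_mul_right h2 _).trans ?_
    rw [Cardinal.mul_eq_left (Cardinal.aleph0_le_aleph 1)
      (Cardinal.aleph0_le_aleph 1) Cardinal.aleph0_ne_zero]
  have hHS : ∀ i ∈ Y, H i ≤ supp S := by
    intro i hi x hx j hj
    by_contra hcon
    apply hj
    simp only [S, mem_iUnion]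
    exact ⟨i, hi, x, hx, Finsupp.mem_support_iff.2 hcon⟩
  have hex : ∃ μ, μ ∉ S := by
    by_contra hcon
    push Not at hcon
    have : S = univ := eq_univ_of_forall hcon
    rw [this, Cardinal.mk_univ] at hS
    exact absurd hI (not_lt.2 hS)
  obtain ⟨μ, hμ⟩ := hex
  -- the sum
  have hsumC : sSup (H '' Y) ∈ C := hsum _ (by
    rintro _ ⟨i, _, rfl⟩
    exact hHC i)
  obtain ⟨h, hh1, hh2⟩ := hsep _ hsumC (exX μ)
  have hle : sSup (H '' Y) ≤ supp S := sSup_le (by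
    rintro _ ⟨i, hi, rfl⟩
    exact hHS i hi)
  have hYμ : ∀ i ∈ Y, i ≠ μ := by
    rintro i hi rfl
    apply hμ
    simp only [S, mem_iUnion]
    refine ⟨i, hi, exX i, hHx i, ?_⟩
    simp [coe_exX]
  have hYnc : ¬ Y.Countable := by
    rw [← Cardinal.le_aleph0_iff_set_countable, hY, not_le]
    exact Cardinal.aleph0_lt_aleph_one
  have hn : ∀ i ∈ Y, ∃ n, h n = -exX i := by
    intro i hi
    have hmem : -exX i ∈ sSup (H '' Y) := neg_mem (le_sSup (mem_image_of_mem H hi) (hHx i))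
    obtain ⟨n, hn⟩ := hh2 _ hmem
    obtain ⟨k, hkY, hki⟩ : ∃ k ∈ Y, k ≠ i := by
      by_contra hcon
      push Not at hcon
      apply hYnc
      exact (Set.countable_singleton i).mono fun k hk => hcon k hk
    refine ⟨n, ?_⟩
    rw [← sub_eq_add_neg] at hn
    exact eq_neg_of_heightSeq_le hχ (hYμ i hi).symm (hYμ k hkY) hki
      (hle (hh1 n) μ hμ) hn
  choose! n hn using hn
  have hinj : InjOn n Y := by
    intro i hi j hj hij
    have h1 := hn i hi
    rw [hij, hn j hj] at h1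
    have h2 : (exX j : exGrp χ) = exX i := neg_injective h1
    have h3 := congrArg (fun y : exGrp χ => (y : ℚ × (I →₀ ℚ)).2) h2
    simp only [coe_exX] at h3
    exact (Finsupp.single_left_injective (one_ne_zero) h3).symm
  have hYc : Y.Countable := Set.MapsTo.countable_of_injOn (fun i _ => mem_univ (n i)) hinj
    Set.countable_univ
  exact hYnc hYc

end Ex

end Pool.Agent.MP_d611d8_al
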