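import Mathlib
import Pool.Agent.MP_d611d8_al.NotAxiom3

/-!
A family of `2^ℵ₀` sets of primes such that the intersection of two of them is not contained in a
third one.
-/

namespace Pool.Agent.MP_d611d8_al

open Set

universe u

/-- codes -/
abbrev Code : Type := (n : ℕ) × (Fin n → Bool) × (Fin n → Bool)

theorem exists_goodFamily : ∃ χ : ULift.{u} (ℕ → Bool) → Set ℕ, GoodFamily χ := by
  obtain ⟨e, he⟩ := Countable.exists_injective_nat Code
  let P : Code → ℕ := fun c => Nat.nth Nat.Prime (e c + 1)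
  have hinj : Function.Injective (Nat.nth Nat.Prime) := Nat.nth_injective Nat.infinite_setOfPred_prime
  have hPinj : Function.Injective P := fun c c' h => he (Nat.succ_injective (hinj h))
  have hPprime : ∀ c, (P c).Prime := fun c => Nat.prime_nth_prime _
  have hP2 : ∀ c, P c ≠ 2 := by
    intro c h
    rw [← Nat.nth_prime_zero_eq_two] at h
    exact absurd (hinj h) (Nat.succ_ne_zero _)
  refine ⟨fun f => {p | ∃ c : Code, P c = p ∧
    ((∀ i : Fin c.1, f.down i = c.2.1 i) ∨ (∀ i : Fin c.1, f.down i = c.2.2 i))}, ?_, ?_, ?_⟩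
  · rintro f p ⟨c, rfl, -⟩
    exact hPprime c
  · rintro f ⟨c, hc, -⟩
    exact hP2 c hc
  · intro f g h hf hg
    have h1 : ∃ m, h.down m ≠ f.down m := by
      by_contra hcon
      push Not at hcon
      exact hf (ULift.ext _ _ (funext hcon))
    have h2 : ∃ m, h.down m ≠ g.down m := by
      by_contra hcon
      push Not at hcon
      exact hg (ULift.ext _ _ (funext hcon))
    obtain ⟨a, ha⟩ := h1
    obtain ⟨b, hb⟩ := h2
    let c : Code := ⟨max a b + 1, fun i => f.down i, fun i => g.down i⟩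
    refine ⟨P c, ⟨⟨c, rfl, Or.inl fun i => rfl⟩, ⟨c, rfl, Or.inr fun i => rfl⟩⟩, ?_⟩
    rintro ⟨c', hc', hh⟩
    have := hPinj hc'
    subst this
    rcases hh with hh | hh
    · exact ha (hh ⟨a, by
        show a < max a b + 1
        omega⟩)
    · exact hb (hh ⟨b, by
        show b < max a b + 1
        omega⟩)

/-- the negative direction -/
theorem exists_type2_not_axiom3 (h : (Cardinal.aleph 1 : Cardinal.{0}) < Cardinal.continuum) :
    ∃ (G : Type u) (_ : AddCommGroup G), IsButlerType2 G ∧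
      ¬ SatisfiesAxiom3 G IsSeparableSubgroup := by
  obtain ⟨χ, hχ⟩ := exists_goodFamily.{u}
  refine ⟨exGrp χ, inferInstance, exGrp_type2 hχ.two, exGrp_not_axiom3 hχ ?_⟩
  rw [Cardinal.mk_uLift]
  have h1 : Cardinal.mk (ℕ → Bool) = Cardinal.continuum := by simp
  rw [h1]
  have h2 := Cardinal.lift_lt.{0, u}.2 h
  rwa [Cardinal.lift_aleph, Ordinal.lift_one] at h2

end Pool.Agent.MP_d611d8_al
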