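import Mathlib
import Pool.Agent.MP_d611d8_al.CH

/-!
Butler groups of type 2 as filtered unions; the positive direction.
-/

namespace Pool.Agent.MP_d611d8_al

open Set

universe u

lemma exists_finite_control {B : Type*} [AddCommGroup B] (hB : IsFiniteRankButler B)
    (K : AddSubgroup B) : ∃ a : Set B, a.Finite ∧ a ⊆ (K : Set B) ∧
      ∀ x ∈ K, ∃ n : ℕ, n ≠ 0 ∧ n • x ∈ AddSubgroup.closure a := by
  classical
  obtain ⟨r, R, f, hf, -⟩ := hB
  have hfg : (Submodule.span ℚ (coe' '' (f '' (K : Set B)))).FG := IsNoetherian.noetherian _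
  obtain ⟨s, hs, hspan⟩ := (Submodule.fg_span_iff_fg_span_finset_subset _).1 hfg
  have hs' : ∀ v ∈ (s : Set (Fin r → ℚ)), ∃ x ∈ K, coe' (f x) = v := by
    intro v hv
    obtain ⟨_, ⟨x, hx, rfl⟩, rfl⟩ := hs hv
    exact ⟨x, hx, rfl⟩
  choose! c hc1 hc2 using hs'
  refine ⟨c '' (s : Set (Fin r → ℚ)), s.finite_toSet.image c, ?_, ?_⟩
  · rintro _ ⟨v, hv, rfl⟩
    exact hc1 v hv
  · intro x hx
    let E : AddSubgroup ((i : Fin r) → R i) :=
      (AddSubgroup.closure (c '' (s : Set (Fin r → ℚ)))).map f
    have hmem : coe' (f x) ∈ Submodule.span ℚ (coe' '' (E : Set ((i : Fin r) → R i))) := by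
      have h1 : coe' (f x) ∈ Submodule.span ℚ (coe' '' (f '' (K : Set B))) :=
        Submodule.subset_span ⟨_, ⟨x, hx, rfl⟩, rfl⟩
      rw [hspan] at h1
      refine Submodule.span_mono ?_ h1
      intro v hv
      refine ⟨f (c v), ⟨c v, AddSubgroup.subset_closure ⟨v, hv, rfl⟩, rfl⟩, hc2 v hv⟩
    obtain ⟨m, hm, y, ⟨z, hz, hzy⟩, hmy⟩ := exists_multiple E hmem
    refine ⟨m, hm, ?_⟩
    have : f (m • x) = f z := by
      rw [hzy, map_nsmul]
      funext i
      apply Subtype.ext
      have := congrFun hmy i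
      simpa [coe'] using this
    rw [hf this]
    exact hz

lemma IsFiniteRankButler.countable {B : Type*} [AddCommGroup B] (hB : IsFiniteRankButler B) :
    Countable B := by
  obtain ⟨r, R, f, hf, -⟩ := hB
  exact hf.countable

/-- the families attached to Butler groups of type 2 -/
theorem IsButlerType2.exists_family {G : Type u} [AddCommGroup G] (h : IsButlerType2 G) :
    ∃ (I : Type (u + 1)) (_ : LinearOrder I) (_ : WellFoundedLT I) (B : I → AddSubgroup G),
      (∀ i, IsFiniteRankButler (B i)) ∧ gen B univ = ⊤ ∧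
      (∀ i, ∀ (n : ℕ) (x : G), n ≠ 0 → n • x ∈ gen B (Iio i) → x ∈ gen B (Iio i)) := by
  classical
  obtain ⟨htf, κ, A, h0, hκ, hmono, hpure, hstep, hlim⟩ := h
  choose B hB1 hB2 using hstep
  let B' : Set.Iio κ → AddSubgroup G := fun i => B i.1 i.2
  have key : ∀ α : Ordinal.{u}, α ≤ κ → A α = gen B' {i | i.1 < α} := by
    intro α
    induction α using WellFoundedLT.induction with
    | ind α ih =>
      intro hα
      rcases Ordinal.zero_or_succ_or_isSuccLimit α with h | ⟨β, rfl⟩ | h
      · subst h
        have : {i : Set.Iio κ | i.1 < 0} = ∅ := by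
          ext i
          simp
        rw [this, gen_empty, h0]
      · have hβ : β < κ := Order.succ_le_iff.1 hα
        rw [hB2 β hβ, ih β (Order.lt_succ β) hβ.le]
        have : {i : Set.Iio κ | i.1 < Order.succ β} = insert ⟨β, hβ⟩ {i | i.1 < β} := by
          ext i
          simp only [Set.mem_ofPred_eq, mem_insert_iff, Order.lt_succ_iff]
          constructor
          · intro hi
            rcases hi.eq_or_lt with hi | hi
            · exact Or.inl (Subtype.ext hi)
            · exact Or.inr hi
          · rintro (hi | hi)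
            · rw [hi]
            · exact hi.le
        rw [this, gen_insert, sup_comm]
      · rw [hlim α hα h]
        have : {i : Set.Iio κ | i.1 < α} = ⋃ β ∈ Set.Iio α, {i : Set.Iio κ | i.1 < β} := by
          ext i
          simp only [Set.mem_ofPred_eq, mem_iUnion, mem_Iio, exists_prop]
          constructor
          · intro hi
            exact ⟨Order.succ i.1, h.succ_lt hi, Order.lt_succ _⟩
          · rintro ⟨β, h1, h2⟩
            exact h2.trans h1
        rw [this, gen_iUnion]
        refine iSup_congr fun β => ?_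
        rw [gen_iUnion]
        refine iSup_congr fun hβ => ?_
        exact ih β hβ (le_trans (le_of_lt hβ) hα)
  refine ⟨Set.Iio κ, inferInstance, inferInstance, B', fun i => hB1 i.1 i.2, ?_, ?_⟩
  · have : (univ : Set (Set.Iio κ)) = {i | i.1 < κ} := by
      ext i
      exact ⟨fun _ => i.2, fun _ => mem_univ _⟩
    rw [this, ← key κ le_rfl, hκ]
  · intro i n x hn hx
    have hi : gen B' (Iio i) = A i.1 := by
      rw [key i.1 (le_of_lt i.2)]
      rfl
    rw [hi] at hx ⊢
    exact (hpure i.1 (le_of_lt i.2)).mem htf hn hx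

/-- finite closures in the filtered situation -/
lemma exists_finite_closed_of_butler {G : Type*} [AddCommGroup G] {I : Type*} [LinearOrder I]
    [WellFoundedLT I] {B : I → AddSubgroup G} (hB : ∀ i, IsFiniteRankButler (B i))
    (htop : gen B univ = ⊤)
    (hpure : ∀ i, ∀ (n : ℕ) (x : G), n ≠ 0 → n • x ∈ gen B (Iio i) → x ∈ gen B (Iio i)) (i : I) :
    ∃ T : Set I, T.Finite ∧ ClosedSet B T ∧ i ∈ T := by
  have := exists_finite_closed (B := B) (fun i => ?_) i
  · obtain ⟨T, h1, h2, h3, -⟩ := this
    exact ⟨T, h1, h2, h3⟩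
  · obtain ⟨a, ha1, ha2, ha3⟩ := exists_finite_control (hB i)
      ((gen B (Iio i)).comap (B i).subtype)
    refine ⟨(B i).subtype '' a, ha1.image _, ?_, ?_⟩
    · rintro _ ⟨x, hx, rfl⟩
      exact ha2 hx
    · intro T _ hT haT x hx
      obtain ⟨n, hn, hnx⟩ := ha3 ⟨x, hx.1⟩ hx.2
      have hle : AddSubgroup.closure a ≤ (gen B T).comap (B i).subtype := by
        rw [AddSubgroup.closure_le]
        intro y hy
        exact haT ⟨y, hy, rfl⟩
      have : n • x ∈ gen B T := hle hnx
      exact ClosedSet.pure htop hpure hT hn this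

/-- the positive direction -/
theorem axiom3_of_type2 (hCH : (Cardinal.aleph 1 : Cardinal.{0}) = Cardinal.continuum)
    {G : Type u} [AddCommGroup G] (h : IsButlerType2 G) :
    SatisfiesAxiom3 G IsSeparableSubgroup := by
  obtain ⟨I, _, _, B, hB, htop, hpure⟩ := h.exists_family
  obtain ⟨𝒟, h𝒟⟩ := exists_goodChain hCH
  refine axiom3_of_chain hB (fun i => ?_) htop hpure
    (exists_finite_closed_of_butler hB htop hpure) h𝒟
  have := (hB i).countable
  exact Set.countable_coe_iff.1 this

end Pool.Agent.MP_d611d8_al
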