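import Mathlib
import Pool.Agent.MP_d611d8_al.DefsType1
import Pool.Agent.MP_d611d8_al.Example
import Pool.Agent.MP_d611d8_al.NotAxiom3

/-!
The group of the example is a Butler group of type 1.
-/

namespace Pool.Agent.MP_d611d8_al

open Set

universe u

lemma eq_zero_of_coprime {X : Type*} [AddCommGroup X] {y : X} {N n : ℕ} (hN : N • y = 0)
    (hn : n • y = 0) (h : n.Coprime N) : y = 0 := by
  have hb := Nat.gcd_eq_gcd_ab n N
  rw [h] at hb
  have : y = ((n : ℤ) * Nat.gcdA n N + (N : ℤ) * Nat.gcdB n N) • y := by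
    rw [← hb]
    simp
  rw [this, add_smul, mul_comm (n : ℤ), mul_comm (N : ℤ), mul_smul, mul_smul, natCast_zsmul,
    natCast_zsmul, hn, hN]
  simp

lemma exists_hom_of_torsion {X : Type*} [AddCommGroup X] {τ : X} {N : ℕ}
    (hτ : N • τ = 0) (R : AddSubgroup ℚ) (hR : ∀ r ∈ R, r.den.Coprime N) (h1 : (1 : ℚ) ∈ R) :
    ∃ φ : R →+ X, φ ⟨1, h1⟩ = τ ∧ ∀ r, N • φ r = 0 := by
  let ψ : ℚ → X := fun r => (r.num * Nat.gcdA r.den N) • τ
  have hψN : ∀ r, N • ψ r = 0 := by
    intro r
    show N • ((r.num * Nat.gcdA r.den N) • τ) = 0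
    rw [smul_comm, hτ, smul_zero]
  have hψ : ∀ r ∈ R, r.den • ψ r = r.num • τ := by
    intro r hr
    have hb := Nat.gcd_eq_gcd_ab r.den N
    rw [hR r hr] at hb
    show r.den • ((r.num * Nat.gcdA r.den N) • τ) = r.num • τ
    rw [← natCast_zsmul, smul_smul]
    have e : (r.den : ℤ) * (r.num * Nat.gcdA r.den N) =
        r.num - (r.num * Nat.gcdB r.den N) * (N : ℤ) := by
      have hb' : (1 : ℤ) = (r.den : ℤ) * Nat.gcdA r.den N + (N : ℤ) * Nat.gcdB r.den N := by
        exact_mod_cast hb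
      linear_combination r.num * (-hb')
    rw [e, sub_smul, mul_smul _ (N : ℤ), natCast_zsmul, hτ, smul_zero, sub_zero]
  have h3 : ∀ (a b : ℕ) (z : ℤ), a • b • z • τ = (((a * b : ℕ) : ℤ) * z) • τ := by
    intro a b z
    rw [mul_smul (((a * b : ℕ) : ℤ)), natCast_zsmul, mul_smul]
  have hadd : ∀ r ∈ R, ∀ s ∈ R, ψ (r + s) = ψ r + ψ s := by
    intro r hr s hs
    rw [← sub_eq_zero]
    have hc1 := hR r hr
    have hc2 := hR s hs
    have hc3 := hR (r + s) (add_mem hr hs)
    refine eq_zero_of_coprime (N := N) (n := (r + s).den * (r.den * s.den)) ?_ ?_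
      (Nat.Coprime.mul_left hc3 (Nat.Coprime.mul_left hc1 hc2))
    · rw [smul_sub, smul_add, hψN, hψN, hψN]
      simp
    · have e1 : ((r + s).den * (r.den * s.den)) • ψ (r + s) =
          ((r.den * s.den : ℕ) * (r + s).num : ℤ) • τ := by
        rw [mul_comm (r + s).den, mul_smul, hψ _ (add_mem hr hs), mul_smul, h3]
      have e2 : ((r + s).den * (r.den * s.den)) • ψ r =
          (((r + s).den * s.den : ℕ) * r.num : ℤ) • τ := by
        rw [mul_comm r.den, ← mul_assoc, mul_smul, hψ _ hr, mul_smul, h3]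
      have e3 : ((r + s).den * (r.den * s.den)) • ψ s =
          (((r + s).den * r.den : ℕ) * s.num : ℤ) • τ := by
        rw [← mul_assoc, mul_smul, hψ _ hs, mul_smul, h3]
      rw [smul_sub, smul_add, e1, e2, e3, ← add_smul, ← sub_smul]
      have hz : ((r.den * s.den : ℕ) * (r + s).num : ℤ) -
          (((r + s).den * s.den : ℕ) * r.num + ((r + s).den * r.den : ℕ) * s.num) = 0 := by
        have : (((r.den * s.den : ℕ) * (r + s).num : ℤ) : ℚ) =
            (((r + s).den * s.den : ℕ) * r.num + ((r + s).den * r.den : ℕ) * s.num : ℤ) := by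
          push_cast
          have f1 : ((r + s).num : ℚ) = (r + s) * (r + s).den := (Rat.mul_den_eq_num _).symm
          have f2 : (r.num : ℚ) = r * r.den := (Rat.mul_den_eq_num _).symm
          have f3 : (s.num : ℚ) = s * s.den := (Rat.mul_den_eq_num _).symm
          rw [f1, f2, f3]
          ring
        rw [sub_eq_zero]
        exact_mod_cast this
      rw [hz, zero_smul]
  refine ⟨AddMonoidHom.mk' (fun r : R => ψ r) fun r s => hadd r r.2 s s.2, ?_, fun r => hψN r⟩
  have h := hψ 1 h1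
  simpa using h

section Ex

variable {I : Type u} {χ : I → Set ℕ}

/-- the element `h` -/
noncomputable def exH : exGrp χ := ⟨(1, 0), by
  rw [mem_exGrp]
  refine ⟨?_, fun p hp hp2 => ⟨one_mem _, fun j hj => ?_⟩⟩
  · simp only [map_zero, add_zero]
    exact one_mem _
  · simp only [Finsupp.zero_apply]
    exact zero_mem (Loc p)⟩

lemma coe_exH : ((exH : exGrp χ) : ℚ × (I →₀ ℚ)) = (1, 0) := rfl

lemma exH_mem_supp (S : Set I) : (exH : exGrp χ) ∈ supp S := by
  intro i _
  simp [coe_exH]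

lemma eq_intCast_of_forall_Loc {r : ℚ} (h : ∀ p : ℕ, p.Prime → r ∈ Loc p) :
    ∃ m : ℤ, r = m := by
  have : r.den = 1 := by
    by_contra hcon
    obtain ⟨p, hp, hpd⟩ := Nat.exists_prime_and_dvd hcon
    have h1 := h p hp
    rw [mem_Loc] at h1
    exact (Nat.Prime.coprime_iff_not_dvd hp).1 (Nat.coprime_comm.1 h1) hpd
  exact ⟨r.num, ((Rat.den_eq_one_iff r).1 this).symm⟩

/-- elements with support in the empty set are multiples of `h` -/
lemma exists_zsmul_of_snd_eq_zero {x : exGrp χ} (hx : (x : ℚ × (I →₀ ℚ)).2 = 0) :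
    ∃ m : ℤ, x = m • exH := by
  obtain ⟨h1, h2⟩ := mem_exGrp.1 x.2
  rw [hx, map_zero, add_zero] at h1
  obtain ⟨m, hm⟩ := eq_intCast_of_forall_Loc (r := (x : ℚ × (I →₀ ℚ)).1) (by
    intro p hp
    rcases eq_or_ne p 2 with rfl | hp2
    · exact h1
    · exact (h2 p hp hp2).1)
  refine ⟨m, ?_⟩
  apply Subtype.ext
  apply Prod.ext
  · rw [hm, AddSubgroup.coe_zsmul, coe_exH]
    simp
  · rw [hx, AddSubgroup.coe_zsmul, coe_exH]
    simp

/-- local splittings -/
lemma exists_local_splitting (h2 : ∀ i, 2 ∉ χ i) (i : I) {X : Type*} [AddCommGroup X]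
    (f : X →+ exGrp χ)
    (hT : ∀ x : X, f x = 0 → ∃ n : ℕ, n ≠ 0 ∧ n • x = 0)
    (hbal : ∀ (R : AddSubgroup ℚ) (g : R →+ exGrp χ), ∃ t : R →+ X, f.comp t = g)
    {w : X} (hw : f w = exH) :
    ∃ s : (supp {i} : AddSubgroup (exGrp χ)) →+ X,
      (∀ g, f (s g) = g) ∧ s ⟨exH, exH_mem_supp _⟩ = w := by
  classical
  -- the two rank one pieces
  have hm0 : ∀ r ∈ exR (χ i) 0, ((0 : ℚ), Finsupp.single i r) ∈ exGrp χ := by
    intro r hr
    rw [mem_exR_zero] at hr
    rw [mem_exGrp]
    refine ⟨?_, fun p hp hp2 => ⟨zero_mem _, fun j hj => ?_⟩⟩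
    · simp only [tot_single, zero_add]
      exact hr 2 Nat.prime_two (h2 i)
    · rcases eq_or_ne i j with rfl | hij
      · simp only [Finsupp.single_eq_same]
        exact hr p hp hj
      · simp only [single_ne' hij]
        exact zero_mem (Loc p)
  have hm1 : ∀ r ∈ exR (χ i) 1, (r, -Finsupp.single i r) ∈ exGrp χ := by
    intro r hr
    rw [mem_exR_one] at hr
    rw [mem_exGrp]
    refine ⟨?_, fun p hp hp2 => ⟨hr p hp hp2, fun j hj => ?_⟩⟩
    · simp only [map_neg, tot_single, add_neg_cancel]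
      exact zero_mem _
    · simp only [Finsupp.neg_apply]
      rcases eq_or_ne i j with rfl | hij
      · simp only [Finsupp.single_eq_same]
        exact neg_mem (hr p hp hp2)
      · simp only [single_ne' hij]
        exact neg_mem (zero_mem (Loc p))
  let g0 : exR (χ i) 0 →+ exGrp χ :=
    { toFun := fun r => ⟨_, hm0 r r.2⟩
      map_zero' := by
        apply Subtype.ext
        simp
      map_add' := by
        intro r s
        apply Subtype.ext
        apply Prod.ext
        · simp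
        · simp }
  let g1 : exR (χ i) 1 →+ exGrp χ :=
    { toFun := fun r => ⟨_, hm1 r r.2⟩
      map_zero' := by
        apply Subtype.ext
        simp
      map_add' := by
        intro r s
        apply Subtype.ext
        apply Prod.ext
        · simp
        · simp [add_comm] }
  obtain ⟨t0, ht0⟩ := hbal _ g0
  obtain ⟨t1, ht1⟩ := hbal _ g1
  have ht0' : ∀ r, f (t0 r) = g0 r := fun r => DFunLike.congr_fun ht0 r
  have ht1' : ∀ r, f (t1 r) = g1 r := fun r => DFunLike.congr_fun ht1 r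
  have h10 : (1 : ℚ) ∈ exR (χ i) 0 := by
    rw [mem_exR_zero]
    exact fun p _ _ => one_mem _
  have h11 : (1 : ℚ) ∈ exR (χ i) 1 := by
    rw [mem_exR_one]
    exact fun p _ _ => one_mem _
  -- the torsion element
  set τ : X := t0 ⟨1, h10⟩ + t1 ⟨1, h11⟩ - w with hτ
  have hfτ : f τ = 0 := by
    rw [hτ, map_sub, map_add, ht0', ht1', hw]
    apply Subtype.ext
    apply Prod.ext
    · simp [g0, g1, coe_exH]
    · simp [g0, g1, coe_exH]
  obtain ⟨N, hN, hNτ⟩ := hT τ hfτ
  obtain ⟨k, m, hm, hNkm⟩ := Nat.exists_eq_two_pow_mul_odd hN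
  have hcop : Nat.Coprime m (2 ^ k) := Nat.Coprime.pow_right k (Nat.coprime_two_right.2 hm)
  have hb := Nat.gcd_eq_gcd_ab m (2 ^ k)
  rw [hcop] at hb
  set τ1 : X := ((m : ℤ) * Nat.gcdA m (2 ^ k)) • τ with hτ1
  set τ2 : X := (((2 ^ k : ℕ) : ℤ) * Nat.gcdB m (2 ^ k)) • τ with hτ2
  have hsum : τ1 + τ2 = τ := by
    rw [hτ1, hτ2, ← add_smul, ← hb]
    simp
  have hτ1N : (2 ^ k) • τ1 = 0 := by
    rw [hτ1, ← natCast_zsmul, smul_smul]
    have : ((2 ^ k : ℕ) : ℤ) * ((m : ℤ) * Nat.gcdA m (2 ^ k)) =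
        Nat.gcdA m (2 ^ k) * ((N : ℕ) : ℤ) := by
      rw [hNkm]
      push_cast
      ring
    rw [this, mul_smul, natCast_zsmul, hNτ, smul_zero]
  have hτ2N : m • τ2 = 0 := by
    rw [hτ2, ← natCast_zsmul, smul_smul]
    have : (m : ℤ) * (((2 ^ k : ℕ) : ℤ) * Nat.gcdB m (2 ^ k)) =
        Nat.gcdB m (2 ^ k) * ((N : ℕ) : ℤ) := by
      rw [hNkm]
      push_cast
      ring
    rw [this, mul_smul, natCast_zsmul, hNτ, smul_zero]
  obtain ⟨φ0, hφ0, hφ0N⟩ := exists_hom_of_torsion hτ1N (exR (χ i) 0) (by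
    intro r hr
    exact Nat.Coprime.pow_right k (hr 2 Nat.prime_two (h2 i))) h10
  obtain ⟨φ1, hφ1, hφ1N⟩ := exists_hom_of_torsion hτ2N (exR (χ i) 1) (by
    intro r hr
    rw [mem_exR_one] at hr
    refine Nat.Coprime.symm (Nat.coprime_of_dvd fun p hp hpm hpr => ?_)
    rcases eq_or_ne p 2 with rfl | hp2
    · exact (Nat.not_even_iff_odd.2 hm) (even_iff_two_dvd.2 hpm)
    · exact (Nat.Prime.coprime_iff_not_dvd hp).1 (Nat.coprime_comm.1 (hr p hp hp2)) hpr) h11
  have htf : ∀ (n : ℕ) (x : X), n ≠ 0 → n • x = 0 → f x = 0 := by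
    intro n x hn hx
    refine exGrp_torsionFree n (f x) hn ?_
    rw [← map_nsmul, hx, map_zero]
  have hfφ0 : ∀ r, f (φ0 r) = 0 := fun r => htf _ _ (by positivity) (hφ0N r)
  have hm0' : m ≠ 0 := by
    rintro rfl
    exact absurd hm (by decide)
  have hfφ1 : ∀ r, f (φ1 r) = 0 := fun r => htf _ _ hm0' (hφ1N r)
  let c : (k : Fin 2) → (supp {i} : AddSubgroup (exGrp χ)) →+ exR (χ i) k := fun k =>
    { toFun := fun x => ⟨exCoord i k ((x : exGrp χ) : ℚ × (I →₀ ℚ)), exCoord_mem i x k⟩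
      map_zero' := by
        apply Subtype.ext
        simp
      map_add' := by
        intro x y
        apply Subtype.ext
        simp }
  let s : (supp {i} : AddSubgroup (exGrp χ)) →+ X :=
    (t0 - φ0).comp (c 0) + (t1 - φ1).comp (c 1)
  have hs : ∀ g, s g = (t0 (c 0 g) - φ0 (c 0 g)) + (t1 (c 1 g) - φ1 (c 1 g)) := fun g => rfl
  refine ⟨s, ?_, ?_⟩
  · intro g
    rw [hs, map_add, map_sub, map_sub, hfφ0, hfφ1, ht0', ht1', sub_zero, sub_zero]
    apply Subtype.ext
    have hg := eq_single_of_mem_supp g.2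
    apply Prod.ext
    · show (0 : ℚ) + exCoord i 1 ((g : exGrp χ) : ℚ × (I →₀ ℚ)) = _
      rw [exCoord_one, zero_add]
    · show Finsupp.single i (exCoord i 0 ((g : exGrp χ) : ℚ × (I →₀ ℚ))) +
        -Finsupp.single i (exCoord i 1 ((g : exGrp χ) : ℚ × (I →₀ ℚ))) = _
      rw [exCoord_zero, exCoord_one, ← Finsupp.single_neg, ← Finsupp.single_add, hg]
      congr 1
      simp
  · have hc0 : c 0 ⟨exH, exH_mem_supp _⟩ = ⟨1, h10⟩ := by
      apply Subtype.ext
      show exCoord i 0 ((exH : exGrp χ) : ℚ × (I →₀ ℚ)) = 1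
      rw [exCoord_zero, coe_exH]
      simp
    have hc1 : c 1 ⟨exH, exH_mem_supp _⟩ = ⟨1, h11⟩ := by
      apply Subtype.ext
      show exCoord i 1 ((exH : exGrp χ) : ℚ × (I →₀ ℚ)) = 1
      rw [exCoord_one, coe_exH]
    rw [hs, hc0, hc1, hφ0, hφ1]
    have : t0 ⟨1, h10⟩ - τ1 + (t1 ⟨1, h11⟩ - τ2) = (t0 ⟨1, h10⟩ + t1 ⟨1, h11⟩) - (τ1 + τ2) := by
      abel
    rw [this, hsum, hτ]
    abel

/-- the group of the example is a Butler group of type 1 -/
theorem exGrp_type1 [Nonempty I] (h2 : ∀ i, 2 ∉ χ i) : IsButlerType1 (exGrp χ) := by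
  classical
  refine ⟨exGrp_torsionFree, ?_⟩
  intro X _ f hf hT hbal
  obtain ⟨w, hw⟩ := hf exH
  choose s hs1 hs2 using fun i => exists_local_splitting h2 i f hT hbal hw
  let π : (Π₀ i : I, (supp {i} : AddSubgroup (exGrp χ))) →+ exGrp χ :=
    DFinsupp.sumAddHom fun i => (supp {i} : AddSubgroup (exGrp χ)).subtype
  let σ : (Π₀ i : I, (supp {i} : AddSubgroup (exGrp χ))) →+ X := DFinsupp.sumAddHom s
  have hfσ : f.comp σ = π := by
    rw [DFinsupp.comp_sumAddHom]
    congr 1
    funext i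
    exact AddMonoidHom.ext fun g => hs1 i g
  have hπsurj : Function.Surjective π := by
    intro g
    have hrange : ∀ S : Finset I, S.Nonempty → (supp (S : Set I) : AddSubgroup (exGrp χ)) ≤
        π.range := by
      intro S hS
      induction hS using Finset.Nonempty.cons_induction with
      | singleton i =>
        intro x hx
        rw [Finset.coe_singleton] at hx
        refine ⟨DFinsupp.single i ⟨x, hx⟩, ?_⟩
        show DFinsupp.sumAddHom _ _ = _
        rw [DFinsupp.sumAddHom_single]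
        rfl
      | cons i S hi hS ih =>
        rw [Finset.coe_cons, supp_insert]
        refine sup_le ih ?_
        intro x hx
        refine ⟨DFinsupp.single i ⟨x, hx⟩, ?_⟩
        show DFinsupp.sumAddHom _ _ = _
        rw [DFinsupp.sumAddHom_single]
        rfl
    obtain ⟨i0⟩ := ‹Nonempty I›
    refine hrange (insert i0 (g : ℚ × (I →₀ ℚ)).2.support) (Finset.insert_nonempty _ _) ?_
    intro i hi
    by_contra hcon
    apply hi
    rw [Finset.coe_insert]
    exact Or.inr (Finsupp.mem_support_iff.2 hcon)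
  have hker : π.ker ≤ σ.ker := by
    intro d hd
    rw [AddMonoidHom.mem_ker] at hd ⊢
    -- the coordinates
    let q : I → (exGrp χ →+ ℚ) := fun i =>
      ((Finsupp.applyAddHom i).comp (AddMonoidHom.snd ℚ (I →₀ ℚ))).comp (exGrp χ).subtype
    have hq : ∀ i x, q i x = (x : ℚ × (I →₀ ℚ)).2 i := fun i x => rfl
    have hqπ : ∀ i, (q i).comp π =
        ((q i).comp (supp {i} : AddSubgroup (exGrp χ)).subtype).comp
          (DFinsupp.evalAddMonoidHom i) := by
      intro i
      refine DFinsupp.addHom_ext fun j y => ?_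
      have e1 : π (DFinsupp.single j y) = y := DFinsupp.sumAddHom_single _ _ _
      have e2 : ∀ z : Π₀ i : I, (supp {i} : AddSubgroup (exGrp χ)),
          ((q i).comp (supp {i} : AddSubgroup (exGrp χ)).subtype).comp
            (DFinsupp.evalAddMonoidHom i) z = q i ((z i : (supp {i} : AddSubgroup (exGrp χ))) :
              exGrp χ) := fun z => rfl
      rw [e2, AddMonoidHom.comp_apply, e1]
      rcases eq_or_ne j i with rfl | hij
      · rw [DFinsupp.single_eq_same]
      · rw [DFinsupp.single_eq_of_ne hij.symm, AddSubgroup.coe_zero, map_zero, hq]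
        exact y.2 i fun h => hij h.symm
    have hdi : ∀ i, ∃ m : ℤ, ((d i : (supp {i} : AddSubgroup (exGrp χ))) : exGrp χ) =
        m • exH := by
      intro i
      apply exists_zsmul_of_snd_eq_zero
      rw [eq_single_of_mem_supp (d i).2]
      have h1 := DFunLike.congr_fun (hqπ i) d
      rw [AddMonoidHom.comp_apply, hd, map_zero] at h1
      have h3 : (((d i : (supp {i} : AddSubgroup (exGrp χ))) : exGrp χ) : ℚ × (I →₀ ℚ)).2 i = 0 :=
        h1.symm
      rw [h3, Finsupp.single_zero]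
    choose m hm using hdi
    have hsi : ∀ i, s i (d i) = m i • w := by
      intro i
      have : d i = m i • ⟨exH, exH_mem_supp _⟩ := by
        apply Subtype.ext
        rw [hm i]
        rfl
      rw [this, map_zsmul, hs2]
    have hπd : π d = (∑ i ∈ d.support, m i) • exH := by
      have : π d = d.sum fun i => ((supp {i} : AddSubgroup (exGrp χ)).subtype) :=
        DFinsupp.sumAddHom_apply _ _
      rw [this, DFinsupp.sum, Finset.sum_smul]
      exact Finset.sum_congr rfl fun i _ => hm i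
    have hσd : σ d = (∑ i ∈ d.support, m i) • w := by
      have : σ d = d.sum fun i => s i := DFinsupp.sumAddHom_apply _ _
      rw [this, DFinsupp.sum, Finset.sum_smul]
      exact Finset.sum_congr rfl fun i _ => hsi i
    rw [hd] at hπd
    have h0 : (∑ i ∈ d.support, m i) = 0 := by
      have h1 := congrArg (fun x : exGrp χ => (x : ℚ × (I →₀ ℚ)).1) hπd
      simp only [AddSubgroup.coe_zsmul, coe_exH, AddSubgroup.coe_zero, Prod.fst_zero,
        Prod.smul_fst, zsmul_eq_mul, mul_one] at h1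
      exact_mod_cast h1.symm
    rw [hσd, h0, zero_smul]
  let s' : exGrp χ →+ X := (π.liftOfSurjective hπsurj) ⟨σ, hker⟩
  have hs' : ∀ d, s' (π d) = σ d := fun d =>
    AddMonoidHom.liftOfRightInverse_comp_apply _ _ _ ⟨σ, hker⟩ d
  refine ⟨s', ?_⟩
  ext1 g
  obtain ⟨d, rfl⟩ := hπsurj g
  rw [AddMonoidHom.comp_apply, hs', AddMonoidHom.id_apply]
  exact DFunLike.congr_fun hfσ d

end Ex

end Pool.Agent.MP_d611d8_al
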